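import Pool.Agent.H97.Pcp.Verify2

/-!
# The certificate
-/

set_option autoImplicit false

namespace Pool.Agent.H97.Pcp

open Finset Pool.Agent.H97.Tag

/-! ### Words with blocks -/

theorem blk_getD (Ol : List ℕ) (L : ℕ) (ps : List ℕ) (z : ℕ) :
    (blk Ol L ps).getD z false = decide (z < L ∧ ∃ p ∈ ps, ∃ d ∈ Ol, z = p + d) := by
  unfold blk
  by_cases h : z < L
  · rw [List.getD_eq_getElem _ _ (by simpa using h), List.getElem_map, List.getElem_range]
    apply decide_eq_decide.2
    simp only [h, true_and]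
  · rw [List.getD_eq_default _ _ (by simpa using h)]
    symm
    rw [decide_eq_false_iff_not]
    rintro ⟨h1, _⟩
    exact h h1

theorem blk_take (Ol : List ℕ) (L : ℕ) (ps : List ℕ) {n : ℕ} (h : n ≤ L) :
    (blk Ol L ps).take n = blk Ol n ps := by
  unfold blk
  rw [← List.map_take, List.take_range, min_eq_left h]

theorem rd_getD {B : Type*} {ν : ℕ} (hν : 0 < ν) (w : Bool → List B) (x : List Bool) (k : ℕ)
    (hx : x.length = ν * k) :
    rd ν w 0 x = (List.range k).flatMap (fun i => w (x.getD (ν * i) false)) := by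
  have h : x = (List.range (ν * k)).map (fun i => x.getD i false) := by
    apply List.ext_getElem
    · simp [hx]
    · intro i hi1 hi2
      rw [List.getElem_map, List.getElem_range, List.getD_eq_getElem _ _ hi1]
  conv_lhs => rw [h]
  exact rd_range hν w _ k

theorem rd_congr {B : Type*} {ν : ℕ} (hν : 0 < ν) (w : Bool → List B) {x y : List Bool} {k : ℕ}
    (hx : x.length = ν * k) (hy : y.length = ν * k)
    (h : ∀ i < k, x.getD (ν * i) false = y.getD (ν * i) false) : rd ν w 0 x = rd ν w 0 y := by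
  rw [rd_getD hν w x k hx, rd_getD hν w y k hy]
  apply List.flatMap_congr
  intro i hi
  rw [List.mem_range] at hi
  rw [h i hi]

theorem cells_eq' {A : Pat} (hA : A.Ok) (Λ : ℕ) (c : ℕ → ℕ) (l : List ℕ) :
    (∀ y ∈ l, c y + A.E + 1 ≤ Λ) →
    l.flatMap (fun y => blk A.Ol Λ [c y]) = blk A.Ol (Λ * l.length) (ixs Λ 0 (l.map c)) ∧
      Good A.E (Λ * l.length) (ixs Λ 0 (l.map c)) := by
  induction l using List.reverseRecOn with
  | nil =>
    intro _
    refine ⟨?_, ?_, ?_⟩
    · simp [blk]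
    · simp
    · simp
  | append_singleton l y ih =>
    intro hl
    obtain ⟨h1, h2⟩ := ih (fun y hy => hl y (by simp [hy]))
    have hy := hl y (by simp)
    rw [List.flatMap_append, h1]
    have e1 : [y].flatMap (fun y => blk A.Ol Λ [c y]) = blk A.Ol Λ [c y] := by simp
    rw [e1, blk_append hA.lt _ _ h2.2]
    have e2 : ixs Λ 0 ((l ++ [y]).map c) =
        ixs Λ 0 (l.map c) ++ [c y].map (Λ * l.length + ·) := by
      rw [List.map_append, ixs_append]
      simp only [List.map_cons, List.map_nil, ixs_cons, ixs_nil, List.length_map, Nat.zero_add]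
      rw [Nat.add_comm]
    have e3 : Λ * (l ++ [y]).length = Λ * l.length + Λ := by simp [Nat.mul_add]
    rw [e2, e3]
    refine ⟨rfl, ?_, ?_⟩
    · rw [List.pairwise_append]
      refine ⟨h2.1, by simp, ?_⟩
      intro p hp q hq
      simp only [List.map_cons, List.map_nil, List.mem_singleton] at hq
      have := h2.2 p hp
      omega
    · intro p hp
      rw [List.mem_append] at hp
      rcases hp with hp | hp
      · have := h2.2 p hp
        omega
      · simp only [List.map_cons, List.map_nil, List.mem_singleton] at hp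
        omega

theorem pass_dead' {A : Pat} (hA : A.Ok) {n : ℕ} {ps : List ℕ} (hg : Good A.E (A.ν * n) ps)
    (hd : ∀ p ∈ ps, A.Dead p) : A.pass (blk A.Ol (A.ν * n) ps) = List.replicate n false := by
  obtain ⟨h1, _⟩ := rd_blk (ν := A.ν) hA.pos hA.lt hA.sorted hg
  have h2 : ps.flatMap (reads A.ν A.Ol) = [] := by
    rw [List.flatMap_eq_nil_iff]
    intro p hp
    exact Pat.reads_dead (hd p hp)
  rw [h2] at h1
  rw [List.length_nil, Nat.mul_zero, Nat.add_zero, ixs_nil, blk_nil] at h1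
  exact h1

/-- The marks of the pattern modulo `ν`. -/
theorem Pat.mem_Ol {A : Pat} (hA : A.Ok) {d : ℕ} (hd : d ∈ A.Ol) : d = 1 ∨ ∃ j < A.mt, d = A.ν * A.δ j := by
  unfold Pat.Ol at hd
  rw [List.mem_cons, List.mem_cons, List.mem_map] at hd
  rcases hd with rfl | rfl | ⟨j, hj, rfl⟩
  · exact Or.inr ⟨0, hA.mpos, by rw [hA.zero, Nat.mul_zero]⟩
  · exact Or.inl rfl
  · rw [List.mem_range] at hj
    exact Or.inr ⟨j + 1, by omega, rfl⟩

theorem Pat.δ_mem {A : Pat} (hA : A.Ok) {j : ℕ} (hj : j < A.mt) : A.ν * A.δ j ∈ A.Ol := by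
  unfold Pat.Ol
  rw [List.mem_cons, List.mem_cons, List.mem_map]
  rcases Nat.eq_zero_or_pos j with rfl | h
  · left; rw [hA.zero, Nat.mul_zero]
  · right; right
    exact ⟨j - 1, by rw [List.mem_range]; omega, by rw [Nat.sub_add_cancel h]⟩

namespace Dt

variable (D : Dt)

/-- The production of `true`. -/
def wone : List Bool := blk D.A.Ol (D.E + 1) [0]

/-- The length of a cell. -/
def Lc : ℕ := 2 * D.R' * D.E

/-- The words of the letters. -/
def cellL : List (List Bool) := (List.range D.M).map (fun y => blk D.A.Ol D.Lc [D.c y])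

/-- The start word. -/
def vI : List ℕ := (List.range D.L).map D.tgI

/-- The certificate. -/
def cert : Cert := ((D.wone, D.cellL), (D.K, D.Lc, D.ε, D.K - 1))

theorem pass_eq : pass D.wone = D.A.pass := by
  funext x
  unfold pass Pat.pass
  have : rule D.wone = wd D.A.Ol D.A.E := by
    funext b
    cases b <;> rfl
  rw [this]
  rfl

/-- All parameters. -/
structure Setup (P : ℕ → List ℕ) : Prop where
  full : D.Full
  hT : D.T = tlist D.M P
  sorted : ∀ y < D.M, (P y).Pairwise (· < ·)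
  bounded : ∀ y < D.M, ∀ x ∈ P y, x < D.M
  special : ∀ y < D.M, P y = [] → D.tl y = 8
  normalI : ∀ r < D.L, P (D.tgI r) ≠ []

variable {D}
variable {P : ℕ → List ℕ}

namespace Setup

theorem cnt_eq (F : D.Setup P) {a : ℕ} (ha : a < D.M) :
    cnt D.T a D.T.length = (P a).length := by
  unfold cnt
  rw [List.take_length, F.hT, tlist_filter ha (F.sorted a ha) (F.bounded a ha), List.length_map]

theorem exists_r (F : D.Setup P) {a : ℕ} (ha : a < D.M) (hP : P a ≠ []) :
    ∃ r < D.T.length, clT D.T r = a := by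
  have h1 := F.cnt_eq ha
  have h2 : 0 < (P a).length := List.length_pos_iff.2 hP
  rw [← h1] at h2
  unfold cnt at h2
  rw [List.take_length] at h2
  obtain ⟨p, hp⟩ := List.exists_mem_of_length_pos h2
  rw [List.mem_filter, decide_eq_true_eq] at hp
  obtain ⟨r, hr, hr2⟩ := List.getElem_of_mem hp.1
  refine ⟨r, hr, ?_⟩
  unfold clT
  rw [List.getD_eq_getElem _ _ hr, hr2]
  exact hp.2

theorem tl_normal (F : D.Setup P) {a : ℕ} (ha : a < D.M) (hP : P a ≠ []) :
    D.tl a = 6 + 31 * 6 ^ (lam a - 1) := F.full.tl_T (F.exists_r ha hP)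

/-- The residue of the code of a normal letter. -/
theorem b_normal (F : D.Setup P) {a : ℕ} (ha : a < D.M) (hP : P a ≠ []) :
    6 ∣ D.b a + 4 := by
  obtain ⟨r, hr, rfl⟩ := F.exists_r ha hP
  have h1 := F.full.cl_batch hr F.full.plan.hN0
  obtain ⟨z, hz⟩ := F.full.b_cl_mod (D.N * r + 0)
  rw [h1] at hz
  exact ⟨z, hz⟩

/-- The residue of the code of a special letter. -/
theorem b_special (F : D.Setup P) {a : ℕ} (ha : a < D.M) (hP : P a = []) :
    6 ∣ D.b a + 2 := by
  obtain ⟨e, he⟩ := F.full.ε_mod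
  have hK := F.full.K8
  unfold Dt.b
  rw [F.special a ha hP]
  have h1 : 6 ^ (D.K - 1) = 6 * 6 ^ (D.K - 2) := by
    rw [← pow_succ']; congr 1; omega
  rw [h1]
  refine ⟨4 * (6 * e) + (6 ^ (D.K - 2) * D.h a + 1), ?_⟩
  have : 4 * D.ε + 4 = 4 * (36 * e) := by rw [← he]; ring
  linarith

theorem R'_mod (F : D.Setup P) : ∃ z, D.R' = 36 * z + 23 := by
  obtain ⟨w, hw⟩ := F.full.W_mod
  rw [F.full.hR, hw]
  refine ⟨5 * (1296 * w ^ 3 + 3 * 36 * w ^ 2 * 7 + 3 * w * 49 + 9) + 2, ?_⟩
  ring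

theorem E_mod (F : D.Setup P) : ∃ e, D.E + 5 = 180 * e ∧ 1 ≤ e := by
  obtain ⟨e, he⟩ := F.full.ε_mod
  refine ⟨e, ?_, ?_⟩
  · unfold Dt.E; omega
  · omega

/-- The cell length modulo `6`. -/
theorem Lc_mod (F : D.Setup P) : D.Lc % 6 = 4 := by
  obtain ⟨z, hz⟩ := F.R'_mod
  obtain ⟨e, he, he1⟩ := F.E_mod
  unfold Dt.Lc
  have h1 : D.R' % 6 = 5 := by omega
  have h2 : D.E % 6 = 1 := by omega
  rw [Nat.mul_mod, Nat.mul_mod 2, h1, h2]

theorem cell_le (F : D.Setup P) {y : ℕ} (hy : y < D.M) : D.c y + D.A.E + 1 ≤ D.Lc := F.full.del.cell y hy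

theorem gw_eq (F : D.Setup P) {y : ℕ} (hy : y < D.M) :
    gw D.cellL D.Lc y = blk D.A.Ol (D.A.ν * (D.R' * D.E)) [D.c y] ∧
      Good D.A.E (D.A.ν * (D.R' * D.E)) [D.c y] := by
  have h1 := F.cell_le hy
  have h2 : D.cellL.getD y [] = blk D.A.Ol D.Lc [D.c y] := by
    unfold cellL
    rw [List.getD_eq_getElem _ _ (by simpa using hy), List.getElem_map, List.getElem_range]
  have h3 : D.A.ν * (D.R' * D.E) = D.Lc + 2 * D.Lc := by
    show 6 * (D.R' * D.E) = 2 * D.R' * D.E + 2 * (2 * D.R' * D.E)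
    ring
  constructor
  · unfold gw
    rw [h2, ← blk_nil D.A.Ol, blk_append F.full.ok.lt]
    · rw [h3]; rfl
    · intro p hp
      rw [List.mem_singleton] at hp
      subst hp
      omega
  · refine ⟨by simp, ?_⟩
    intro p hp
    rw [List.mem_singleton] at hp
    subst hp
    rw [h3]
    omega

/-- The blocks before the normal ones. -/
def P0 (D : Dt) (y : ℕ) : List ℕ := [D.b y]

/-- The blocks after the normal ones. -/
def P1 (D : Dt) (y : ℕ) : List ℕ :=
  (List.range D.mI).map (fun i => D.b y + D.δ (D.m + 1 + i) + D.E * (D.m + 1 + i))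

theorem split_list (F : D.Setup P) (f : ℕ → ℕ) : (List.range D.A.mt).map f =
    [f 0] ++ ((List.range D.m).map (fun j => f (j + 1)) ++
      (List.range D.mI).map (fun i => f (D.m + 1 + i))) := by
  have h : D.A.mt = 1 + (D.m + D.mI) := by
    have := F.full.mt_eq
    show D.mt = _
    omega
  rw [h, List.range_add, List.map_append, List.range_add, List.map_append, List.map_append,
    List.map_map, List.map_map, List.map_map]
  congr 1
  congr 1
  · apply List.map_congr_left
    intro j _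
    simp only [Function.comp_apply]
    rw [Nat.add_comm]
  · apply List.map_congr_left
    intro j _
    simp only [Function.comp_apply]
    congr 1
    omega

theorem first (F : D.Setup P) {y : ℕ} (hy : y < D.M) :
    D.A.pass (gw D.cellL D.Lc y) = blk D.A.Ol (D.R' * D.E + D.E * D.mt)
      ((List.range D.A.mt).map (fun j => D.b y + D.δ j + D.E * j)) ∧
    Good D.A.E (D.R' * D.E + D.E * D.mt)
      ((List.range D.A.mt).map (fun j => D.b y + D.δ j + D.E * j)) := by
  obtain ⟨h1, h2⟩ := F.gw_eq hy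
  have h3 := first_pass (A := D.A) F.full.ok (n := D.R' * D.E) (c := D.c y)
    (show 6 ∣ 6 * D.b y from Dvd.intro _ rfl) h2
  rw [h1]
  have e : D.c y / D.A.ν = D.b y := Nat.mul_div_cancel_left _ (by norm_num)
  rw [e] at h3
  exact h3

/-- The evolution of a group of normal letters. -/
theorem group_iter (F : D.Setup P) {y : ℕ} (hy : y < D.M) (hP : P y ≠ []) :
    ∀ t, 1 ≤ t → t ≤ D.K →
      (D.A.pass)^[t] (gw D.cellL D.Lc y) =
        blk D.A.Ol ((D.G y).Ls D.A (Full.B D) t) ((D.G y).pss D.A t (P0 D y) (P1 D y)) ∧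
      (t < D.K → 6 ∣ (D.G y).Ls D.A (Full.B D) t) := by
  obtain ⟨h1, h2⟩ := F.first hy
  have hC := F.full.cond hy (F.exists_r hy hP)
  have hpos : 0 < cnt D.T y D.T.length := by
    rw [F.cnt_eq hy]; exact List.length_pos_iff.2 hP
  have hb := F.b_normal hy hP
  have e1 : (List.range D.A.mt).map (fun j => D.b y + D.δ j + D.E * j) =
      (D.G y).pss D.A 1 (P0 D y) (P1 D y) := by
    rw [Grp.pss_one hC, F.split_list]
    congr 1
    · have : D.δ 0 = 0 := F.full.ok.zero
      rw [this]; simp [P0]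
    congr 1
    · apply List.map_congr_left
      intro j _
      show D.b y + D.δ (j + 1) + D.E * (j + 1) = D.b y + D.δ (j + 1) + D.E + D.E * j
      ring
  have e2 : D.R' * D.E + D.E * D.mt = (D.G y).Ls D.A (Full.B D) 1 := by
    rw [Grp.Ls_one hC, F.full.mt_eq]
    show _ = D.E * (D.R' + 1 + D.mI) + D.E * D.m
    ring
  rw [e1, e2] at h1 h2
  have hst := Grp.stages (B := Full.B D) (P₀ := P0 D y) (P := P1 D y) F.full.ok hC
    (by
      intro p hp
      unfold P0 at hp
      rw [List.mem_singleton] at hp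
      subst hp
      exact Pat.dead_of (c := 4) (by norm_num) (show 4 < 6 by norm_num) hb)
    (by
      intro p hp
      unfold P1 at hp
      rw [List.mem_map] at hp
      obtain ⟨i, hi, rfl⟩ := hp
      rw [List.mem_range] at hi
      refine Pat.dead_of (c := 5) (by norm_num) (show 5 < 6 by norm_num) ?_
      have h3 := F.full.δI_mod hi
      have : D.b y + D.δ (D.m + 1 + i) + D.E * (D.m + 1 + i) + 5 =
          (D.b y + 4) + (D.δ (D.m + 1 + i) + D.E * (D.m + 1 + i) + 1) := by ring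
      rw [this]
      exact Dvd.dvd.add hb h3)
    (by
      intro t _ ht2
      exact F.full.Sm_dvd hy hpos ht2) h2
  intro t ht1 ht2
  obtain ⟨t, rfl⟩ : ∃ t', t = t' + 1 := ⟨t - 1, by omega⟩
  obtain ⟨h3, _, h5⟩ := hst t (by omega)
  refine ⟨?_, h5⟩
  rw [Function.iterate_succ_apply, h1, h3]

theorem pss_big (G : Grp) (A : Pat) {t : ℕ} (ht : 2 ≤ t) (P₀ P : List ℕ) :
    G.pss A t P₀ P = (List.range G.m).flatMap (G.AS A t) := by
  unfold Grp.pss
  rw [if_neg (by omega), if_neg (by omega), List.append_nil, List.nil_append]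

theorem cellsW_eq (F : D.Setup P) {l : List ℕ} (hl : ∀ y ∈ l, y < D.M) :
    cellsW D.cellL l = blk D.A.Ol (D.Lc * l.length) (ixs D.Lc 0 (l.map D.c)) := by
  have h1 := (cells_eq' F.full.ok D.Lc D.c l (fun y hy => F.cell_le (hl y hy))).1
  rw [← h1]
  unfold cellsW cellL
  apply List.flatMap_congr
  intro y hy
  rw [List.getD_eq_getElem _ _ (by simpa using hl y hy), List.getElem_map, List.getElem_range]

/-- The last stage. -/
theorem group_last (F : D.Setup P) {y : ℕ} (hy : y < D.M) (hP : P y ≠ []) :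
    (D.A.pass)^[D.K] (gw D.cellL D.Lc y) = cellsW D.cellL (P y) := by
  have hK := F.full.K8
  have hpos : 0 < cnt D.T y D.T.length := by
    rw [F.cnt_eq hy]; exact List.length_pos_iff.2 hP
  rw [(F.group_iter hy hP D.K (by omega) le_rfl).1, F.cellsW_eq (F.bounded y hy), pss_big _ _ (by omega),
    F.full.Ls_last hy hpos, F.cnt_eq hy]
  have h2 := F.full.final' hy
  have h3 : (D.G y).m = D.m := rfl
  rw [h3, h2, F.hT, tlist_filter hy (F.sorted y hy) (F.bounded y hy), List.map_map]
  rfl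

/-- No marks at positions `1` modulo `6`. -/
theorem Zr_blk (hA : D.A.Ok) {L : ℕ} {ps : List ℕ} (h : ∀ p ∈ ps, 6 ∣ p + 1) :
    Zr 1 (blk D.A.Ol L ps) := by
  intro i _ hi
  rw [blk_getD, decide_eq_false_iff_not]
  rintro ⟨_, p, hp, d, hd, rfl⟩
  obtain ⟨z, hz⟩ := h p hp
  rcases Pat.mem_Ol hA hd with rfl | ⟨j, _, rfl⟩
  · omega
  · have : D.A.ν = 6 := rfl
    rw [this] at hi
    omega

theorem group_Zr (F : D.Setup P) {y : ℕ} (hy : y < D.M) (hP : P y ≠ []) {t : ℕ} (ht : 2 ≤ t)
    (ht3 : t ≤ 3) : Zr 1 ((D.A.pass)^[t] (gw D.cellL D.Lc y)) := by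
  have hK := F.full.K8
  have hC := F.full.cond hy (F.exists_r hy hP)
  rw [(F.group_iter hy hP t (by omega) (by omega)).1, pss_big _ _ ht]
  apply Zr_blk F.full.ok
  intro p hp
  rw [List.mem_flatMap] at hp
  obtain ⟨j, hj, hp⟩ := hp
  rw [List.mem_range] at hj
  have h4 := hC.four j hj
  unfold Grp.AS at hp
  rw [if_pos (by omega), List.mem_singleton] at hp
  subst hp
  obtain ⟨t, rfl⟩ : ∃ t', t = t' + 1 := ⟨t - 1, by omega⟩
  rw [Nat.add_sub_cancel]
  have h5 := (D.G y).X_add_one D.A (show 0 < 6 by norm_num) t j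
    (hC.persist j hj t (by omega) (by omega) (by omega))
  obtain ⟨z, hz⟩ := hC.persist j hj (t + 1) (by omega) (by omega) (by omega)
  refine ⟨z, ?_⟩
  have h6 : 6 ^ t * ((D.G y).X D.A t j + 1) = 6 ^ t * (6 * z) := by
    have h7 : D.A.ν ^ t * ((D.G y).X D.A t j + 1) = D.A.ν ^ (t + 1) * z := by rw [h5, hz]
    have h8 : D.A.ν = 6 := rfl
    rw [h8] at h7
    rw [h7, pow_succ]; ring
  exact Nat.eq_of_mul_eq_mul_left (pow_pos (by norm_num) _) h6

/-- The group of a special letter. -/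
theorem kill_group (F : D.Setup P) {y : ℕ} (hy : y < D.M) (hP : P y = []) :
    6 ∣ (D.A.pass (gw D.cellL D.Lc y)).length ∧
    ∃ n, D.A.pass (D.A.pass (gw D.cellL D.Lc y)) = List.replicate n false ∧ n % 6 = 5 ∧ 11 ≤ n := by
  obtain ⟨h1, h2⟩ := F.first hy
  have hb := F.b_special hy hP
  obtain ⟨z, hz⟩ := F.R'_mod
  obtain ⟨e, he, he1⟩ := F.E_mod
  obtain ⟨m, hm⟩ := F.full.mt_mod
  have hlen : D.R' * D.E + D.E * D.mt = D.A.ν * (D.E * (6 * (z + m) + 5)) := by
    show _ = 6 * (D.E * (6 * (z + m) + 5))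
    rw [hz, hm]; ring
  rw [hlen] at h1 h2
  constructor
  · rw [h1, blk_length]; exact Dvd.intro _ rfl
  · refine ⟨D.E * (6 * (z + m) + 5), ?_, ?_, ?_⟩
    · rw [h1]
      apply pass_dead' F.full.ok h2
      intro p hp
      rw [List.mem_map] at hp
      obtain ⟨j, hj, rfl⟩ := hp
      rw [List.mem_range] at hj
      obtain ⟨r, hr3, hr⟩ := F.full.child_mod (i := j) hj
      refine Pat.dead_of (c := 2 + r) (by omega) (show 2 + r < 6 by omega) ?_
      have : D.b y + D.δ j + D.E * j + (2 + r) = (D.b y + 2) + (D.δ j + D.E * j + r) := by ring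
      rw [this]
      exact Dvd.dvd.add hb hr
    · have h3 : D.E % 6 = 1 := by omega
      rw [Nat.mul_mod, h3]
      omega
    · have h3 : 11 ≤ D.E := by omega
      calc 11 ≤ D.E * 1 := by omega
        _ ≤ _ := Nat.mul_le_mul_left _ (by omega)

end Setup

end Dt

end Pool.Agent.H97.Pcp
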