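import Pool.Agent.H97.Pcp.Cert

/-!
# The certificate is correct
-/

set_option autoImplicit false

namespace Pool.Agent.H97.Pcp

open Finset Pool.Agent.H97.Tag

theorem pass_bits {A : Pat} (hA : A.Ok) {x : List Bool} {n : ℕ} {l : List ℕ}
    (hx : x.length = A.ν * n) (hl : l.Pairwise (· < ·)) (hln : ∀ k ∈ l, k < n)
    (h : ∀ i < n, x.getD (A.ν * i) false = decide (i ∈ l)) :
    A.pass x = blk A.Ol (n + A.E * l.length) (ixs A.E 0 l) ∧
      Good A.E (n + A.E * l.length) (ixs A.E 0 l) := by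
  constructor
  · unfold Pat.pass
    rw [rd_getD hA.pos _ x n hx, ← flat_bits hA.lt l n hl hln]
    apply List.flatMap_congr
    intro i hi
    rw [List.mem_range] at hi
    rw [h i hi]
  · refine ⟨ixs_sep 0 hl, ?_⟩
    intro p hp
    simpa using ixs_bound 0 hl hln p hp

/-- The offsets are increasing. -/
theorem Pat.δ_sorted {A : Pat} (hA : A.Ok) : ((List.range A.mt).map A.δ).Pairwise (· < ·) := by
  have h := (reads_flat (ν := A.ν) hA.pos hA.lt hA.sorted (n := A.E + 1) (ps := [0]) ⟨by simp, by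
    intro p hp
    rw [List.mem_singleton] at hp
    subst hp
    rw [Nat.zero_add]
    exact Nat.le_mul_of_pos_left _ hA.pos⟩).1
  simp only [List.flatMap_cons, List.flatMap_nil, List.append_nil] at h
  rw [Pat.reads_zero hA (dvd_zero _)] at h
  simpa using h

namespace Dt

namespace Setup

variable {D : Dt} {P : ℕ → List ℕ}

theorem wone_length (_F : D.Setup P) : D.wone.length = 5 * D.ε + 1 := by
  unfold wone
  rw [blk_length]
  rfl

theorem wone_getD (_F : D.Setup P) (i : ℕ) :
    D.wone.getD i false = decide (i < D.E + 1 ∧ i ∈ D.A.Ol) := by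
  unfold wone
  rw [blk_getD]
  apply decide_eq_decide.2
  simp

/-- The bounds for the offsets. -/
theorem δ_bound (F : D.Setup P) {j : ℕ} (hj : j < D.mt) : 2 * D.δ j ≤ D.ε := by
  rcases Nat.eq_zero_or_pos j with rfl | h
  · have : D.δ 0 = 0 := F.full.ok.zero
    rw [this]; omega
  · exact (F.full.del.lt_eps j h hj).2

theorem pow_mod5 (n : ℕ) : 6 ^ n % 5 = 1 := by
  rw [Nat.pow_mod]; simp

theorem W_mod5 (n : ℕ) : Wf 6 n % 5 = n % 5 := by
  induction n with
  | zero => rfl
  | succ n ih =>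
    rw [Wf_succ]
    have := pow_mod5 n
    omega

theorem sx_mod5 (F : D.Setup P) {x : ℕ} (hx : x < D.M) :
    (6 ^ (D.K - 1) * D.h x + D.tl x) % 5 = if P x = [] then 3 else 2 := by
  have h1 := F.full.del.hmod x
  have h2 : 6 ^ (D.K - 1) * D.h x % 5 = 0 := by rw [Nat.mul_mod, h1]; simp
  split_ifs with h
  · rw [F.special x hx h]; omega
  · rw [F.tl_normal hx h]
    have h3 := pow_mod5 (lam x - 1)
    omega

/-- The offsets are not divisible by `5`. -/
theorem δ_mod5 (F : D.Setup P) {l : ℕ} (hl1 : 1 ≤ l) (hl2 : l < D.mt) : D.δ l % 5 ≠ 0 := by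
  have hK := F.full.K8
  have hKm := F.full.plan.hKmod
  have hmt := F.full.mt_eq
  have hW := W_mod5 (D.K - 1)
  have hpK := pow_mod5 D.K
  obtain ⟨j, rfl⟩ : ∃ j, l = j + 1 := ⟨l - 1, by omega⟩
  by_cases h1 : j < D.m
  · rcases (F.full.plan.life_le j).lt_or_eq with hlt | heq
    · rw [F.full.del.dmod j h1 hlt]; norm_num
    · obtain ⟨hjN, _⟩ := (F.full.plan.life_eq j).1 heq
      have hr : j / D.N < D.T.length := Nat.div_lt_of_lt_mul hjN
      have h2 := F.full.del.real j hjN heq
      have h3 := F.sx_mod5 (F.full.clM _ hr)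
      have h4 := F.sx_mod5 (F.full.tgM _ hr)
      have h5 : P (clT D.T (j / D.N)) ≠ [] := by
        intro h6
        have h7 := F.cnt_eq (F.full.clM _ hr)
        rw [h6, List.length_nil] at h7
        unfold cnt at h7
        rw [List.take_length] at h7
        have h8 := List.eq_nil_of_length_eq_zero h7
        rw [List.filter_eq_nil_iff] at h8
        have h9 := h8 (D.T[j / D.N]) (List.getElem_mem hr)
        apply h9
        rw [decide_eq_true_eq]
        unfold clT
        rw [List.getD_eq_getElem _ _ hr]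
      rw [if_neg h5] at h3
      have h6 : 6 ^ D.K * (6 ^ (D.K - 1) * D.h (tgT D.T (j / D.N)) +
          D.tl (tgT D.T (j / D.N))) % 5 =
          (6 ^ (D.K - 1) * D.h (tgT D.T (j / D.N)) + D.tl (tgT D.T (j / D.N))) % 5 := by
        rw [Nat.mul_mod, hpK, Nat.one_mul, Nat.mod_mod]
      split_ifs at h4 <;> omega
  · obtain ⟨i, hi⟩ : ∃ i, j + 1 = D.m + 1 + i := ⟨j - D.m, by omega⟩
    have hi2 : i < D.mI := by omega
    rw [hi]
    rcases (F.full.plan.lifeI_le i).lt_or_eq with hlt | heq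
    · have := F.full.del.dmodI i hi2 hlt
      have h2 : D.δ (D.m + 1 + i) % 5 = 1 := this
      rw [h2]; norm_num
    · obtain ⟨hjN, _⟩ := (F.full.plan.lifeI_eq i).1 heq
      have hr : i / D.N < D.L := Nat.div_lt_of_lt_mul hjN
      have h2 := F.full.del.realI i hjN heq
      have h3 := F.sx_mod5 (F.full.tgIM _ hr)
      rw [if_neg (F.normalI _ hr)] at h3
      have h6 : 6 ^ D.K * (6 ^ (D.K - 1) * D.h (D.tgI (i / D.N)) + D.tl (D.tgI (i / D.N))) % 5 =
          (6 ^ (D.K - 1) * D.h (D.tgI (i / D.N)) + D.tl (D.tgI (i / D.N))) % 5 := by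
        rw [Nat.mul_mod, hpK, Nat.one_mul, Nat.mod_mod]
      have h7 : D.δ (D.m + 1 + i) + Wf 6 (D.K - 1) = 6 ^ D.K *
        (6 ^ (D.K - 1) * D.h (D.tgI (i / D.N)) + D.tl (D.tgI (i / D.N))) := h2
      omega

theorem chkW (F : D.Setup P) : ChkW D.wone := by
  have hε := F.full.del.epos
  refine ⟨?_, ?_, ?_, ?_⟩
  · rw [F.wone_length]; omega
  · rw [F.wone_getD, decide_eq_true_eq]
    exact ⟨by omega, List.mem_cons_self ..⟩
  · rw [F.wone_getD, decide_eq_false_iff_not, F.wone_length]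
    rintro ⟨_, h⟩
    rcases Pat.mem_Ol F.full.ok h with h | ⟨j, hj, h⟩
    · omega
    · have h1 := F.δ_bound hj
      have : D.A.ν * D.A.δ j = 6 * D.δ j := rfl
      rw [this] at h
      omega
  · intro i _ h h5
    rw [F.wone_getD, decide_eq_true_eq] at h
    rcases Pat.mem_Ol F.full.ok h.2 with h | ⟨j, hj, h⟩
    · omega
    · have : D.A.ν * D.A.δ j = 6 * D.δ j := rfl
      rw [this] at h
      rcases Nat.eq_zero_or_pos j with rfl | hj0
      · have : D.δ 0 = 0 := F.full.ok.zero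
        rw [h, this]
      · have := F.δ_mod5 hj0 hj
        omega

theorem chkC (F : D.Setup P) : ChkC D.cellL D.Lc := by
  intro y hy
  have hy' : y < D.M := by simpa [cellL] using hy
  have h2 : D.cellL.getD y [] = blk D.A.Ol D.Lc [D.c y] := by
    unfold cellL
    rw [List.getD_eq_getElem _ _ (by simpa using hy'), List.getElem_map, List.getElem_range]
  have hL := F.Lc_mod
  rw [h2]
  refine ⟨blk_length _ _ _, ?_⟩
  intro p hp h
  rw [blk_getD, decide_eq_false_iff_not]
  rintro ⟨_, q, hq, d, hd, rfl⟩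
  rw [List.mem_singleton] at hq
  subst hq
  have h3 : D.c y = 6 * D.b y := rfl
  rw [h3] at h
  rcases Pat.mem_Ol F.full.ok hd with rfl | ⟨j, hj, rfl⟩
  · omega
  · have : D.A.ν * D.A.δ j = 6 * D.δ j := rfl
    rw [this] at h
    omega

theorem iter_eq (t : ℕ) (x : List Bool) : (pass D.wone)^[t] x = (D.A.pass)^[t] x := by
  rw [D.pass_eq]

theorem chkN (F : D.Setup P) {d : ℕ} {tab : List (List ℕ)} {y : ℕ} (hy : y < D.M)
    (hP : P y ≠ []) (hprod : prod d tab y = P y) :
    ChkN d tab D.wone D.cellL D.K D.Lc y := by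
  have hK := F.full.K8
  have hL := F.Lc_mod
  unfold ChkN
  rw [hprod]
  refine ⟨?_, ?_, ?_, ?_, ?_⟩
  · intro x hx
    simpa [cellL] using F.bounded y hy x hx
  · intro t ht
    rw [iter_eq]
    rcases Nat.eq_zero_or_pos t with rfl | h0
    · rw [Function.iterate_zero, id, (F.gw_eq hy).1, blk_length]
      exact Nat.mul_mod_right _ _
    · obtain ⟨h1, h2⟩ := F.group_iter hy hP t h0 ht.le
      rw [h1, blk_length]
      exact Nat.mod_eq_zero_of_dvd (h2 ht)
  · rw [iter_eq]
    exact F.group_last hy hP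
  · rw [iter_eq]
    exact F.group_Zr hy hP le_rfl (by norm_num)
  · rw [iter_eq]
    exact F.group_Zr hy hP (by norm_num) le_rfl

theorem chkS (F : D.Setup P) {y : ℕ} (hy : y < D.M) (hP : P y = []) :
    ChkS D.wone D.cellL D.Lc y := by
  obtain ⟨h1, n, h2, h3, h4⟩ := F.kill_group hy hP
  unfold ChkS
  rw [D.pass_eq, h2]
  refine ⟨Nat.mod_eq_zero_of_dvd h1, ?_, ?_, ?_⟩
  · rw [List.length_replicate]; exact h3
  · rw [List.length_replicate]; exact h4
  · intro p hp
    rw [List.length_replicate] at hp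
    rw [List.getD_eq_getElem _ _ (by simpa using hp), List.getElem_replicate]

/-! ### The start -/

/-- The offsets. -/
def dl (D : Dt) : List ℕ := (List.range D.mt).map D.δ

/-- The positions of the blocks in the start. -/
def psI (D : Dt) : List ℕ := (List.range D.mt).map (fun j => D.δ j + D.E * j)

theorem dl_ixs (D : Dt) : ixs D.A.E 0 (dl D) = psI D := by
  unfold dl psI
  rw [Dat.ixs_map_range]
  apply List.map_congr_left
  intro i _
  rw [Nat.zero_add]
  rfl

theorem dl_length (D : Dt) : (dl D).length = D.mt := by simp [dl]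

theorem bits (F : D.Setup P) {x : List Bool} {n : ℕ} (hx : x.length = 6 * n) (hn : D.ε < 2 * n)
    (h : ∀ i < n, x.getD (6 * i) false = decide (i ∈ dl D)) :
    D.A.pass x = blk D.A.Ol (n + D.E * D.mt) (psI D) ∧
      Good D.A.E (n + D.E * D.mt) (psI D) := by
  have h1 := pass_bits (A := D.A) F.full.ok (x := x) (n := n) (l := dl D) hx
    (Pat.δ_sorted F.full.ok) (by
      intro k hk
      unfold dl at hk
      rw [List.mem_map] at hk
      obtain ⟨j, hj, rfl⟩ := hk
      rw [List.mem_range] at hj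
      have := F.δ_bound hj
      omega) h
  rw [dl_ixs, dl_length] at h1
  exact h1

theorem mem_dl {i : ℕ} : i ∈ dl D ↔ ∃ j < D.mt, i = D.δ j := by
  unfold dl
  rw [List.mem_map]
  constructor
  · rintro ⟨j, hj, rfl⟩
    exact ⟨j, List.mem_range.1 hj, rfl⟩
  · rintro ⟨j, hj, rfl⟩
    exact ⟨j, List.mem_range.2 hj, rfl⟩

theorem six_mem (F : D.Setup P) {i : ℕ} : 6 * i ∈ D.A.Ol ↔ i ∈ dl D := by
  rw [mem_dl]
  constructor
  · intro h
    rcases Pat.mem_Ol F.full.ok h with h | ⟨j, hj, h⟩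
    · omega
    · have : D.A.ν * D.A.δ j = 6 * D.δ j := rfl
      rw [this] at h
      exact ⟨j, hj, by omega⟩
  · rintro ⟨j, hj, rfl⟩
    exact Pat.δ_mem F.full.ok hj

/-- The word before the start. -/
theorem Vw_eq (F : D.Setup P) : Vw D.wone D.ε = blk D.A.Ol (6 * D.ε) (psI D) := by
  obtain ⟨e, he⟩ := F.full.ε_mod
  obtain ⟨z, hz⟩ := F.full.mt_mod
  unfold Vw
  rw [F.wone_length, D.pass_eq]
  have h1 : 6 * ((5 * D.ε + 1) / 6) = 6 * (30 * e - 1) := by omega
  rw [h1]
  have h2 : D.wone.take (6 * (30 * e - 1)) = blk D.A.Ol (6 * (30 * e - 1)) [0] := by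
    unfold wone
    apply blk_take
    show 6 * (30 * e - 1) ≤ 5 * D.ε + 1
    omega
  rw [h2]
  obtain ⟨h3, _⟩ := F.bits (x := blk D.A.Ol (6 * (30 * e - 1)) [0]) (n := 30 * e - 1)
    (blk_length _ _ _) (by omega) (by
      intro i hi
      rw [blk_getD]
      apply decide_eq_decide.2
      constructor
      · rintro ⟨_, p, hp, d, hd, h⟩
        rw [List.mem_singleton] at hp
        subst hp
        rw [Nat.zero_add] at h
        rw [← F.six_mem, h]
        exact hd
      · intro h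
        refine ⟨by omega, 0, by simp, 6 * i, F.six_mem.2 h, by omega⟩)
  rw [h3]
  apply blk_take
  have h4 : D.E * 7 ≤ D.E * D.mt := Nat.mul_le_mul_left _ (by omega)
  have h5 : D.E * 7 = 35 * D.ε := by unfold Dt.E; ring
  omega

theorem psI_mod (F : D.Setup P) {j : ℕ} (hj : j < D.mt) :
    j = 0 ∨ (j ≤ D.m ∧ 6 ∣ D.δ j + D.E * j + 3) ∨
      ∃ i < D.mI, j = D.m + 1 + i ∧ 6 ∣ D.δ j + D.E * j + 1 := by
  have hmt := F.full.mt_eq
  rcases Nat.eq_zero_or_pos j with h | h
  · exact Or.inl h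
  · right
    obtain ⟨j, rfl⟩ : ∃ j', j = j' + 1 := ⟨j - 1, by omega⟩
    by_cases h1 : j < D.m
    · left
      exact ⟨h1, F.full.δ_mod h1⟩
    · right
      obtain ⟨i, hi⟩ : ∃ i, j + 1 = D.m + 1 + i := ⟨j - D.m, by omega⟩
      refine ⟨i, by omega, hi, ?_⟩
      rw [hi]
      exact F.full.δI_mod (by omega)

/-- The next word. -/
theorem V1_eq (F : D.Setup P) :
    D.A.pass (Vw D.wone D.ε) = blk D.A.Ol (D.ε + D.E * D.mt) (psI D) ∧
      Good D.A.E (D.ε + D.E * D.mt) (psI D) := by
  have hε := F.full.del.epos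
  rw [F.Vw_eq]
  apply F.bits (blk_length _ _ _) (by omega)
  intro i hi
  rw [blk_getD]
  apply decide_eq_decide.2
  constructor
  · rintro ⟨_, p, hp, d, hd, h⟩
    unfold psI at hp
    rw [List.mem_map] at hp
    obtain ⟨j, hj, rfl⟩ := hp
    rw [List.mem_range] at hj
    have hmod := F.psI_mod hj
    have hE : D.E = 5 * D.ε := rfl
    rcases Nat.lt_or_ge j 2 with hj2 | hj2
    · rcases hmod with h0 | ⟨h0, h1⟩ | ⟨i', _, h0, _⟩
      · subst h0
        have : D.δ 0 = 0 := F.full.ok.zero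
        rw [this] at h
        rw [← F.six_mem]
        have h2 : 6 * i = d := by omega
        rw [h2]
        exact hd
      · exfalso
        rcases Pat.mem_Ol F.full.ok hd with rfl | ⟨l, _, rfl⟩
        · omega
        · have : D.A.ν * D.A.δ l = 6 * D.δ l := rfl
          rw [this] at h
          omega
      · exfalso
        have := F.full.m_pos
        omega
    · exfalso
      have : D.E * 2 ≤ D.E * j := Nat.mul_le_mul_left _ hj2
      omega
  · intro h
    refine ⟨by omega, 0, ?_, 6 * i, F.six_mem.2 h, by omega⟩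
    unfold psI
    rw [List.mem_map]
    refine ⟨0, ?_, ?_⟩
    · rw [List.mem_range]
      obtain ⟨z, hz⟩ := F.full.mt_mod
      omega
    · have : D.δ 0 = 0 := F.full.ok.zero
      rw [this]; simp

/-- The start word with complete blocks. -/
def TI (D : Dt) : List Bool := blk D.A.Ol (D.GI.Ls D.A (D.E * D.m) 1) (D.GI.pss D.A 1 [] [])

theorem pssI_one (F : D.Setup P) : D.GI.pss D.A 1 [] [] =
    (List.range D.mI).map (fun i => D.δ (D.m + 1 + i) + (5 * D.m - 1) * D.ε + D.E * i) := by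
  rw [Grp.pss_one F.full.condI]
  simp only [List.nil_append, List.append_nil]
  rfl

theorem LsI_one (F : D.Setup P) : D.GI.Ls D.A (D.E * D.m) 1 = D.E * (D.m + D.mI) := by
  rw [Grp.Ls_one F.full.condI]
  show D.E * D.m + D.E * D.mI = _
  ring

theorem shift (F : D.Setup P) (i : ℕ) :
    D.δ (D.m + 1 + i) + (5 * D.m - 1) * D.ε + D.E * i + 6 * D.ε =
      D.δ (D.m + 1 + i) + D.E * (D.m + 1 + i) := by
  have := F.full.m_pos
  obtain ⟨m, hm⟩ : ∃ m, D.m = m + 1 := ⟨D.m - 1, by omega⟩
  have e : 5 * (m + 1) - 1 = 5 * m + 4 := by omega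
  rw [hm, e]
  unfold Dt.E
  ring

theorem good_TI (F : D.Setup P) :
    Good D.A.E (D.GI.Ls D.A (D.E * D.m) 1) (D.GI.pss D.A 1 [] []) := by
  obtain ⟨_, h1, h2⟩ := F.V1_eq
  have hmt := F.full.mt_eq
  rw [F.pssI_one, F.LsI_one]
  unfold psI at h1 h2
  rw [List.pairwise_map, List.pairwise_iff_getElem] at h1
  have hlast : D.ε + D.E * D.mt = D.E * (D.m + D.mI) + 6 * D.ε := by
    rw [hmt]; unfold Dt.E; ring
  constructor
  · rw [List.pairwise_map, List.pairwise_iff_getElem]
    intro i j hi hj hij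
    rw [List.length_range] at hi hj
    rw [List.getElem_range, List.getElem_range]
    have h3 := h1 (D.m + 1 + i) (D.m + 1 + j) (by rw [List.length_range]; omega)
      (by rw [List.length_range]; omega) (by omega)
    rw [List.getElem_range, List.getElem_range, ← F.shift, ← F.shift] at h3
    omega
  · intro p hp
    rw [List.mem_map] at hp
    obtain ⟨i, hi, rfl⟩ := hp
    rw [List.mem_range] at hi
    have h3 := h2 (D.δ (D.m + 1 + i) + D.E * (D.m + 1 + i)) (by
      rw [List.mem_map]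
      exact ⟨D.m + 1 + i, by rw [List.mem_range]; omega, rfl⟩)
    rw [← F.shift, hlast] at h3
    omega

theorem Tw_length (F : D.Setup P) : (Tw D.wone D.ε).length = D.E * (D.m + D.mI) := by
  have hmt := F.full.mt_eq
  unfold Tw
  rw [D.pass_eq, F.V1_eq.1, List.length_drop, blk_length, hmt]
  unfold Dt.E
  have : D.ε + 5 * D.ε * (D.m + 1 + D.mI) = 5 * D.ε * (D.m + D.mI) + 6 * D.ε := by ring
  omega

theorem six_len (F : D.Setup P) : ∃ n, D.E * (D.m + D.mI) = 6 * n := by
  obtain ⟨z, hz⟩ := F.full.mt_mod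
  have hmt := F.full.mt_eq
  refine ⟨D.E * (6 * z + 1), ?_⟩
  have : D.m + D.mI = 6 * (6 * z + 1) := by omega
  rw [this]; ring

theorem pass_Tw (F : D.Setup P) : D.A.pass (Tw D.wone D.ε) = D.A.pass (TI D) := by
  obtain ⟨n, hn⟩ := F.six_len
  have hmt := F.full.mt_eq
  have hlast : D.ε + D.E * D.mt = D.E * (D.m + D.mI) + 6 * D.ε := by
    rw [hmt]; unfold Dt.E; ring
  unfold Pat.pass
  apply rd_congr (k := n) (show 0 < 6 by norm_num)
  · rw [F.Tw_length, hn]
  · unfold TI
    rw [blk_length, F.LsI_one, hn]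
  · intro i hi
    have e1 : (Tw D.wone D.ε).getD (6 * i) false =
        (blk D.A.Ol (D.ε + D.E * D.mt) (psI D)).getD (6 * D.ε + 6 * i) false := by
      unfold Tw
      rw [D.pass_eq, F.V1_eq.1, List.getD_eq_getElem?_getD, List.getD_eq_getElem?_getD,
        List.getElem?_drop]
    rw [e1]
    unfold TI
    rw [blk_getD, blk_getD, F.LsI_one, F.pssI_one]
    apply decide_eq_decide.2
    constructor
    · rintro ⟨_, p, hp, d, hd, h⟩
      refine ⟨by omega, ?_⟩
      unfold psI at hp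
      rw [List.mem_map] at hp
      obtain ⟨j, hj, rfl⟩ := hp
      rw [List.mem_range] at hj
      rcases F.psI_mod hj with h0 | ⟨_, h1⟩ | ⟨i', hi', h0, h1⟩
      · exfalso
        subst h0
        have : D.δ 0 = 0 := F.full.ok.zero
        rw [this] at h
        rcases Pat.mem_Ol F.full.ok hd with rfl | ⟨l, hl, rfl⟩
        · omega
        · have h2 := F.δ_bound hl
          have h3 : D.A.ν * D.A.δ l = 6 * D.δ l := rfl
          have hε := F.full.del.epos
          rw [h3] at h
          omega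
      · exfalso
        rcases Pat.mem_Ol F.full.ok hd with rfl | ⟨l, _, rfl⟩
        · omega
        · have : D.A.ν * D.A.δ l = 6 * D.δ l := rfl
          rw [this] at h
          omega
      · refine ⟨D.δ (D.m + 1 + i') + (5 * D.m - 1) * D.ε + D.E * i', ?_, d, hd, ?_⟩
        · rw [List.mem_map]
          exact ⟨i', List.mem_range.2 hi', rfl⟩
        · have := F.shift i'
          rw [h0] at h
          omega
    · rintro ⟨_, p, hp, d, hd, h⟩
      refine ⟨by omega, ?_⟩
      rw [List.mem_map] at hp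
      obtain ⟨i', hi', rfl⟩ := hp
      rw [List.mem_range] at hi'
      refine ⟨D.δ (D.m + 1 + i') + D.E * (D.m + 1 + i'), ?_, d, hd, ?_⟩
      · unfold psI
        rw [List.mem_map]
        exact ⟨D.m + 1 + i', List.mem_range.2 (by omega), rfl⟩
      · have := F.shift i'
        omega

theorem iter_TI (F : D.Setup P) {t : ℕ} (ht : t < D.K) :
    (D.A.pass)^[t] (TI D) = blk D.A.Ol (D.GI.Ls D.A (D.E * D.m) (t + 1))
      (D.GI.pss D.A (t + 1) [] []) ∧ (t + 1 < D.K → 6 ∣ D.GI.Ls D.A (D.E * D.m) (t + 1)) := by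
  obtain ⟨h1, _, h3⟩ := Grp.stages (B := D.E * D.m) (P₀ := []) (P := []) F.full.ok F.full.condI
    (by simp) (by simp) (fun s _ hs => F.full.SmI_dvd hs) F.good_TI t ht
  exact ⟨h1, h3⟩

theorem iter_Tw (F : D.Setup P) (t : ℕ) :
    (D.A.pass)^[t + 1] (Tw D.wone D.ε) = (D.A.pass)^[t + 1] (TI D) := by
  rw [Function.iterate_succ_apply, Function.iterate_succ_apply, F.pass_Tw]

theorem chkT (F : D.Setup P) : ChkT D.vI D.wone D.cellL D.ε (D.K - 1) := by
  have hK := F.full.K8
  have hmt := F.full.mt_eq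
  obtain ⟨n, hn⟩ := F.six_len
  have h67 : 6 * D.ε ≤ D.ε + D.E * D.mt := by
    rw [hmt]; unfold Dt.E
    have : D.ε + 5 * D.ε * (D.m + 1 + D.mI) = 5 * D.ε * (D.m + D.mI) + 6 * D.ε := by ring
    omega
  refine ⟨?_, ?_, ?_, ?_, ?_⟩
  · rw [F.Vw_eq, blk_length]
  · rw [D.pass_eq, F.V1_eq.1, F.Vw_eq]
    exact blk_take _ _ _ h67
  · intro t ht
    rw [iter_eq]
    rcases Nat.eq_zero_or_pos t with rfl | h0
    · rw [Function.iterate_zero, id, F.Tw_length, hn]
      exact Nat.mul_mod_right _ _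
    · obtain ⟨t, rfl⟩ : ∃ t', t = t' + 1 := ⟨t - 1, by omega⟩
      obtain ⟨h1, h2⟩ := F.iter_TI (t := t + 1) (by omega)
      rw [F.iter_Tw, h1, blk_length]
      exact Nat.mod_eq_zero_of_dvd (h2 (by omega))
  · rw [iter_eq]
    have hv : ∀ y ∈ D.vI, y < D.M := by
      intro y hy
      unfold vI at hy
      rw [List.mem_map] at hy
      obtain ⟨r, hr, rfl⟩ := hy
      exact F.full.tgIM r (List.mem_range.1 hr)
    obtain ⟨t, ht⟩ : ∃ t, D.K - 1 = t + 1 := ⟨D.K - 2, by omega⟩
    have h3 : D.K - 1 + 1 = D.K := by omega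
    obtain ⟨h1, _⟩ := F.iter_TI (t := D.K - 1) (by omega)
    rw [h3] at h1
    rw [ht, F.iter_Tw, ← ht, h1, F.cellsW_eq hv, pss_big _ _ (by omega), F.full.LsI_last]
    have h4 : D.GI.m = D.mI := rfl
    rw [h4, F.full.finalI']
    unfold vI
    rw [List.length_map, List.length_range, List.map_map]
    rfl
  · intro y hy
    unfold vI at hy
    rw [List.mem_map] at hy
    obtain ⟨r, hr, rfl⟩ := hy
    simpa [cellL] using F.full.tgIM r (List.mem_range.1 hr)

/-- **The certificate is correct.** -/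
theorem chk (F : D.Setup P) {d : ℕ} {tab : List (List ℕ)} (hprod : ∀ y < D.M, prod d tab y = P y) :
    Chk d tab D.vI D.cert := by
  have hK := F.full.K8
  have hL := F.Lc_mod
  have hM : D.cellL.length = D.M := by simp [cellL]
  refine ⟨F.chkW, F.chkC, ⟨?_, ?_, ?_, ?_⟩, ?_, ?_, F.chkT⟩
  · show 3 * D.Lc % 6 = 0
    omega
  · show D.Lc % 5 = 0
    unfold Lc Dt.E
    have : 2 * D.R' * (5 * D.ε) = 5 * (2 * D.R' * D.ε) := by ring
    omega
  · show 0 < D.Lc
    omega
  · show 4 ≤ D.K
    omega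
  · intro y hy hne
    have hy' : y < D.M := hM ▸ hy
    rw [hprod y hy'] at hne
    exact F.chkN hy' hne (hprod y hy')
  · intro y hy hne
    have hy' : y < D.M := hM ▸ hy
    rw [hprod y hy'] at hne
    exact F.chkS hy' hne

end Setup

end Dt

end Pool.Agent.H97.Pcp
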