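import Pool.Agent.H97.Tag.Main

/-!
# The Post correspondence problem with four pairs: definitions

Plan: `PCP(4)` is undecidable.  For a word `w1 = u ++ [false]` the four pairs `hp ν`, `gp ν u` have a
solution if and only if there is a nonempty word `s` of length divisible by `ν` with
`rd ν (rule w1) 0 s = s` (a complete history of the tag system with productions `0 ↦ 0`, `1 ↦ w1`,
which also produces its own initial word).
-/

set_option autoImplicit false

namespace Pool.Agent.H97.Pcp

open Pool.Agent.H97.Tag

/-- One sweep with deletion number `6` over a word. -/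
def pass (w1 x : List Bool) : List Bool := rd 6 (rule w1) 0 x

/-- There is a nonempty word which is its own image. -/
def Fix (ν : ℕ) (w1 : List Bool) : Prop :=
  ∃ s : List Bool, s ≠ [] ∧ ν ∣ s.length ∧ rd ν (rule w1) 0 s = s

/-- The code of a letter: `0` is `1 0 ^ ν`, and `1` is `1`. -/
def cod (ν : ℕ) (b : Bool) : List Bool := bif b then [true] else true :: List.replicate ν false

/-- The first words of the four pairs. -/
def hp (ν : ℕ) (i : Fin 4) : List Bool :=
  if i.val < 2 then true :: List.replicate ν false else [true]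

/-- The second words of the four pairs. -/
def gp (ν : ℕ) (u : List Bool) (i : Fin 4) : List Bool :=
  if i.val = 0 then [true, false]
  else if i.val = 2 then u.flatMap (cod ν) ++ [true, false]
  else [false]

/-! ### Certificates -/

/-- The word of a list of letters, if the letter `y` has the word `C[y]`. -/
def cellsW (C : List (List Bool)) (v : List ℕ) : List Bool := v.flatMap (fun y => C.getD y [])

/-- The word of a group of three letters, with two empty cells. -/
def gw (C : List (List Bool)) (Λ y : ℕ) : List Bool := C.getD y [] ++ List.replicate (2 * Λ) false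

/-- The productions of the letters with positions. -/
def prod (d : ℕ) (tab : List (List ℕ)) (y : ℕ) : List ℕ := tab.getD (y % d) []

/-- The word before the start. -/
def Vw (w1 : List Bool) (k : ℕ) : List Bool :=
  (pass w1 (w1.take (6 * (w1.length / 6)))).take (6 * k)

/-- The start word. -/
def Tw (w1 : List Bool) (k : ℕ) : List Bool := (pass w1 (Vw w1 k)).drop (6 * k)

/-- A certificate: the production `w1`, the words `C` of the letters, the number `K` of sweeps in a
cycle, the length `Λ` of a cell, the numbers `k` and `K'` for the start. -/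
abbrev Cert := (List Bool × List (List Bool)) × (ℕ × ℕ × ℕ × ℕ)

/-- The letters at positions `r` modulo `6` are `false`. -/
def Zr (r : ℕ) (x : List Bool) : Prop := ∀ p < x.length, p % 6 = r → x.getD p false = false

/-- The conditions on a letter `y` with a nonempty production. -/
def ChkN (d : ℕ) (tab : List (List ℕ)) (w1 : List Bool) (C : List (List Bool)) (K Λ y : ℕ) : Prop :=
  (∀ x ∈ prod d tab y, x < C.length) ∧
  (∀ t < K, ((pass w1)^[t] (gw C Λ y)).length % 6 = 0) ∧
  (pass w1)^[K] (gw C Λ y) = cellsW C (prod d tab y) ∧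
  Zr 1 ((pass w1)^[2] (gw C Λ y)) ∧
  Zr 1 ((pass w1)^[3] (gw C Λ y))

/-- The conditions on a letter `y` with an empty production. -/
def ChkS (w1 : List Bool) (C : List (List Bool)) (Λ y : ℕ) : Prop :=
  (pass w1 (gw C Λ y)).length % 6 = 0 ∧
  (pass w1 (pass w1 (gw C Λ y))).length % 6 = 5 ∧
  11 ≤ (pass w1 (pass w1 (gw C Λ y))).length ∧
  ∀ p < (pass w1 (pass w1 (gw C Λ y))).length,
    (pass w1 (pass w1 (gw C Λ y))).getD p false = false

/-- The conditions on the cells. -/
def ChkC (C : List (List Bool)) (Λ : ℕ) : Prop :=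
  ∀ y < C.length, (C.getD y []).length = Λ ∧
    ∀ p < Λ, ((Λ + p) % 6 = 0 ∨ (2 * Λ + p) % 6 = 0) → (C.getD y []).getD p false = false

/-- The conditions on the production. -/
def ChkW (w1 : List Bool) : Prop :=
  w1.length % 5 = 1 ∧ w1.getD 0 false = true ∧ w1.getD (w1.length - 1) false = false ∧
  ∀ i < w1.length, w1.getD i false = true → i % 5 = 0 → i = 0

/-- The conditions on the start. -/
def ChkT (v : List ℕ) (w1 : List Bool) (C : List (List Bool)) (k K' : ℕ) : Prop :=
  (Vw w1 k).length = 6 * k ∧ (pass w1 (Vw w1 k)).take (6 * k) = Vw w1 k ∧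
  (∀ t < K', ((pass w1)^[t] (Tw w1 k)).length % 6 = 0) ∧
  (pass w1)^[K'] (Tw w1 k) = cellsW C v ∧ ∀ y ∈ v, y < C.length

/-- The certificate `c` is correct for the initial word `v`. -/
def Chk (d : ℕ) (tab : List (List ℕ)) (v : List ℕ) (c : Cert) : Prop :=
  ChkW c.1.1 ∧ ChkC c.1.2 c.2.2.1 ∧
  ((3 * c.2.2.1) % 6 = 0 ∧ c.2.2.1 % 5 = 0 ∧ 0 < c.2.2.1 ∧ 4 ≤ c.2.1) ∧
  (∀ y < c.1.2.length, prod d tab y ≠ [] → ChkN d tab c.1.1 c.1.2 c.2.1 c.2.2.1 y) ∧
  (∀ y < c.1.2.length, prod d tab y = [] → ChkS c.1.1 c.1.2 c.2.2.1 y) ∧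
  ChkT v c.1.1 c.1.2 c.2.2.2.1 c.2.2.2.2

end Pool.Agent.H97.Pcp
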