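import Pool.Agent.H97.Pcp.Plan2
import Pool.Agent.H97.Tag.Delta

/-!
# Existence of the offsets of the blocks
-/

set_option autoImplicit false

namespace Pool.Agent.H97.Pcp

open Finset Pool.Agent.H97.Tag

/-- Main terms of the offsets of real blocks. -/
def bN (κ C G V : ℤ) (tl : ℕ → ℤ) (x a : ℕ) : ℤ :=
  6 * κ * (κ * (C + (x + 1) * G) + tl x) - (κ * (C + (a + 1) * G) + tl a) - V

/-- Main terms of the offsets of real blocks of the start. -/
def bI (κ C G V : ℤ) (tl : ℕ → ℤ) (y : ℕ) : ℤ := 6 * κ * (κ * (C + (y + 1) * G) + tl y) - V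

theorem gap1 {κ C G V N : ℤ} {tl : ℕ → ℤ} {M : ℕ} (hκ : (M : ℤ) + 2 ≤ κ) (hG : G = 120 * N)
    (hN : 0 < N) (htl : ∀ x < M, 0 ≤ tl x ∧ tl x ≤ N) {x a x' a' : ℕ} (hx : x < M) (hx' : x' < M)
    (ha : a < M) (ha' : a' < M) (h : x < x' ∨ (x = x' ∧ a' < a)) :
    bN κ C G V tl x a + 60 * κ * N ≤ bN κ C G V tl x' a' := by
  have hκ0 : 0 < κ := by omega
  have t1 := htl x hx
  have t2 := htl x' hx'
  have t3 := htl a ha
  have t4 := htl a' ha'
  have hκN : N ≤ κ * N := by nlinarith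
  unfold bN
  rcases h with h | ⟨rfl, h⟩
  · have h1 : (x : ℤ) + 1 ≤ x' := by omega
    have h2 : 6 * κ * (κ * (1 * G)) ≤ 6 * κ * (κ * (((x' : ℤ) - x) * G)) := by
      apply mul_le_mul_of_nonneg_left _ (by positivity)
      apply mul_le_mul_of_nonneg_left _ hκ0.le
      apply mul_le_mul_of_nonneg_right _ (by rw [hG]; positivity)
      omega
    have h3 : κ * (((a' : ℤ) - a) * G) ≤ κ * (κ * G) := by
      apply mul_le_mul_of_nonneg_left _ hκ0.le
      apply mul_le_mul_of_nonneg_right _ (by rw [hG]; positivity)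
      omega
    have h4 : 6 * κ * (tl x - tl x') ≤ 6 * κ * N := by
      apply mul_le_mul_of_nonneg_left _ (by positivity)
      omega
    have h5 : κ * (1 * G) ≤ κ * (κ * G) := by
      apply mul_le_mul_of_nonneg_left _ hκ0.le
      apply mul_le_mul_of_nonneg_right _ (by rw [hG]; positivity)
      omega
    rw [hG] at *
    have h6 : tl a' - tl a ≤ κ * N := by omega
    have h7 : 0 ≤ κ * N := by positivity
    have e : 6 * κ * (κ * (C + (↑x' + 1) * (120 * N)) + tl x') -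
        (κ * (C + (↑a' + 1) * (120 * N)) + tl a') - V -
        (6 * κ * (κ * (C + (↑x + 1) * (120 * N)) + tl x) -
        (κ * (C + (↑a + 1) * (120 * N)) + tl a) - V) =
        6 * κ * (κ * (((x' : ℤ) - x) * (120 * N))) - 6 * κ * (tl x - tl x') -
        κ * (((a' : ℤ) - a) * (120 * N)) - (tl a' - tl a) := by ring
    have h8 : κ * (κ * (120 * N)) = 120 * (κ * (κ * N)) := by ring
    have h9 : 6 * κ * (κ * (1 * (120 * N))) = 720 * (κ * (κ * N)) := by ring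
    have h10 : κ * (1 * (120 * N)) = 120 * (κ * N) := by ring
    have h11 : 60 * κ * N = 60 * (κ * N) := by ring
    have h12 : 6 * κ * N = 6 * (κ * N) := by ring
    linarith
  · have h1 : (a' : ℤ) + 1 ≤ a := by omega
    have h2 : κ * (1 * G) ≤ κ * (((a : ℤ) - a') * G) := by
      apply mul_le_mul_of_nonneg_left _ hκ0.le
      apply mul_le_mul_of_nonneg_right _ (by rw [hG]; positivity)
      omega
    rw [hG] at *
    have h10 : κ * (1 * (120 * N)) = 120 * (κ * N) := by ring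
    have h11 : 60 * κ * N = 60 * (κ * N) := by ring
    have e : 6 * κ * (κ * (C + (↑x + 1) * (120 * N)) + tl x) -
        (κ * (C + (↑a' + 1) * (120 * N)) + tl a') - V -
        (6 * κ * (κ * (C + (↑x + 1) * (120 * N)) + tl x) -
        (κ * (C + (↑a + 1) * (120 * N)) + tl a) - V) =
        κ * (((a : ℤ) - a') * (120 * N)) + (tl a - tl a') := by ring
    linarith

theorem gap3 {κ C G V N : ℤ} {tl : ℕ → ℤ} {M : ℕ} (hκ : (M : ℤ) + 2 ≤ κ) (hG : G = 120 * N)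
    (hN : 0 < N) (htl : ∀ x < M, 0 ≤ tl x ∧ tl x ≤ N) {x x' : ℕ} (hx : x < M) (hx' : x' < M)
    (h : x < x') : bI κ C G V tl x + 60 * κ * N ≤ bI κ C G V tl x' := by
  have hκ0 : 0 < κ := by omega
  have t1 := htl x hx
  have t2 := htl x' hx'
  unfold bI
  have h1 : (x : ℤ) + 1 ≤ x' := by omega
  have h2 : 6 * κ * (κ * (1 * G)) ≤ 6 * κ * (κ * (((x' : ℤ) - x) * G)) := by
    apply mul_le_mul_of_nonneg_left _ (by positivity)
    apply mul_le_mul_of_nonneg_left _ hκ0.le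
    apply mul_le_mul_of_nonneg_right _ (by rw [hG]; positivity)
    omega
  have h4 : 6 * κ * (tl x - tl x') ≤ 6 * κ * N := by
    apply mul_le_mul_of_nonneg_left _ (by positivity)
    omega
  rw [hG] at *
  have h5 : κ * (1 * N) ≤ κ * (κ * N) := by
    apply mul_le_mul_of_nonneg_left _ hκ0.le
    apply mul_le_mul_of_nonneg_right _ hN.le
    omega
  have h9 : 6 * κ * (κ * (1 * (120 * N))) = 720 * (κ * (κ * N)) := by ring
  have h10 : κ * (1 * N) = κ * N := by ring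
  have h11 : 60 * κ * N = 60 * (κ * N) := by ring
  have h12 : 6 * κ * N = 6 * (κ * N) := by ring
  have h7 : 0 ≤ κ * N := by positivity
  have e : 6 * κ * (κ * (C + (↑x' + 1) * (120 * N)) + tl x') - V -
      (6 * κ * (κ * (C + (↑x + 1) * (120 * N)) + tl x) - V) =
      6 * κ * (κ * (((x' : ℤ) - x) * (120 * N))) - 6 * κ * (tl x - tl x') := by ring
  linarith

theorem gap2 {κ C G V N : ℤ} {tl : ℕ → ℤ} {M m : ℕ} (hκ : (M : ℤ) + 2 ≤ κ) (hG : G = 120 * N)
    (hN : 0 < N) (hC : C = 5 * (6 * κ * ((M + 1) * G) + 60 * (m + N + 1) + 6 * N))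
    (htl : ∀ x < M, 0 ≤ tl x ∧ tl x ≤ N) {x a y : ℕ} (hx : x < M) (ha : a < M) (hy : y < M) :
    bN κ C G V tl x a + 60 * κ * (m + N + 1) ≤ bI κ C G V tl y := by
  have hκ0 : 0 < κ := by omega
  have t1 := htl x hx
  have t2 := htl y hy
  have t3 := htl a ha
  unfold bN bI
  have h2 : 6 * κ * (κ * (((x : ℤ) - y) * G)) ≤ 6 * κ * (κ * ((M + 1) * G)) := by
    apply mul_le_mul_of_nonneg_left _ (by positivity)
    apply mul_le_mul_of_nonneg_left _ hκ0.le
    apply mul_le_mul_of_nonneg_right _ (by rw [hG]; positivity)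
    omega
  have h4 : 6 * κ * (tl x - tl y) ≤ 6 * κ * N := by
    apply mul_le_mul_of_nonneg_left _ (by positivity)
    omega
  have h5 : 0 ≤ κ * (((a : ℤ) + 1) * G) := by rw [hG]; positivity
  have h6 : 0 ≤ κ * (κ * ((M + 1) * G)) := by rw [hG]; positivity
  have h7 : 0 ≤ κ * N := by positivity
  have h8 : 0 ≤ κ * (m + N + 1) := by positivity
  have e1 : κ * C = 30 * (κ * (κ * ((M + 1) * G))) + 300 * (κ * (m + N + 1)) + 30 * (κ * N) := by
    rw [hC]; ring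
  have e2 : 6 * κ * (κ * ((↑M + 1) * G)) = 6 * (κ * (κ * ((↑M + 1) * G))) := by ring
  have e3 : 6 * κ * N = 6 * (κ * N) := by ring
  have e4 : 60 * κ * (↑m + N + 1) = 60 * (κ * (↑m + N + 1)) := by ring
  have e : 6 * κ * (κ * (C + (↑y + 1) * G) + tl y) - V -
      (6 * κ * (κ * (C + (↑x + 1) * G) + tl x) - (κ * (C + (↑a + 1) * G) + tl a) - V) =
      κ * C + κ * (((a : ℤ) + 1) * G) + tl a - 6 * κ * (κ * (((x : ℤ) - y) * G)) -
        6 * κ * (tl x - tl y) := by ring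
  linarith

/-- The properties of the offsets. -/
structure IsDel (R M L K N s sI : ℕ) (T : List (ℕ × ℕ)) (life lifeI tl tgI : ℕ → ℕ)
    (ε : ℕ) (h δ : ℕ → ℕ) : Prop where
  ok : (⟨6, 5 * ε, nt 6 N M L T, δ⟩ : Pat).Ok
  eps : ∃ e, ε + 1 = 6 ^ K * e
  epos : 1 ≤ ε
  lt_eps : ∀ l, 1 ≤ l → l < nt 6 N M L T → 1 ≤ δ l ∧ 2 * δ l ≤ ε
  hmod : ∀ x, h x % 5 = 0
  cell : ∀ y < M, 6 * (4 * ε + (6 ^ (K - 1) * h y + tl y)) + 5 * ε + 1 ≤ R * (5 * ε)
  real : ∀ j < N * T.length, life j = K →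
    δ (j + 1) + (6 ^ (K - 1) * h (clT T (j / N)) + tl (clT T (j / N))) + Wf 6 (K - 1) =
      6 ^ K * (6 ^ (K - 1) * h (tgT T (j / N)) + tl (tgT T (j / N)))
  dummy : ∀ j < nm 6 N M T, life j < K → 6 ^ life j ∣
    (4 * ε + (6 ^ (K - 1) * h (clf N M T j) + tl (clf N M T j))) + δ (j + 1) + 5 * ε +
      Wf 6 (life j) + 5 * ε * (lgrp (nm 6 N M T) (clf N M T) life δ (clf N M T j)).pw
        ⟨6, 5 * ε, nt 6 N M L T, δ⟩ K j + 6 ^ (life j - 1)
  dmod : ∀ j < nm 6 N M T, life j < K → δ (j + 1) % 5 = 1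
  realI : ∀ i < N * L, lifeI i = K →
    δ (nm 6 N M T + 1 + i) + Wf 6 (K - 1) = 6 ^ K * (6 ^ (K - 1) * h (tgI (i / N)) + tl (tgI (i / N)))
  dummyI : ∀ i < nI 6 N M L, lifeI i < K → 6 ^ lifeI i ∣
    δ (nm 6 N M T + 1 + i) + (5 * nm 6 N M T - 1) * ε + Wf 6 (lifeI i) +
      5 * ε * (igrp (nI 6 N M L) lifeI δ).pw ⟨6, 5 * ε, nt 6 N M L T, δ⟩ K i + 6 ^ (lifeI i - 1)
  dmodI : ∀ i < nI 6 N M L, lifeI i < K → δ (nm 6 N M T + 1 + i) % 5 = 1

end Pool.Agent.H97.Pcp
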