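import Pool.Agent.H97.Pcp.Delta

/-!
# Existence of the offsets of the blocks (continued)
-/

set_option autoImplicit false

namespace Pool.Agent.H97.Pcp

open Finset Pool.Agent.H97.Tag

/-- Bounds for the main terms. -/
theorem bN_bounds {κ C G V N : ℤ} {tl : ℕ → ℤ} {M m : ℕ} (hκ : (M : ℤ) + 2 ≤ κ) (hG : G = 120 * N)
    (hN : 0 < N) (hC : C = 5 * (6 * κ * ((M + 1) * G) + 60 * (m + N + 1) + 6 * N))
    (hV : 0 ≤ V ∧ V ≤ κ)
    (htl : ∀ x < M, 0 ≤ tl x ∧ tl x ≤ N) {x a : ℕ} (hx : x < M) (ha : a < M) :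
    1 + 60 * κ * (m + N) ≤ bN κ C G V tl x a ∧
    bN κ C G V tl x a ≤ 6 * κ * (κ * (C + (M + 1) * G) + N) := by
  have hκ0 : 0 < κ := by omega
  have hκ2 : 2 ≤ κ := by omega
  have t1 := htl x hx
  have t3 := htl a ha
  have hC0 : 0 ≤ C := by rw [hC, hG]; positivity
  have a1 : 0 ≤ κ * (((x : ℤ) + 1) * G) := by rw [hG]; positivity
  have a2 : κ * (((a : ℤ) + 1) * G) ≤ κ * ((M + 1) * G) := by
    apply mul_le_mul_of_nonneg_left _ hκ0.le
    apply mul_le_mul_of_nonneg_right _ (by rw [hG]; positivity)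
    omega
  have a3 : κ * (((x : ℤ) + 1) * G) ≤ κ * ((M + 1) * G) := by
    apply mul_le_mul_of_nonneg_left _ hκ0.le
    apply mul_le_mul_of_nonneg_right _ (by rw [hG]; positivity)
    omega
  have a4 : 2 * (κ * C) ≤ κ * (κ * C) := by
    apply mul_le_mul_of_nonneg_right hκ2 (by positivity)
  have a5 : 0 ≤ κ * (κ * (((x : ℤ) + 1) * G) + tl x) :=
    mul_nonneg hκ0.le (by omega)
  have a6 : κ * ((M + 1) * G) ≤ κ * (κ * ((M + 1) * G)) := by
    apply mul_le_mul_of_nonneg_left _ hκ0.le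
    have : 0 ≤ ((M : ℤ) + 1) * G := by rw [hG]; positivity
    nlinarith
  have a7 : N ≤ κ * N := by nlinarith
  have a8 : 0 ≤ κ * (m + N) := by positivity
  have a9 : 0 ≤ κ * C := by positivity
  have a11 : 0 ≤ κ * ((M + 1) * G) := by rw [hG]; positivity
  have e1 : κ * C = 30 * (κ * (κ * ((M + 1) * G))) + 300 * (κ * (m + N)) + 300 * κ +
      30 * (κ * N) := by
    rw [hC]; ring
  have a10 : 0 ≤ κ * (((a : ℤ) + 1) * G) := by rw [hG]; positivity
  constructor
  · have e : bN κ C G V tl x a = 6 * (κ * (κ * C)) + 6 * (κ * (κ * ((↑x + 1) * G) + tl x)) -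
        κ * C - κ * ((↑a + 1) * G) - tl a - V := by unfold bN; ring
    have e2 : 60 * κ * (↑m + N) = 60 * (κ * (m + N)) := by ring
    rw [e, e2]
    linarith
  · have e : bN κ C G V tl x a = 6 * κ * (κ * (C + (↑x + 1) * G) + tl x) -
        (κ * C + κ * ((↑a + 1) * G) + tl a + V) := by unfold bN; ring
    have a12 : κ * (C + (↑x + 1) * G) + tl x ≤ κ * (C + (M + 1) * G) + N := by
      have e3 : κ * (C + (↑x + 1) * G) + tl x = κ * C + κ * ((↑x + 1) * G) + tl x := by ring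
      have e4 : κ * (C + (M + 1) * G) + N = κ * C + κ * ((M + 1) * G) + N := by ring
      rw [e3, e4]
      linarith
    have a13 : 6 * κ * (κ * (C + (↑x + 1) * G) + tl x) ≤ 6 * κ * (κ * (C + (M + 1) * G) + N) :=
      mul_le_mul_of_nonneg_left a12 (by positivity)
    rw [e]
    linarith

theorem bI_bounds {κ C G V N : ℤ} {tl : ℕ → ℤ} {M m : ℕ} (hκ : (M : ℤ) + 2 ≤ κ) (hG : G = 120 * N)
    (hN : 0 < N) (hC : C = 5 * (6 * κ * ((M + 1) * G) + 60 * (m + N + 1) + 6 * N))
    (hV : 0 ≤ V ∧ V ≤ κ)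
    (htl : ∀ x < M, 0 ≤ tl x ∧ tl x ≤ N) {x : ℕ} (hx : x < M) :
    bI κ C G V tl x ≤ 6 * κ * (κ * (C + (M + 1) * G) + N) := by
  have hκ0 : 0 < κ := by omega
  have t1 := htl x hx
  have hC0 : 0 ≤ C := by rw [hC, hG]; positivity
  have a3 : κ * (((x : ℤ) + 1) * G) ≤ κ * ((M + 1) * G) := by
    apply mul_le_mul_of_nonneg_left _ hκ0.le
    apply mul_le_mul_of_nonneg_right _ (by rw [hG]; positivity)
    omega
  have a12 : κ * (C + (↑x + 1) * G) + tl x ≤ κ * (C + (M + 1) * G) + N := by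
    have e3 : κ * (C + (↑x + 1) * G) + tl x = κ * C + κ * ((↑x + 1) * G) + tl x := by ring
    have e4 : κ * (C + (M + 1) * G) + N = κ * C + κ * ((M + 1) * G) + N := by ring
    rw [e3, e4]
    linarith
  have a13 : 6 * κ * (κ * (C + (↑x + 1) * G) + tl x) ≤ 6 * κ * (κ * (C + (M + 1) * G) + N) :=
    mul_le_mul_of_nonneg_left a12 (by positivity)
  unfold bI
  linarith

theorem exists_delta' {R M L : ℕ} (hR : 8 ≤ R) {T : List (ℕ × ℕ)} (hT0 : 0 < T.length)
    (hL0 : 0 < L) (hTp : T.Pairwise (fun p q => p.1 < q.1 ∨ (p.1 = q.1 ∧ q.2 < p.2)))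
    (hT1 : ∀ r < T.length, tgT T r < M ∧ clT T r < M) {K N s sI : ℕ} {life lifeI : ℕ → ℕ}
    (hp : IsPlan 6 R M L T K N s sI life lifeI) (tl : ℕ → ℕ)
    (htl : ∀ x ≤ M, tl x ≤ 6 ^ (lam M + 1)) (tgI : ℕ → ℕ) (htgI : ∀ r < L, tgI r < M)
    (htgI2 : ∀ r, r + 1 < L → tgI r < tgI (r + 1)) :
    ∃ (ε : ℕ) (h δ : ℕ → ℕ), IsDel R M L K N s sI T life lifeI tl tgI ε h δ := by
  classical
  obtain ⟨κ, hκ⟩ : ∃ κ, κ = 6 ^ (K - 1) := ⟨_, rfl⟩
  have hK8 := hp.hK
  have hK0 : 6 ^ K = 6 * κ := by rw [hκ, ← pow_succ']; congr 1; omega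
  obtain ⟨V, hV⟩ : ∃ V, V = Wf 6 (K - 1) := ⟨_, rfl⟩
  have hVκ : 5 * V + 1 = κ := by
    have := Wf_geom (ν := 6) (by norm_num) (K - 1)
    rw [hV, hκ]; exact this
  obtain ⟨m, hm⟩ : ∃ m, m = nm 6 N M T := ⟨_, rfl⟩
  obtain ⟨mI, hmI⟩ : ∃ mI, mI = nI 6 N M L := ⟨_, rfl⟩
  obtain ⟨G, hG⟩ : ∃ G, G = 120 * N := ⟨_, rfl⟩
  obtain ⟨C, hC⟩ : ∃ C, C = 5 * (6 * κ * ((M + 1) * G) + 60 * (m + N + 1) + 6 * N) := ⟨_, rfl⟩
  obtain ⟨Hi, hHi⟩ : ∃ Hi, Hi = 6 * κ * (κ * (C + (M + 1) * G) + N) +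
    60 * κ * (m + mI + N + 1) + 30 * κ := ⟨_, rfl⟩
  obtain ⟨ε, hε⟩ : ∃ ε, ε + 1 = 6 ^ K * (2 * Hi + 1) := ⟨6 ^ K * (2 * Hi + 1) - 1, by
    have : 0 < 6 ^ K * (2 * Hi + 1) := by positivity
    omega⟩
  have hκ0 : 0 < κ := by rw [hκ]; positivity
  have hκM : M + 2 ≤ κ := by
    rw [hκ]
    have h1 : M + 2 ≤ K - 1 := by unfold lam at hK8; omega
    exact h1.trans (Nat.lt_pow_self (by norm_num)).le
  have hN0 := hp.hN0
  have hsN := hp.hs
  have hsIN := hp.hsI
  have hτN : 6 ^ (lam M + 1) ≤ N := Nat.le_of_dvd hN0 hp.hN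
  have hκz : (M : ℤ) + 2 ≤ κ := by exact_mod_cast hκM
  have hκz0 : (0 : ℤ) < κ := by exact_mod_cast hκ0
  have hGz : (G : ℤ) = 120 * N := by rw [hG]; push_cast; ring
  have hCz : (C : ℤ) = 5 * (6 * κ * ((M + 1) * G) + 60 * (m + N + 1) + 6 * N) := by
    rw [hC]; push_cast; ring
  have hNz : (0 : ℤ) < N := by exact_mod_cast hN0
  have hVz : (0 : ℤ) ≤ V ∧ (V : ℤ) ≤ κ := by constructor <;> omega
  have htlz : ∀ x < M, (0 : ℤ) ≤ (fun x => (tl x : ℤ)) x ∧ (fun x => (tl x : ℤ)) x ≤ N := by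
    intro x hx
    dsimp only
    have := htl x hx.le
    constructor
    · positivity
    · have : tl x ≤ N := by omega
      exact_mod_cast this
  have hmN : N * T.length ≤ m := by rw [hm]; unfold nm; exact Nat.le_add_right _ _
  have hm1 : 1 ≤ m := by
    have : 1 * 1 ≤ N * T.length := Nat.mul_le_mul hN0 hT0
    omega
  have hmIN : N * L ≤ mI := by rw [hmI]; unfold nI; exact Nat.le_add_right _ _
  -- bases
  obtain ⟨bt, hbt⟩ : ∃ bt : ℕ → ℕ, bt = fun j => min (j / N) (T.length - 1) := ⟨_, rfl⟩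
  obtain ⟨bi, hbi⟩ : ∃ bi : ℕ → ℕ, bi = fun j => min (j / N) (L - 1) := ⟨_, rfl⟩
  have hbtlt : ∀ j, bt j < T.length := by intro j; rw [hbt]; dsimp only; omega
  have hbilt : ∀ j, bi j < L := by intro j; rw [hbi]; dsimp only; omega
  obtain ⟨b1, hb1⟩ : ∃ b1 : ℕ → ℤ, b1 = fun l =>
    bN κ C G V (fun x => (tl x : ℤ)) (tgT T (bt l)) (clT T (bt l)) +
      60 * κ * ((l : ℤ) - ((N : ℤ) * bt l + s)) := ⟨_, rfl⟩
  obtain ⟨b2, hb2⟩ : ∃ b2 : ℕ → ℤ, b2 = fun i =>
    bI κ C G V (fun x => (tl x : ℤ)) (tgI (bi i)) +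
      60 * κ * ((i : ℤ) - ((N : ℤ) * bi i + sI)) := ⟨_, rfl⟩
  have hNb : ∀ l, N * bt l + s < m := by
    intro l
    have h1 := hbtlt l
    calc N * bt l + s < N * bt l + N := by omega
      _ = N * (bt l + 1) := by ring
      _ ≤ N * T.length := Nat.mul_le_mul_left _ h1
      _ ≤ m := hmN
  have hNbi : ∀ l, N * bi l + sI < mI := by
    intro l
    have h1 := hbilt l
    calc N * bi l + sI < N * bi l + N := by omega
      _ = N * (bi l + 1) := by ring
      _ ≤ N * L := Nat.mul_le_mul_left _ h1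
      _ ≤ mI := hmIN
  have hstep : ∀ (n : ℕ) (b : ℕ → ℕ), b = (fun j => min (j / N) (n - 1)) → ∀ j,
      b (j + 1) = b j ∨ b (j + 1) = b j + 1 := by
    intro n b hb j
    rw [hb]
    dsimp only
    have h1 : (j + 1) / N = j / N + if N ∣ j + 1 then 1 else 0 := Nat.succ_div
    split_ifs at h1 with h4 <;> omega
  have hgapN : ∀ l, b1 l + 30 * (κ : ℤ) ≤ b1 (l + 1) := by
    intro l
    rw [hb1]
    dsimp only
    rcases hstep T.length bt hbt l with hc | hc
    · rw [hc]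
      push_cast
      have e : 60 * (κ : ℤ) * ((l : ℤ) + 1 - ((N : ℤ) * bt l + s)) =
          60 * κ * ((l : ℤ) - ((N : ℤ) * bt l + s)) + 60 * κ := by ring
      rw [e]
      linarith only [hκz0]
    · have hlt := hbtlt (l + 1)
      rw [hc] at hlt ⊢
      have hpw := List.pairwise_iff_getElem.1 hTp (bt l) (bt l + 1) (by omega) hlt (by omega)
      have hg1 := hT1 (bt l) (by omega)
      have hg2 := hT1 (bt l + 1) hlt
      have hx1 : tgT T (bt l) = T[bt l].1 := by
        unfold tgT; rw [List.getD_eq_getElem _ _ (by omega)]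
      have hx2 : tgT T (bt l + 1) = T[bt l + 1].1 := by
        unfold tgT; rw [List.getD_eq_getElem _ _ hlt]
      have hx3 : clT T (bt l) = T[bt l].2 := by
        unfold clT; rw [List.getD_eq_getElem _ _ (by omega)]
      have hx4 : clT T (bt l + 1) = T[bt l + 1].2 := by
        unfold clT; rw [List.getD_eq_getElem _ _ hlt]
      rw [← hx1, ← hx2, ← hx3, ← hx4] at hpw
      have hgap := gap1 (κ := κ) (C := C) (G := G) (V := V) (N := N)
        (tl := fun x => (tl x : ℤ)) (M := M) hκz hGz hNz htlz hg1.1 hg2.1 hg1.2 hg2.2 hpw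
      push_cast
      have e : 60 * (κ : ℤ) * ((l : ℤ) + 1 - ((N : ℤ) * (bt l + 1) + s)) =
          60 * κ * ((l : ℤ) - ((N : ℤ) * bt l + s)) + 60 * κ - 60 * κ * N := by ring
      rw [e]
      linarith only [hκz0, hgap]
  have hgapI : ∀ l, b2 l + 30 * (κ : ℤ) ≤ b2 (l + 1) := by
    intro l
    rw [hb2]
    dsimp only
    rcases hstep L bi hbi l with hc | hc
    · rw [hc]
      push_cast
      have e : 60 * (κ : ℤ) * ((l : ℤ) + 1 - ((N : ℤ) * bi l + sI)) =
          60 * κ * ((l : ℤ) - ((N : ℤ) * bi l + sI)) + 60 * κ := by ring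
      rw [e]
      linarith only [hκz0]
    · have hlt := hbilt (l + 1)
      rw [hc] at hlt ⊢
      have hgap := gap3 (κ := κ) (C := C) (G := G) (V := V) (N := N)
        (tl := fun x => (tl x : ℤ)) (M := M) hκz hGz hNz htlz (htgI _ (by omega))
        (htgI _ hlt) (htgI2 _ hlt)
      push_cast
      have e : 60 * (κ : ℤ) * ((l : ℤ) + 1 - ((N : ℤ) * (bi l + 1) + sI)) =
          60 * κ * ((l : ℤ) - ((N : ℤ) * bi l + sI)) + 60 * κ - 60 * κ * N := by ring
      rw [e]
      linarith only [hκz0, hgap]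
  have hgapM : ∀ l, l < m → b1 l + 30 * (κ : ℤ) ≤ b2 0 := by
    intro l hl
    rw [hb1, hb2]
    dsimp only
    obtain ⟨hx, ha⟩ := hT1 (bt l) (hbtlt l)
    have hg := gap2 (κ := κ) (C := C) (G := G) (V := V) (N := N)
        (tl := fun x => (tl x : ℤ)) (M := M) (m := m) hκz hGz hNz hCz htlz hx ha
        (htgI (bi 0) (hbilt 0))
    have h0 : bi 0 = 0 := by rw [hbi]; simp
    rw [h0] at hg ⊢
    have o1 : 60 * (κ : ℤ) * ((l : ℤ) - ((N : ℤ) * bt l + s)) ≤ 60 * κ * m := by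
      apply mul_le_mul_of_nonneg_left _ (by positivity)
      have : (0 : ℤ) ≤ (N : ℤ) * bt l + s := by positivity
      have : (l : ℤ) < m := by exact_mod_cast hl
      omega
    have o2 : -(60 * (κ : ℤ) * N) ≤ 60 * κ * (((0 : ℕ) : ℤ) - ((N : ℤ) * ((0 : ℕ) : ℤ) + sI)) := by
      rw [← mul_neg]
      apply mul_le_mul_of_nonneg_left _ (by positivity)
      have : (sI : ℤ) < N := by exact_mod_cast hsIN
      push_cast
      omega
    have e : 60 * (κ : ℤ) * (m + N + 1) = 60 * κ * m + 60 * κ * N + 60 * κ := by ring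
    rw [e] at hg
    linarith only [hg, o1, o2, hκz0]
  have hloN : ∀ l, (1 : ℤ) ≤ b1 l := by
    intro l
    rw [hb1]
    dsimp only
    obtain ⟨hx, ha⟩ := hT1 (bt l) (hbtlt l)
    have hb := (bN_bounds (κ := κ) (C := C) (G := G) (V := V) (N := N)
      (tl := fun x => (tl x : ℤ)) (M := M) (m := m) hκz hGz hNz hCz hVz htlz hx ha).1
    have o1 : -(60 * (κ : ℤ) * m) ≤ 60 * κ * ((l : ℤ) - ((N : ℤ) * bt l + s)) := by
      rw [← mul_neg]
      apply mul_le_mul_of_nonneg_left _ (by positivity)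
      have : (N : ℤ) * bt l + s < m := by exact_mod_cast hNb l
      omega
    have e : 60 * (κ : ℤ) * (m + N) = 60 * κ * m + 60 * κ * N := by ring
    have : (0 : ℤ) ≤ 60 * κ * N := by positivity
    linarith
  have hhiN : ∀ l, l < m → b1 l + 30 * (κ : ℤ) ≤ Hi := by
    intro l hl
    rw [hb1]
    dsimp only
    obtain ⟨hx, ha⟩ := hT1 (bt l) (hbtlt l)
    have hb := (bN_bounds (κ := κ) (C := C) (G := G) (V := V) (N := N)
      (tl := fun x => (tl x : ℤ)) (M := M) (m := m) hκz hGz hNz hCz hVz htlz hx ha).2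
    have o1 : 60 * (κ : ℤ) * ((l : ℤ) - ((N : ℤ) * bt l + s)) ≤ 60 * κ * m := by
      apply mul_le_mul_of_nonneg_left _ (by positivity)
      have : (0 : ℤ) ≤ (N : ℤ) * bt l + s := by positivity
      have : (l : ℤ) < m := by exact_mod_cast hl
      omega
    have hHz : (Hi : ℤ) = 6 * κ * (κ * (C + (M + 1) * G) + N) +
        (60 * κ * m + 60 * κ * mI + 60 * κ * N + 60 * κ) + 30 * κ := by
      rw [hHi]; push_cast; ring
    have : (0 : ℤ) ≤ 60 * κ * N := by positivity
    have : (0 : ℤ) ≤ 60 * κ * mI := by positivity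
    linarith
  have hhiI : ∀ l, l < mI → b2 l + 30 * (κ : ℤ) ≤ Hi := by
    intro l hl
    rw [hb2]
    dsimp only
    have hb := (bI_bounds (κ := κ) (C := C) (G := G) (V := V) (N := N)
      (tl := fun x => (tl x : ℤ)) (M := M) (m := m) hκz hGz hNz hCz hVz htlz
      (htgI (bi l) (hbilt l)))
    have o1 : 60 * (κ : ℤ) * ((l : ℤ) - ((N : ℤ) * bi l + sI)) ≤ 60 * κ * mI := by
      apply mul_le_mul_of_nonneg_left _ (by positivity)
      have : (0 : ℤ) ≤ (N : ℤ) * bi l + sI := by positivity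
      have : (l : ℤ) < mI := by exact_mod_cast hl
      omega
    have hHz : (Hi : ℤ) = 6 * κ * (κ * (C + (M + 1) * G) + N) +
        (60 * κ * m + 60 * κ * mI + 60 * κ * N + 60 * κ) + 30 * κ := by
      rw [hHi]; push_cast; ring
    have : (0 : ℤ) ≤ 60 * κ * N := by positivity
    have : (0 : ℤ) ≤ 60 * κ * m := by positivity
    linarith
  have hmono : ∀ l, b2 0 ≤ b2 l := by
    intro l
    induction l with
    | zero => exact le_rfl
    | succ l ih =>
      have := hgapI l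
      linarith
  -- the sequence
  obtain ⟨lf, hlf⟩ : ∃ lf : ℕ → ℕ, lf = fun l => if l < m then life l else lifeI (l - m) :=
    ⟨_, rfl⟩
  obtain ⟨A0, hA0⟩ : ∃ A0 : Pat, A0 = ⟨6, 5 * ε, nt 6 N M L T, fun _ => 0⟩ := ⟨_, rfl⟩
  obtain ⟨r0, hr0⟩ : ∃ r0 : ℕ → ℤ, r0 = fun l => if l < m then
      -(((4 * ε + (6 ^ (K - 1) * (C + (clf N M T l + 1) * G) + tl (clf N M T l))) + 5 * ε +
      Wf 6 (life l) + 5 * ε * (lgrp m (clf N M T) life (fun _ => 0) (clf N M T l)).pw A0 K l +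
      6 ^ (life l - 1) : ℕ) : ℤ)
    else -(((5 * m - 1) * ε + Wf 6 (lifeI (l - m)) +
      5 * ε * (igrp mI lifeI (fun _ => 0)).pw A0 K (l - m) + 6 ^ (lifeI (l - m) - 1) : ℕ) : ℤ) :=
    ⟨_, rfl⟩
  have hlfK : ∀ l, lf l ≤ K := by
    intro l
    rw [hlf]
    dsimp only
    split_ifs
    · exact hp.life_le _
    · exact hp.lifeI_le _
  obtain ⟨δ, hδ1, hδ2, hδ3, hδ4⟩ := exists_seq (m + mI)
    (fun l => if l < m then b1 l else b2 (l - m)) (30 * (κ : ℤ)) 1 Hi
    (fun l => 5 * 6 ^ lf l) (fun l => r0 l + 6 ^ lf l * (1 - r0 l)) (fun l => lf l = K)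
    (by
      intro j
      refine ⟨by positivity, ?_⟩
      have h1 : 6 ^ lf j ≤ 6 ^ K := Nat.pow_le_pow_right (by norm_num) (hlfK j)
      rw [hK0] at h1
      have h2 : 5 * 6 ^ lf j ≤ 30 * κ := by omega
      exact_mod_cast h2)
    (by
      intro j hj
      by_cases h1 : j + 1 < m
      · rw [if_pos (by omega), if_pos h1]
        exact hgapN j
      · by_cases h2 : j < m
        · rw [if_pos h2, if_neg h1]
          have : j + 1 - m = 0 := by omega
          rw [this]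
          exact hgapM j h2
        · rw [if_neg h2, if_neg h1]
          have : j + 1 - m = j - m + 1 := by omega
          rw [this]
          exact hgapI _)
    (by norm_num)
    (by
      intro j hj
      split_ifs with h
      · exact ⟨hloN j, hhiN j h⟩
      · refine ⟨?_, hhiI _ (by omega)⟩
        have h1 := hloN 0
        have h2 := hgapM 0 (by omega)
        have h3 := hmono (j - m)
        linarith)
    (by positivity)
  obtain ⟨δt, hδt⟩ : ∃ δt : ℕ → ℕ, δt = fun l => if l = 0 then 0 else δ (l - 1) := ⟨_, rfl⟩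
  have hδs : ∀ l, δt (l + 1) = δ l := by
    intro l; rw [hδt]; dsimp only; rw [if_neg (by omega), Nat.add_sub_cancel]
  have hnt : nt 6 N M L T = m + mI + 1 := by unfold nt; rw [← hm, ← hmI]; ring
  have hδb : ∀ l, l < m + mI → 1 ≤ δ l ∧ δ l ≤ Hi := by
    intro l hl
    have := hδ4 l hl
    constructor
    · exact_mod_cast this.1
    · exact_mod_cast this.2
  have hHiε : 2 * Hi ≤ ε := by
    have h1 : 1 * (2 * Hi + 1) ≤ 6 ^ K * (2 * Hi + 1) :=
      Nat.mul_le_mul_right _ (Nat.succ_le_of_lt (by positivity))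
    omega
  have hε1 : 1 ≤ ε := by
    have : 1 ≤ Hi := by rw [hHi]; have : 0 < 30 * κ := by positivity
                        omega
    omega
  have hHisx : ∀ y < M, 6 * (6 ^ (K - 1) * (C + (y + 1) * G) + tl y) ≤ Hi := by
    intro y hy
    rw [← hκ, hHi]
    have h1 : κ * (C + (y + 1) * G) + tl y ≤ κ * (C + (M + 1) * G) + N := by
      apply Nat.add_le_add
      · apply Nat.mul_le_mul_left
        apply Nat.add_le_add_left
        exact Nat.mul_le_mul_right _ (by omega)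
      · have := htl y hy.le; omega
    have h2 : 6 * (κ * (C + (y + 1) * G) + tl y) ≤ 6 * κ * (κ * (C + (M + 1) * G) + N) := by
      apply Nat.mul_le_mul _ h1
      omega
    omega
  have h65 : ∀ n : ℕ, (5 : ℤ) ∣ 6 ^ n - 1 := by
    intro n
    have := sub_dvd_pow_sub_pow (6 : ℤ) 1 n
    rw [one_pow] at this
    exact this
  have hmodr : ∀ l, l < m + mI → lf l < K → (((6 ^ lf l : ℕ) : ℤ) ∣ δ l - r0 l) ∧ δ l % 5 = 1 := by
    intro l hl hlK
    have h1 := hδ2 l hl (by omega)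
    have h2 : ((5 * 6 ^ lf l : ℕ) : ℤ) = 5 * 6 ^ lf l := by push_cast; ring
    rw [h2] at h1
    have hA : ((6 ^ lf l : ℕ) : ℤ) = (6 : ℤ) ^ lf l := by push_cast; ring
    constructor
    · rw [hA]
      have h3 : (6 : ℤ) ^ lf l ∣ δ l - (r0 l + 6 ^ lf l * (1 - r0 l)) :=
        (Dvd.intro_left _ rfl).trans h1
      have e : (δ l : ℤ) - r0 l = (δ l - (r0 l + 6 ^ lf l * (1 - r0 l))) + 6 ^ lf l * (1 - r0 l) := by
        ring
      rw [e]
      exact Dvd.dvd.add h3 (Dvd.intro _ rfl)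
    · have h3 : (5 : ℤ) ∣ δ l - (r0 l + 6 ^ lf l * (1 - r0 l)) := (Dvd.intro _ rfl).trans h1
      have e : (δ l : ℤ) - 1 = (δ l - (r0 l + 6 ^ lf l * (1 - r0 l))) +
          (6 ^ lf l - 1) * (1 - r0 l) := by ring
      have h4 : (5 : ℤ) ∣ (δ l : ℤ) - 1 := by
        rw [e]
        exact Dvd.dvd.add h3 (Dvd.dvd.mul_right (h65 _) _)
      omega
  refine ⟨ε, fun x => C + (x + 1) * G, δt, ⟨⟨by norm_num, ?_, ?_, ?_, ?_⟩, ⟨_, hε⟩, hε1, ?_, ?_,
    ?_, ?_, ?_, ?_, ?_, ?_, ?_⟩⟩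
  · show 1 ≤ nt 6 N M L T
    omega
  · show δt 0 = 0
    rw [hδt]; simp
  · intro d hd
    unfold Pat.Ol at hd
    dsimp only at hd ⊢
    rw [List.mem_cons, List.mem_cons, List.mem_map] at hd
    rcases hd with rfl | rfl | ⟨j, hj, rfl⟩
    · omega
    · omega
    · rw [List.mem_range, hnt] at hj
      rw [hδs]
      have := (hδb j (by omega)).2
      omega
  · unfold Pat.Ol
    dsimp only
    have hpos : ∀ d ∈ List.map (fun j => 6 * δt (j + 1)) (List.range (nt 6 N M L T - 1)),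
        1 < d := by
      intro d hd
      rw [List.mem_map] at hd
      obtain ⟨j, hj, rfl⟩ := hd
      rw [List.mem_range, hnt] at hj
      rw [hδs]
      have := (hδb j (by omega)).1
      omega
    rw [List.pairwise_cons, List.pairwise_cons]
    refine ⟨?_, hpos, ?_⟩
    · intro d hd
      rw [List.mem_cons] at hd
      rcases hd with rfl | hd
      · norm_num
      · have := hpos d hd; omega
    · rw [List.pairwise_map]
      refine List.Pairwise.imp_of_mem ?_ List.pairwise_lt_range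
      intro i j hi hj hij
      rw [List.mem_range, hnt] at hi hj
      rw [hδs, hδs]
      have hδmono : ∀ d i, i + d + 1 < m + mI → δ i < δ (i + d + 1) := by
        intro d
        induction d with
        | zero => intro i hi; exact hδ3 i hi
        | succ d ih =>
          intro i hi
          have h1 := ih i (by omega)
          have h2 := hδ3 (i + d + 1) hi
          exact h1.trans h2
      obtain ⟨d, rfl⟩ : ∃ d, j = i + d + 1 := ⟨j - i - 1, by omega⟩
      have := hδmono d i (by omega)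
      omega
  · intro l hl1 hl2
    obtain ⟨l, rfl⟩ : ∃ l', l = l' + 1 := ⟨l - 1, by omega⟩
    rw [hδs]
    have := hδb l (by omega)
    omega
  · intro x
    rw [hC, hG]
    have : 5 * (6 * κ * ((M + 1) * (120 * N)) + 60 * (m + N + 1) + 6 * N) +
        (x + 1) * (120 * N) = 5 * (6 * κ * ((M + 1) * (120 * N)) + 60 * (m + N + 1) + 6 * N +
        (x + 1) * (24 * N)) := by ring
    rw [hG.symm] at *
    omega
  · intro y hy
    have h1 := hHisx y hy
    have h2 : 8 * (5 * ε) ≤ R * (5 * ε) := Nat.mul_le_mul_right _ hR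
    omega
  · intro j hj hlj
    have h0 : j < m := by omega
    have h1 : lf j = K := by rw [hlf]; dsimp only; rw [if_pos h0]; exact hlj
    have h2 := hδ1 j (by omega) h1
    rw [if_pos h0, hb1] at h2
    dsimp only at h2
    have h3 := ((hp.life_eq j).1 hlj).2
    have hr : j / N < T.length := Nat.div_lt_of_lt_mul hj
    have hbj : bt j = j / N := by rw [hbt]; dsimp only; omega
    have hjs : (j : ℤ) - ((N : ℤ) * bt j + s) = 0 := by
      rw [hbj]
      have := Nat.div_add_mod j N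
      rw [h3] at this
      have : ((N * (j / N) + s : ℕ) : ℤ) = j := by rw [this]
      push_cast at this
      push_cast
      omega
    rw [hjs, mul_zero, add_zero, hbj] at h2
    rw [hδs, ← hκ, ← hV, hK0]
    unfold bN at h2
    zify
    rw [h2]
    ring
  · intro j hj hlj
    rw [← hm] at hj
    have h1 : lf j = life j := by rw [hlf]; dsimp only; rw [if_pos hj]
    obtain ⟨h2, _⟩ := hmodr j (by omega) (by omega)
    rw [h1, hr0] at h2
    dsimp only at h2
    rw [if_pos hj, sub_neg_eq_add] at h2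
    have h3 : 6 ^ life j ∣ δ j + ((4 * ε + (6 ^ (K - 1) * (C + (clf N M T j + 1) * G) +
      tl (clf N M T j))) + 5 * ε + Wf 6 (life j) +
      5 * ε * (lgrp m (clf N M T) life (fun _ => 0) (clf N M T j)).pw A0 K j +
      6 ^ (life j - 1)) := by exact_mod_cast h2
    rw [hδs, ← hm]
    have e1 : (lgrp m (clf N M T) life δt (clf N M T j)).pw ⟨6, 5 * ε, nt 6 N M L T, δt⟩ K j =
        (lgrp m (clf N M T) life (fun _ => 0) (clf N M T j)).pw A0 K j := by
      rw [hA0]; rfl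
    rw [e1]
    convert h3 using 1
    ring
  · intro j hj hlj
    rw [← hm] at hj
    have h1 : lf j = life j := by rw [hlf]; dsimp only; rw [if_pos hj]
    rw [hδs]
    exact (hmodr j (by omega) (by omega)).2
  · intro i hi hli
    have h0 : ¬ m + i < m := by omega
    have h1 : lf (m + i) = K := by
      rw [hlf]; dsimp only; rw [if_neg h0, Nat.add_sub_cancel_left]; exact hli
    have h2 := hδ1 (m + i) (by omega) h1
    rw [if_neg h0, Nat.add_sub_cancel_left, hb2] at h2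
    dsimp only at h2
    have h3 := ((hp.lifeI_eq i).1 hli).2
    have hr : i / N < L := Nat.div_lt_of_lt_mul hi
    have hbj : bi i = i / N := by rw [hbi]; dsimp only; omega
    have hjs : (i : ℤ) - ((N : ℤ) * bi i + sI) = 0 := by
      rw [hbj]
      have := Nat.div_add_mod i N
      rw [h3] at this
      have : ((N * (i / N) + sI : ℕ) : ℤ) = i := by rw [this]
      push_cast at this
      push_cast
      omega
    rw [hjs, mul_zero, add_zero, hbj] at h2
    have e0 : nm 6 N M T + 1 + i = m + i + 1 := by rw [← hm]; ring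
    rw [e0, hδs, ← hκ, ← hV, hK0]
    unfold bI at h2
    zify
    rw [h2]
    ring
  · intro i hi hli
    rw [← hmI] at hi
    have h0 : ¬ m + i < m := by omega
    have h1 : lf (m + i) = lifeI i := by
      rw [hlf]; dsimp only; rw [if_neg h0, Nat.add_sub_cancel_left]
    obtain ⟨h2, _⟩ := hmodr (m + i) (by omega) (by omega)
    rw [h1, hr0] at h2
    dsimp only at h2
    rw [if_neg h0, sub_neg_eq_add, Nat.add_sub_cancel_left] at h2
    have h3 : 6 ^ lifeI i ∣ δ (m + i) + ((5 * m - 1) * ε + Wf 6 (lifeI i) +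
      5 * ε * (igrp mI lifeI (fun _ => 0)).pw A0 K i + 6 ^ (lifeI i - 1)) := by
      exact_mod_cast h2
    have e0 : nm 6 N M T + 1 + i = m + i + 1 := by rw [← hm]; ring
    rw [e0, hδs, ← hm, ← hmI]
    have e1 : (igrp mI lifeI δt).pw ⟨6, 5 * ε, nt 6 N M L T, δt⟩ K i =
        (igrp mI lifeI (fun _ => 0)).pw A0 K i := by
      rw [hA0]; rfl
    rw [e1]
    convert h3 using 1
    ring
  · intro i hi hli
    rw [← hmI] at hi
    have h0 : ¬ m + i < m := by omega
    have h1 : lf (m + i) = lifeI i := by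
      rw [hlf]; dsimp only; rw [if_neg h0, Nat.add_sub_cancel_left]
    have e0 : nm 6 N M T + 1 + i = m + i + 1 := by rw [← hm]; ring
    rw [e0, hδs]
    exact (hmodr (m + i) (by omega) (by omega)).2

end Pool.Agent.H97.Pcp
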