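import Pool.Agent.H97.Pcp.Sim

/-!
# Complete histories begin with `true`
-/

set_option autoImplicit false

namespace Pool.Agent.H97.Pcp

open Pool.Agent.H97.Tag

theorem head_true {w1 : List Bool} (hW : ChkW w1) {s : List Bool} (hs : s ≠ [])
    (hl : 6 ∣ s.length) (hf : pass w1 s = s) : s[0]? = some true := by
  obtain ⟨hE, _, _, hm⟩ := hW
  by_contra hcon
  obtain ⟨n, hn⟩ := hl
  have hn0 : 0 < n := by
    have := List.length_pos_iff.2 hs
    omega
  have key : ∀ j, j ≤ n → 6 * j = (pass w1 (s.take (6 * j))).length +
      5 * ((6 * j - (pass w1 (s.take (6 * j))).length) / 5) ∧
      (0 < j → (pass w1 (s.take (6 * j))).length < 6 * j) := by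
    intro j
    induction j with
    | zero =>
      intro _
      have : pass w1 [] = [] := rfl
      simp [this]
    | succ j ih =>
      intro hj
      obtain ⟨h1, h2⟩ := ih (by omega)
      obtain ⟨a, ha⟩ : ∃ a, a = s.take (6 * j) := ⟨_, rfl⟩
      rw [← ha] at h1 h2
      have hal : a.length = 6 * j := by rw [ha, List.length_take]; omega
      obtain ⟨r, hr⟩ : ∃ r, s = a ++ r := ⟨s.drop (6 * j), by
        rw [ha, List.take_append_drop]⟩
      have hrl : 6 ≤ r.length := by
        have := congrArg List.length hr
        rw [List.length_append] at this
        omega
      obtain ⟨c, t, rfl⟩ : ∃ c t, r = c :: t := by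
        cases r with
        | nil => simp at hrl
        | cons c t => exact ⟨c, t, rfl⟩
      have htl : 5 ≤ t.length := by
        rw [List.length_cons] at hrl; omega
      have h3 : s.take (6 * (j + 1)) = a ++ (c :: t.take 5) := by
        rw [hr, List.take_append, hal]
        have e1 : List.take (6 * (j + 1)) a = a := List.take_of_length_le (by omega)
        have e2 : 6 * (j + 1) - 6 * j = 5 + 1 := by omega
        rw [e1, e2, List.take_succ_cons]
      have ha6 : 6 ∣ a.length := by rw [hal]; exact Dvd.intro _ rfl
      have h4 : pass w1 (c :: t.take 5) = rule w1 c := by
        unfold pass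
        rw [rd_zero_cons, rd_short _ _ _ _ (by rw [List.length_take]; omega), List.append_nil]
      rw [h3, pass_append ha6, h4, List.length_append]
      cases c with
      | false =>
        have : (rule w1 false).length = 1 := rfl
        rw [this]
        generalize (pass w1 a).length = P at *
        constructor
        · omega
        · intro _; omega
      | true =>
        have h5 : (rule w1 true).length = w1.length := rfl
        rw [h5]
        have hj0 : 0 < j := by
          rcases Nat.eq_zero_or_pos j with rfl | h
          · exfalso
            apply hcon
            have : a = [] := List.eq_nil_of_length_eq_zero (by omega)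
            rw [hr, this]
            rfl
          · exact h
        have h6 := h2 hj0
        have h7 : s = pass w1 a ++ (w1 ++ rd 6 (rule w1) 5 t) := by
          conv_lhs => rw [← hf, hr]
          rw [pass_append ha6]
          rfl
        have h8 : s.getD (6 * j) false = true := by
          rw [hr, List.getD_append_right _ _ _ _ (by omega), hal, Nat.sub_self]
          rfl
        have h9 : ¬ (6 * j - (pass w1 a).length < w1.length) := by
          intro hlt
          rw [h7, List.getD_append_right _ _ _ _ (by omega),
            List.getD_append _ _ _ _ hlt] at h8
          have := hm _ hlt h8 (by omega)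
          omega
        generalize (pass w1 a).length = P at *
        constructor
        · omega
        · intro _; omega
  obtain ⟨_, h2⟩ := key n le_rfl
  have h3 := h2 hn0
  rw [List.take_of_length_le (by omega), hf] at h3
  omega

end Pool.Agent.H97.Pcp
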