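import Pool.Agent.H97.Pcp.Defs

/-!
# The four pairs
-/

set_option autoImplicit false

namespace Pool.Agent.H97.Pcp

open Pool.Agent.H97.Tag

/-- The letter read by a pair. -/
def bit (i : Fin 4) : Bool := decide (2 ≤ i.val)

/-- The pair which reads `b` and writes. -/
def actP (b : Bool) : Fin 4 := bif b then 2 else 0

/-- The pair which reads `b` and does not write. -/
def skipP (b : Bool) : Fin 4 := bif b then 3 else 1

/-- The sequence of pairs of a word. -/
def mk (ν : ℕ) : ℕ → List Bool → List (Fin 4)
  | _, [] => []
  | 0, b :: s => actP b :: mk ν (ν - 1) s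
  | p + 1, b :: s => skipP b :: mk ν p s

theorem bit_act (b : Bool) : bit (actP b) = b := by cases b <;> rfl

theorem bit_skip (b : Bool) : bit (skipP b) = b := by cases b <;> rfl

theorem mk_bit (ν : ℕ) (s : List Bool) : ∀ p, (mk ν p s).map bit = s := by
  induction s with
  | nil => intro p; cases p <;> rfl
  | cons b s ih =>
    intro p
    cases p with
    | zero =>
      show bit (actP b) :: (mk ν (ν - 1) s).map bit = _
      rw [ih, bit_act]
    | succ p =>
      show bit (skipP b) :: (mk ν p s).map bit = _
      rw [ih, bit_skip]

theorem hp_eq (ν : ℕ) (i : Fin 4) : hp ν i = cod ν (bit i) := by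
  fin_cases i <;> rfl

/-- The production without its last letter. -/
def pre (u : List Bool) (b : Bool) : List Bool := bif b then u else []

theorem rule_pre (u : List Bool) (b : Bool) : rule (u ++ [false]) b = pre u b ++ [false] := by
  cases b <;> rfl

theorem gp_act (ν : ℕ) (u : List Bool) (b : Bool) :
    gp ν u (actP b) = (pre u b).flatMap (cod ν) ++ [true, false] := by
  cases b <;> rfl

theorem gp_skip (ν : ℕ) (u : List Bool) (b : Bool) : gp ν u (skipP b) = [false] := by
  cases b <;> rfl

theorem cases_pair (i : Fin 4) : (∃ b, i = actP b) ∨ ∃ b, i = skipP b := by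
  fin_cases i
  · exact Or.inl ⟨false, rfl⟩
  · exact Or.inr ⟨false, rfl⟩
  · exact Or.inl ⟨true, rfl⟩
  · exact Or.inr ⟨true, rfl⟩

theorem cod_cons (ν : ℕ) (b : Bool) : ∃ z, cod ν b = true :: z := by
  cases b
  · exact ⟨_, rfl⟩
  · exact ⟨_, rfl⟩

/-- A code does not begin with `false`. -/
theorem cod_ne_false (ν : ℕ) (s : List Bool) (z : List Bool) : s.flatMap (cod ν) ≠ false :: z := by
  cases s with
  | nil => simp
  | cons b s =>
    obtain ⟨y, hy⟩ := cod_cons ν b
    rw [List.flatMap_cons, hy]
    simp

/-- A word which is followed by `true`. -/
theorem decode {ν : ℕ} (hν : 1 ≤ ν) (W : List Bool) : ∀ (s z : List Bool),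
    W.flatMap (cod ν) ++ true :: z = s.flatMap (cod ν) →
      ∃ s1, s = W ++ s1 ∧ true :: z = s1.flatMap (cod ν) := by
  obtain ⟨k, rfl⟩ : ∃ k, ν = k + 1 := ⟨ν - 1, by omega⟩
  induction W with
  | nil =>
    intro s z h
    exact ⟨s, rfl, h⟩
  | cons c W ih =>
    intro s z h
    cases s with
    | nil =>
      exfalso
      rw [List.flatMap_nil] at h
      have := congrArg List.length h
      simp at this
    | cons c' s =>
      rw [List.flatMap_cons, List.flatMap_cons, List.append_assoc] at h
      have hstart : ∀ y, W.flatMap (cod (k + 1)) ++ true :: z ≠ false :: y := by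
        intro y
        cases W with
        | nil => simp
        | cons d W =>
          obtain ⟨y', hy'⟩ := cod_cons (k + 1) d
          rw [List.flatMap_cons, hy']
          simp
      cases c with
      | false =>
        cases c' with
        | false =>
          obtain ⟨s1, h1, h2⟩ := ih s z (List.append_cancel_left h)
          exact ⟨s1, by rw [h1]; rfl, h2⟩
        | true =>
          exfalso
          have e1 : cod (k + 1) false = true :: false :: List.replicate k false := rfl
          have e2 : cod (k + 1) true = [true] := rfl
          rw [e1, e2] at h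
          simp only [List.cons_append, List.nil_append, List.cons.injEq, true_and] at h
          exact cod_ne_false _ _ _ h.symm
      | true =>
        cases c' with
        | false =>
          exfalso
          have e1 : cod (k + 1) false = true :: false :: List.replicate k false := rfl
          have e2 : cod (k + 1) true = [true] := rfl
          rw [e1, e2] at h
          simp only [List.cons_append, List.nil_append, List.cons.injEq, true_and] at h
          exact hstart _ h
        | true =>
          obtain ⟨s1, h1, h2⟩ := ih s z (List.append_cancel_left h)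
          exact ⟨s1, by rw [h1]; rfl, h2⟩

/-- The pairs of a word write the code of the next word. -/
theorem mk_gp {ν : ℕ} (hν : 1 ≤ ν) (u : List Bool) (s : List Bool) : ∀ (p k : ℕ), p < ν →
    s.length = p + ν * k → (mk ν p s).flatMap (gp ν u) =
      List.replicate p false ++ (rd ν (rule (u ++ [false])) p s).flatMap (cod ν) := by
  induction s with
  | nil =>
    intro p k _ h
    have hp0 : p = 0 := by simp at h; omega
    subst hp0
    rfl
  | cons b s ih =>
    intro p k hp h
    cases p with
    | zero =>
      obtain ⟨k, rfl⟩ : ∃ k', k = k' + 1 := ⟨k - 1, by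
        rcases k with _ | k
        · simp at h
        · omega⟩
      have h1 : s.length = (ν - 1) + ν * k := by
        rw [List.length_cons, Nat.mul_succ] at h; omega
      have h2 := ih (ν - 1) k (by omega) h1
      have e : mk ν 0 (b :: s) = actP b :: mk ν (ν - 1) s := rfl
      rw [e, List.flatMap_cons, h2, gp_act, rd_zero_cons, rule_pre, List.flatMap_append,
        List.flatMap_append]
      have e2 : [false].flatMap (cod ν) = true :: List.replicate ν false := by
        simp [cod]
      rw [e2]
      obtain ⟨j, rfl⟩ : ∃ j, ν = j + 1 := ⟨ν - 1, by omega⟩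
      simp [List.replicate_succ]
    | succ p =>
      have h1 : s.length = p + ν * k := by
        rw [List.length_cons] at h; omega
      have h2 := ih p k (by omega) h1
      have e : mk ν (p + 1) (b :: s) = skipP b :: mk ν p s := rfl
      rw [e, List.flatMap_cons, h2, gp_skip, rd_succ_cons, List.replicate_succ]
      rfl

/-- Every sequence of pairs which writes a code is the sequence of pairs of a word. -/
theorem parse {ν : ℕ} (hν : 1 ≤ ν) (u : List Bool) (x : List (Fin 4)) : ∀ (p : ℕ) (s : List Bool),
    x.flatMap (gp ν u) = List.replicate p false ++ s.flatMap (cod ν) →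
      (∃ k, x.length = p + ν * k) ∧ s = rd ν (rule (u ++ [false])) p (x.map bit) := by
  induction x with
  | nil =>
    intro p s h
    rw [List.flatMap_nil] at h
    have h1 := (List.append_eq_nil_iff.1 h.symm).1
    have h2 := (List.append_eq_nil_iff.1 h.symm).2
    have hp : p = 0 := by simpa using h1
    have hs : s = [] := by
      cases s with
      | nil => rfl
      | cons b s =>
        obtain ⟨z, hz⟩ := cod_cons ν b
        rw [List.flatMap_cons, hz] at h2
        simp at h2
    subst hp hs
    exact ⟨⟨0, by simp⟩, by simp⟩
  | cons i x ih =>
    intro p s h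
    rcases cases_pair i with ⟨b, rfl⟩ | ⟨b, rfl⟩
    · rw [List.flatMap_cons, gp_act] at h
      cases p with
      | succ p =>
        exfalso
        rw [List.replicate_succ, List.cons_append, List.append_assoc] at h
        cases hpre : pre u b with
        | nil => rw [hpre] at h; simp at h
        | cons c W =>
          obtain ⟨z, hz⟩ := cod_cons ν c
          rw [hpre, List.flatMap_cons, hz] at h
          simp at h
      | zero =>
        rw [List.replicate_zero, List.nil_append, List.append_assoc] at h
        obtain ⟨s1, rfl, h2⟩ := decode hν (pre u b) s (false :: x.flatMap (gp ν u)) h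
        cases s1 with
        | nil => simp at h2
        | cons c s2 =>
          cases c with
          | true =>
            exfalso
            rw [List.flatMap_cons] at h2
            have e2 : cod ν true = [true] := rfl
            rw [e2] at h2
            simp only [List.cons_append, List.nil_append, List.cons.injEq, true_and] at h2
            exact cod_ne_false _ _ _ h2.symm
          | false =>
            obtain ⟨j, rfl⟩ : ∃ j, ν = j + 1 := ⟨ν - 1, by omega⟩
            rw [List.flatMap_cons] at h2
            have e1 : cod (j + 1) false = true :: false :: List.replicate j false := rfl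
            rw [e1] at h2
            simp only [List.cons_append, List.cons.injEq, true_and] at h2
            obtain ⟨⟨k, hk⟩, h3⟩ := ih j s2 h2
            refine ⟨⟨k + 1, ?_⟩, ?_⟩
            · rw [List.length_cons, hk]; ring
            · rw [List.map_cons, bit_act, rd_zero_cons, rule_pre, Nat.add_sub_cancel, ← h3]
              simp
    · rw [List.flatMap_cons, gp_skip] at h
      cases p with
      | zero =>
        exfalso
        rw [List.replicate_zero, List.nil_append] at h
        exact cod_ne_false _ _ _ h.symm
      | succ p =>
        rw [List.replicate_succ] at h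
        simp only [List.cons_append, List.nil_append, List.cons.injEq, true_and] at h
        obtain ⟨⟨k, hk⟩, h3⟩ := ih p s h
        refine ⟨⟨k, ?_⟩, ?_⟩
        · rw [List.length_cons, hk]; ring
        · rw [List.map_cons, bit_skip, rd_succ_cons]
          exact h3

/-- **Solutions are complete histories.** -/
theorem pcp_iff (ν : ℕ) (hν : 2 ≤ ν) (u : List Bool) :
    (∃ x : List (Fin 4), x ≠ [] ∧ x.flatMap (hp ν) = x.flatMap (gp ν u)) ↔
      Fix ν (u ++ [false]) := by
  constructor
  · rintro ⟨x, hx, h⟩
    have e : x.flatMap (hp ν) = (x.map bit).flatMap (cod ν) := by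
      rw [List.flatMap_map]
      apply List.flatMap_congr
      intro i _
      exact hp_eq ν i
    rw [e] at h
    obtain ⟨⟨k, hk⟩, h2⟩ := parse (ν := ν) (by omega) u x 0 (x.map bit) (by
      rw [← h]; rfl)
    refine ⟨x.map bit, by simpa using hx, ?_, h2.symm⟩
    rw [List.length_map, hk, Nat.zero_add]
    exact Dvd.intro _ rfl
  · rintro ⟨s, hs, ⟨k, hk⟩, h⟩
    refine ⟨mk ν 0 s, ?_, ?_⟩
    · intro h1
      apply hs
      rw [← mk_bit ν s 0, h1]
      rfl
    · have h1 := mk_gp (ν := ν) (by omega) u s 0 k (by omega) (by rw [hk, Nat.zero_add])
      rw [h1, h]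
      have e : (mk ν 0 s).flatMap (hp ν) = ((mk ν 0 s).map bit).flatMap (cod ν) := by
        rw [List.flatMap_map]
        apply List.flatMap_congr
        intro i _
        exact hp_eq ν i
      rw [e, mk_bit]
      rfl

end Pool.Agent.H97.Pcp
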