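import Pool.Agent.H97.Pcp.Main
import Pool.Agent.H97.Tag.Final
import Pool.Agent.H97.Pcp.Pairs
import Pool.Agent.H97.Pcp.Head

/-!
# The Post correspondence problem with four pairs is undecidable
-/

set_option autoImplicit false

namespace Pool.Agent.H97.Pcp

open Pool.Agent.H97.Tag

/-- There is a nonempty word with the same image under the two morphisms. -/
def Sol {A : Type} {n : ℕ} (h g : Fin n → List A) : Prop :=
  ∃ x : List (Fin n), x ≠ [] ∧ x.flatMap h = x.flatMap g

/-- The first words. -/
def h4 : Fin 4 → List Bool := ![[true, false, false, false, false, false, false],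
  [true, false, false, false, false, false, false], [true], [true]]

/-- The second words. -/
def g4 (z : List Bool) : Fin 4 → List Bool := ![[true, false], [false], z, [false]]

theorem h4_eq : h4 = hp 6 := by
  funext i
  fin_cases i <;> rfl

theorem g4_eq (u : List Bool) : g4 (u.flatMap (cod 6) ++ [true, false]) = gp 6 u := by
  funext i
  fin_cases i <;> rfl

theorem chkW_dropLast {w1 : List Bool} (h : ChkW w1) : w1 = w1.dropLast ++ [false] := by
  have hne : w1 ≠ [] := by
    intro h0
    have := h.1
    rw [h0] at this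
    simp at this
  have h1 := h.2.2.1
  rw [List.getD_eq_getElem _ _ (by
    have := List.length_pos_iff.2 hne
    omega)] at h1
  have h2 : w1.getLast hne = false := by
    rw [List.getLast_eq_getElem]; exact h1
  rw [← h2]
  exact (List.dropLast_append_getLast hne).symm

/-- The core, for the pairs. -/
theorem four_core : ∃ (Z : ℕ → List Bool) (q : ℕ → Prop), Computable Z ∧ ¬ ComputablePred q ∧
    (∀ n, Z n ≠ []) ∧ ∀ n, q n ↔ Sol h4 (g4 (Z n)) := by
  obtain ⟨W, q, hW, hq, h1, h2, h3⟩ := core
  have hcod : Primrec (cod 6) := Primrec.dom_finite _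
  have hdl : Primrec (fun l : List Bool => l.dropLast) := by
    have h : Primrec (fun l : List Bool => l.reverse.tail.reverse) :=
      Primrec.list_reverse.comp (Primrec.list_tail.comp Primrec.list_reverse)
    refine h.of_eq (fun l => ?_)
    rw [List.tail_reverse, List.reverse_reverse]
  refine ⟨fun n => (W n).dropLast.flatMap (cod 6) ++ [true, false], q, ?_, hq, ?_, ?_⟩
  · have h : Primrec (fun l : List Bool => l.dropLast.flatMap (cod 6) ++ [true, false]) :=
      Primrec.list_append.comp (Primrec.list_flatMap hdl (hcod.comp Primrec.snd))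
        (Primrec.const _)
    exact h.to_comp.comp hW
  · intro n; simp
  · intro n
    have hfix : Sol h4 (g4 ((W n).dropLast.flatMap (cod 6) ++ [true, false])) ↔ Fix 6 (W n) := by
      rw [h4_eq, g4_eq]
      have := pcp_iff 6 (by norm_num) (W n).dropLast
      rw [← chkW_dropLast (h1 n)] at this
      exact this
    rw [hfix]
    constructor
    · exact h2 n
    · rintro ⟨s, hs, hl, hf⟩
      exact h3 n s hf (head_true (h1 n) hs hl hf)

/-- **The Post correspondence problem with four pairs**, three of which and one word of the fourth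
are fixed, is undecidable. -/
theorem four : ¬ ComputablePred (fun z : List Bool => Sol h4 (g4 z)) := by
  obtain ⟨Z, q, hZ, hq, _, h⟩ := four_core
  exact not_computable_of hZ hq h

/-- Copies of the last pair. -/
def idx {n : ℕ} (i : Fin n) : Fin 4 := ⟨min i.val 3, by omega⟩

theorem sol_idx {n : ℕ} (hn : 4 ≤ n) {A : Type} (h g : Fin 4 → List A) :
    Sol (fun i : Fin n => h (idx i)) (fun i : Fin n => g (idx i)) ↔ Sol h g := by
  constructor
  · rintro ⟨x, hx, he⟩
    refine ⟨x.map idx, by simpa using hx, ?_⟩
    rw [List.flatMap_map, List.flatMap_map]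
    exact he
  · rintro ⟨x, hx, he⟩
    refine ⟨x.map (Fin.castLE hn), by simpa using hx, ?_⟩
    rw [List.flatMap_map, List.flatMap_map]
    have e : ∀ i : Fin 4, idx (Fin.castLE hn i) = i := by
      intro i
      apply Fin.ext
      show min i.val 3 = i.val
      omega
    simp only [e]
    exact he

theorem sol_map {n : ℕ} {A B : Type} (ι : A → B) (hι : Function.Injective ι)
    (h g : Fin n → List A) :
    Sol (fun i => (h i).map ι) (fun i => (g i).map ι) ↔ Sol h g := by
  have e : ∀ (x : List (Fin n)) (h : Fin n → List A),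
      x.flatMap (fun i => (h i).map ι) = (x.flatMap h).map ι := by
    intro x h
    rw [List.map_flatMap]
  unfold Sol
  simp only [e]
  constructor
  · rintro ⟨x, hx, he⟩
    exact ⟨x, hx, List.map_injective_iff.2 hι he⟩
  · rintro ⟨x, hx, he⟩
    exact ⟨x, hx, by rw [he]⟩

theorem fin_prim {α σ : Type} [Primcodable α] [Primcodable σ] {n : ℕ} {f : α → Fin n → σ}
    (h : ∀ i, Primrec (fun a => f a i)) : Primrec f := by
  rw [Primrec.fin_curry]
  exact (Primrec.fin_curry₁.2 h).swap

/-- The instances with `n` pairs over a type of letters. -/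
def inst {n : ℕ} {A : Type} (ι : Bool → A) (z : List Bool) : (Fin n → List A) × (Fin n → List A) :=
  (fun i => (h4 (idx i)).map ι, fun i => (g4 z (idx i)).map ι)

theorem inst_prim {n : ℕ} {A : Type} [Primcodable A] (ι : Bool → A) :
    Primrec (inst (n := n) ι) := by
  have hι : Primrec ι := Primrec.dom_finite _
  refine Primrec.pair (Primrec.const _) (fin_prim fun i => ?_)
  have hg : ∀ j : Fin 4, Primrec (fun z => g4 z j) := by
    intro j
    fin_cases j
    · exact Primrec.const _
    · exact Primrec.const _
    · exact Primrec.id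
    · exact Primrec.const _
  exact Primrec.list_map (hg (idx i)) (hι.comp Primrec.snd)

/-- **`PCP(n)` is undecidable for every `n ≥ 4`**, already for words over two letters which are not
empty. -/
theorem many {n : ℕ} (hn : 4 ≤ n) {A : Type} [Primcodable A] (ι : Bool → A)
    (hι : Function.Injective ι) :
    ¬ ∃ D : (Fin n → List A) × (Fin n → List A) → Prop, ComputablePred D ∧
      ∀ h g : Fin n → List A, (∀ i, h i ≠ [] ∧ g i ≠ []) →
        (∀ i, (∀ a ∈ h i, a ∈ Set.range ι) ∧ ∀ a ∈ g i, a ∈ Set.range ι) →
        (D (h, g) ↔ Sol h g) := by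
  rintro ⟨D, hD, hcor⟩
  obtain ⟨Z, q, hZ, hq, hne, h⟩ := four_core
  refine not_computable_of (p := D) (f := fun m => inst (n := n) ι (Z m))
    ((inst_prim ι).to_comp.comp hZ) hq ?_ hD
  intro m
  have hnz : ∀ j : Fin 4, h4 j ≠ [] ∧ g4 (Z m) j ≠ [] := by
    intro j
    fin_cases j
    · exact ⟨by simp [h4], by simp [g4]⟩
    · exact ⟨by simp [h4], by simp [g4]⟩
    · exact ⟨by simp [h4], hne m⟩
    · exact ⟨by simp [h4], by simp [g4]⟩
  have h1 := hcor (fun i => (h4 (idx i)).map ι) (fun i => (g4 (Z m) (idx i)).map ι)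
    (fun i => ⟨by simpa using (hnz (idx i)).1, by simpa using (hnz (idx i)).2⟩)
    (fun i => ⟨by
      intro a ha
      rw [List.mem_map] at ha
      obtain ⟨b, _, rfl⟩ := ha
      exact ⟨b, rfl⟩, by
      intro a ha
      rw [List.mem_map] at ha
      obtain ⟨b, _, rfl⟩ := ha
      exact ⟨b, rfl⟩⟩)
  have h2 := sol_map ι hι (fun i : Fin n => h4 (idx i)) (fun i : Fin n => g4 (Z m) (idx i))
  have h3 := sol_idx hn h4 (g4 (Z m))
  rw [h m, ← h3, ← h2, ← h1]
  rfl

end Pool.Agent.H97.Pcp
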