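import Pool.Agent.H97.Pcp.Final

/-!
# `PCP(4)` is undecidable, and the implication from `GPCP(n)` to `PCP(n + 1)`

`PCP(n + 1)` is undecidable for every `n ≥ 3`; hence the implication of the first question holds for
every `n ≥ 3` and, since `GPCP(2)` (and with it `GPCP(1)`) is decidable, for every `n ≥ 1`. The
implication of the second question holds for every `n` except possibly `n = 3`.

Library file (no hand-in). Description of `result`:

Proves: (1) For every n >= 3, PCP(n+1) is undecidable; (2) if GPCP(2) is decidable (the theorem listed as known), then for every n >= 1: GPCP(n) undecidable implies PCP(n+1) undecidable, and for every n >= 1 other than 3: GPCP(n) undecidable implies PCP(n) undecidable.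
Definitions: PCP n: for morphisms given by n words h(i) and n words g(i) over the natural numbers as letters, there is a nonempty w with h(w)=g(w); GPCP n: for h, g and words p1,p2,s1,s2 there is a word w with p1 h(w) s1 = p2 g(w) s2; (un)decidable refers to Mathlib's ComputablePred.
Relation: Answers Q1 (yes), in full when combined with the listed theorem that GPCP(2) is decidable: for n >= 3 part (1) proves the conclusion without any hypothesis (the case n = 3, PCP(4), is new; PCP(5) is due to Neary 2015), and for n <= 2 the premise is false by the listed theorem, which part (2) uses as a hypothesis. Partial answer to Q2: yes for every n except n = 3. Method (new): the solutions of the pairs (10^6,10), (10^6,0), (1,z), (1,0) are the complete histories of a binary tag system with deletion number 6 whose long production also produces the initial word. With helper69 (computability) and helper78 (model).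
-/

set_option autoImplicit false

namespace Pool.Agent.H97.Pcp.FourLetters

open Pool.Agent.H97.Pcp (fin_prim)

/-- `PCP(n)`: some nonempty word over the `n` letters has the same image under the two morphisms
with letter images `I.1 i` and `I.2 i` (words over the natural numbers as letters). -/
def PCP (n : ℕ) (I : (Fin n → List ℕ) × (Fin n → List ℕ)) : Prop :=
  ∃ w : List (Fin n), w ≠ [] ∧ w.flatMap I.1 = w.flatMap I.2

/-- `GPCP(n)`: an instance is `((h, g), ((p₁, p₂), (s₁, s₂)))`, and it is positive if
`p₁ h(w) s₁ = p₂ g(w) s₂` for some word `w` over the `n` letters. -/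
def GPCP (n : ℕ)
    (I : ((Fin n → List ℕ) × (Fin n → List ℕ)) × ((List ℕ × List ℕ) × (List ℕ × List ℕ))) : Prop :=
  ∃ w : List (Fin n), I.2.1.1 ++ w.flatMap I.1.1 ++ I.2.2.1 = I.2.1.2 ++ w.flatMap I.1.2 ++ I.2.2.2

theorem pcp_undecidable {n : ℕ} (hn : 4 ≤ n) : ¬ ComputablePred (PCP n) := by
  intro h
  exact Pool.Agent.H97.Pcp.many hn (ι := fun b : Bool => b.toNat) (by
    intro a b hab
    cases a <;> cases b <;> simp_all) ⟨PCP n, h, fun h' g' _ _ => Iff.rfl⟩

/-- A one-letter instance with its letter doubled. -/
def dbl (I : ((Fin 1 → List ℕ) × (Fin 1 → List ℕ)) × ((List ℕ × List ℕ) × (List ℕ × List ℕ))) :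
    ((Fin 2 → List ℕ) × (Fin 2 → List ℕ)) × ((List ℕ × List ℕ) × (List ℕ × List ℕ)) :=
  ((fun _ => I.1.1 0, fun _ => I.1.2 0), I.2)

theorem dbl_prim : Primrec dbl := by
  refine Primrec.pair (Primrec.pair (fin_prim fun _ => ?_) (fin_prim fun _ => ?_)) Primrec.snd
  · exact Primrec.fin_app.comp (Primrec.fst.comp Primrec.fst) (Primrec.const 0)
  · exact Primrec.fin_app.comp (Primrec.snd.comp Primrec.fst) (Primrec.const 0)

theorem gpcp_one (h : ComputablePred (GPCP 2)) : ComputablePred (GPCP 1) := by
  refine h.computable_of_manyOneReducible ⟨dbl, dbl_prim.to_comp, ?_⟩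
  intro I
  have e : ∀ (f : Fin 1 → List ℕ) (x : List (Fin 1)), x.flatMap f = x.flatMap (fun _ => f 0) := by
    intro f x
    apply List.flatMap_congr
    intro i _
    rw [Subsingleton.elim i 0]
  constructor
  · rintro ⟨w, hw⟩
    refine ⟨w.map (fun _ => 0), ?_⟩
    show I.2.1.1 ++ (w.map (fun _ => 0)).flatMap (fun _ => I.1.1 0) ++ I.2.2.1 =
      I.2.1.2 ++ (w.map (fun _ => 0)).flatMap (fun _ => I.1.2 0) ++ I.2.2.2
    rw [List.flatMap_map, List.flatMap_map, ← e, ← e]
    exact hw
  · rintro ⟨w, hw⟩
    refine ⟨w.map (fun _ => 0), ?_⟩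
    rw [List.flatMap_map, List.flatMap_map]
    exact hw

/-- (1) `PCP(n + 1)` is undecidable for every `n ≥ 3`, so that the implication of Q1 holds for every
`n ≥ 3`. (2) With the known decidability of `GPCP(2)`, the implication of Q1 holds for every
`n ≥ 1`, and the implication of Q2 for every `n ≥ 1` except possibly `n = 3`. -/
theorem result :
    (∀ n : ℕ, 3 ≤ n → ¬ ComputablePred (PCP (n + 1))) ∧
    (ComputablePred (GPCP 2) →
      (∀ n : ℕ, 1 ≤ n → ¬ ComputablePred (GPCP n) → ¬ ComputablePred (PCP (n + 1))) ∧
      ∀ n : ℕ, 1 ≤ n → n ≠ 3 → ¬ ComputablePred (GPCP n) → ¬ ComputablePred (PCP n)) := by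
  refine ⟨fun n hn => pcp_undecidable (by omega), fun h2 => ⟨?_, ?_⟩⟩
  · intro n hn hG
    rcases Nat.lt_or_ge n 3 with h3 | h3
    · exfalso
      apply hG
      rcases (show n = 1 ∨ n = 2 by omega) with rfl | rfl
      · exact gpcp_one h2
      · exact h2
    · exact pcp_undecidable (by omega)
  · intro n hn hn3 hG
    rcases Nat.lt_or_ge n 3 with h3 | h3
    · exfalso
      apply hG
      rcases (show n = 1 ∨ n = 2 by omega) with rfl | rfl
      · exact gpcp_one h2
      · exact h2
    · exact pcp_undecidable (by omega)

end Pool.Agent.H97.Pcp.FourLetters
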