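import Pool.Agent.H97.Pcp.Final

/-!
# The Post correspondence problem for lists of length four is undecidable

Already the four pairs `(1 0 ^ 6, 1 0)`, `(1 0 ^ 6, 0)`, `(1, z)`, `(1, 0)`, where only the word `z`
depends on the input, form an undecidable family. Hence `PCP(n)` is undecidable for every `n ≥ 4`,
already for nonerasing morphisms and a binary alphabet.

Library file (no hand-in). Description of `result`:

Proves: (1) The set of the binary words z for which the PCP instance with the four pairs (1000000,10), (1000000,0), (1,z), (1,0) is positive is not computable; (2) for every n >= 4 no computable predicate D satisfies D(g,h) <-> (g(w)=h(w) for some nonempty w) for all pairs (g,h) of lists of n nonempty words over the two-letter alphabet, so PCP(n) is undecidable for every n >= 4, already over a binary alphabet.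
Definitions: Positive g h (g, h lists of n binary words): there is a nonempty list w of indices with w.flatMap g = w.flatMap h, i.e. g(w)=h(w); letters are Booleans, true is 1 and false is 0; computable means Mathlib's ComputablePred.
Relation: Partial answer to Q1: the known bounds 3 <= n <= 5 for the least n with PCP(n) undecidable (PCP(5): Neary 2015) become 3 <= n <= 4; only PCP(3) remains open. Method (new): solutions of the four pairs are exactly the nonempty words s, 6 | |s|, equal to their own sweep under the binary tag system with deletion number 6 and rules 0 -> 0, 1 -> w1 (w1 ends in 0 and is coded in z); w1 is built so that it produces its own initial word (no start or end pair is needed) and simulates a universal tag system. With helper69 (computability) and helper78 (model).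
-/

set_option autoImplicit false

namespace Pool.Agent.H97.Pcp.FourPairs

/-- The instance `(g, h)` with lists of length `n` is positive: some nonempty word over the `n`
indices has the same image under the two homomorphisms with letter images `g i` and `h i`. -/
def Positive {n : ℕ} (g h : Fin n → List Bool) : Prop :=
  ∃ w : List (Fin n), w ≠ [] ∧ w.flatMap g = w.flatMap h

/-- (1) The set of the binary words `z` such that the instance with the four pairs
`(1000000, 10)`, `(1000000, 0)`, `(1, z)`, `(1, 0)` is positive is not computable.
(2) For every `n ≥ 4`, `PCP(n)` is undecidable: no computable predicate is correct on all instances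
with lists of length `n` of nonempty words over a two-letter alphabet. -/
theorem result :
    (¬ ComputablePred fun z : List Bool => Positive
      ![[true, false, false, false, false, false, false],
        [true, false, false, false, false, false, false], [true], [true]]
      ![[true, false], [false], z, [false]]) ∧
    ∀ n : ℕ, 4 ≤ n → ¬ ∃ D : (Fin n → List Bool) × (Fin n → List Bool) → Prop,
      ComputablePred D ∧ ∀ g h : Fin n → List Bool, (∀ i, g i ≠ [] ∧ h i ≠ []) →
        (D (g, h) ↔ Positive g h) := by
  refine ⟨Pool.Agent.H97.Pcp.four, ?_⟩
  rintro n hn ⟨D, hD, h⟩
  exact Pool.Agent.H97.Pcp.many hn (ι := id) Function.injective_id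
    ⟨D, hD, fun g' h' hne _ => h g' h' hne⟩

end Pool.Agent.H97.Pcp.FourPairs
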