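import Pool.Agent.H97.Tag.Dyn
import Pool.Agent.H97.Pcp.Defs

/-!
# The evolution of a group of blocks
-/

set_option autoImplicit false

namespace Pool.Agent.H97.Pcp

open Finset Pool.Agent.H97.Tag

/-- The pattern of the long production: deletion number `ν`, length `E + 1`, letters `true` at the
offset `1` and at the `mt` offsets `ν * δ j`. -/
structure Pat where
  /-- deletion number -/
  ν : ℕ
  /-- the length is `E + 1` -/
  E : ℕ
  /-- number of offsets divisible by `ν` -/
  mt : ℕ
  /-- the offsets -/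
  δ : ℕ → ℕ

namespace Pat

variable (A : Pat)

/-- The offsets of the letters `true`. -/
def Ol : List ℕ := 0 :: 1 :: (List.range (A.mt - 1)).map (fun j => A.ν * A.δ (j + 1))

/-- Nothing is read in a block at such a position. -/
def Dead (p : ℕ) : Prop := ¬ A.ν ∣ p ∧ ¬ A.ν ∣ p + 1

/-- Structural conditions. -/
structure Ok : Prop where
  hν : 3 ≤ A.ν
  mpos : 1 ≤ A.mt
  zero : A.δ 0 = 0
  lt : ∀ d ∈ A.Ol, d < A.E + 1
  sorted : A.Ol.Pairwise (· < ·)

/-- One sweep. -/
def pass (w : List Bool) : List Bool := rd A.ν (wd A.Ol A.E) 0 w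

variable {A}

theorem Ok.pos (h : A.Ok) : 0 < A.ν := by have := h.hν; omega

theorem reads_neg_one (h : A.Ok) {p : ℕ} (hp : A.ν ∣ p + 1) :
    reads A.ν A.Ol p = [(p + 1) / A.ν] := by
  have hν := h.hν
  have h0 : ¬ A.ν ∣ p := by
    intro h'
    have := (Nat.dvd_add_right h').1 hp
    rw [Nat.dvd_one] at this
    omega
  unfold reads Ol
  rw [List.filter_cons, if_neg (by simpa using h0), List.filter_cons, if_pos (by simpa using hp)]
  have : (List.map (fun j => A.ν * A.δ (j + 1)) (List.range (A.mt - 1))).filter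
      (fun d => A.ν ∣ p + d) = [] := by
    rw [List.filter_eq_nil_iff]
    intro d hd
    rw [List.mem_map] at hd
    obtain ⟨j, _, rfl⟩ := hd
    simp only [decide_eq_true_eq]
    intro h2
    exact h0 ((Nat.dvd_add_left (Dvd.intro _ rfl)).1 h2)
  rw [this]
  rfl

theorem reads_zero (h : A.Ok) {p : ℕ} (hp : A.ν ∣ p) :
    reads A.ν A.Ol p = (List.range A.mt).map (fun j => p / A.ν + A.δ j) := by
  have hν := h.hν
  have hm := h.mpos
  have h0 : ¬ A.ν ∣ p + 1 := by
    intro h'
    have := (Nat.dvd_add_right hp).1 h'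
    rw [Nat.dvd_one] at this
    omega
  unfold reads Ol
  rw [List.filter_cons, if_pos (by simpa using hp), List.filter_cons, if_neg (by simpa using h0)]
  have : (List.map (fun j => A.ν * A.δ (j + 1)) (List.range (A.mt - 1))).filter
      (fun d => A.ν ∣ p + d) = List.map (fun j => A.ν * A.δ (j + 1)) (List.range (A.mt - 1)) := by
    rw [List.filter_eq_self]
    intro d hd
    rw [List.mem_map] at hd
    obtain ⟨j, _, rfl⟩ := hd
    simp only [decide_eq_true_eq]
    exact Dvd.dvd.add hp (Dvd.intro _ rfl)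
  rw [this]
  obtain ⟨n, hn⟩ : ∃ n, A.mt = n + 1 := ⟨A.mt - 1, by omega⟩
  rw [hn, Nat.add_sub_cancel, List.range_succ_eq_map, List.map_cons, List.map_cons, List.map_map,
    List.map_map, h.zero]
  obtain ⟨z, rfl⟩ := hp
  rw [Nat.add_zero]
  congr 1
  apply List.map_congr_left
  intro j _
  simp only [Function.comp_apply]
  rw [← Nat.mul_add, Nat.mul_div_cancel_left _ (by omega), Nat.mul_div_cancel_left _ (by omega)]

theorem reads_dead {p : ℕ} (h : A.Dead p) : reads A.ν A.Ol p = [] := by
  unfold reads Ol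
  rw [List.map_eq_nil_iff, List.filter_eq_nil_iff]
  intro d hd
  rw [List.mem_cons, List.mem_cons, List.mem_map] at hd
  simp only [decide_eq_true_eq]
  rcases hd with rfl | rfl | ⟨j, _, rfl⟩
  · exact h.1
  · exact h.2
  · intro h2
    exact h.1 ((Nat.dvd_add_left (Dvd.intro _ rfl)).1 h2)

theorem dead_of {p c : ℕ} (hc : 2 ≤ c) (hc2 : c < A.ν) (h : A.ν ∣ p + c) : A.Dead p := by
  constructor
  · intro h1
    have := Nat.le_of_dvd (by omega) ((Nat.dvd_add_right h1).1 h)
    omega
  · intro h1
    obtain ⟨c, rfl⟩ : ∃ c', c = 1 + c' := ⟨c - 1, by omega⟩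
    rw [← Nat.add_assoc] at h
    have := Nat.le_of_dvd (by omega) ((Nat.dvd_add_right h1).1 h)
    omega

end Pat

/-- The tracked blocks of a group: their number, initial positions minus `E * j`, the stage at which
they die or multiply, and which of them multiply. -/
structure Grp where
  /-- number of blocks -/
  m : ℕ
  /-- initial positions -/
  d : ℕ → ℕ
  /-- last stage -/
  dt : ℕ → ℕ
  /-- does it multiply -/
  mul : ℕ → Bool

namespace Grp

variable (G : Grp) (A : Pat)

/-- The number of letters `true` read in the block `j` in the pass `u`. -/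
def rdn (j u : ℕ) : ℕ :=
  if u < G.dt j then 1 else if u = G.dt j ∧ G.mul j = true then A.mt else 0

/-- The number of letters `true` read before the block `j` in the pass `u`. -/
def Iu (u j : ℕ) : ℕ := ∑ i ∈ range j, G.rdn A i u

/-- The basic quantity. -/
def Q (t j : ℕ) : ℕ :=
  G.d j + Wf A.ν t + A.E * ∑ u ∈ range t, G.Iu A u j * A.ν ^ u

/-- The position of the block `j` at stage `t + 1`. -/
def X (t j : ℕ) : ℕ := G.Q A t j / A.ν ^ t + A.E * G.Iu A t j

/-- The positions of the blocks at stage `s ≥ 1` which descend from the block `j`. -/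
def AS (s j : ℕ) : List ℕ :=
  if s ≤ G.dt j then [G.X A (s - 1) j]
  else if s = G.dt j + 1 ∧ G.mul j = true then
    (List.range A.mt).map (fun i => G.X A (G.dt j - 1) j / A.ν + A.δ i +
      A.E * (G.Iu A (G.dt j) j + i))
  else []

theorem Q_succ (t j : ℕ) :
    G.Q A (t + 1) j = G.Q A t j + A.ν ^ t + A.E * (G.Iu A t j * A.ν ^ t) := by
  unfold Q
  rw [Wf_succ, Finset.sum_range_succ]
  ring

theorem X_add_one (hν : 0 < A.ν) (t j : ℕ) (h : A.ν ^ t ∣ G.Q A t j) :
    A.ν ^ t * (G.X A t j + 1) = G.Q A (t + 1) j := by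
  obtain ⟨z, hz⟩ := h
  unfold X
  rw [Q_succ, hz, Nat.mul_div_cancel_left _ (pow_pos hν _)]
  ring

/-- The conditions on the blocks of the group. -/
structure Cond (K : ℕ) : Prop where
  persist : ∀ j < G.m, ∀ s, 1 ≤ s → s < G.dt j → s < K → A.ν ^ s ∣ G.Q A s j
  die : ∀ j < G.m, G.mul j = false → ∀ s, 1 ≤ s → s = G.dt j → s < K →
    A.ν ^ s ∣ G.Q A s j + A.ν ^ (s - 1)
  multiply : ∀ j < G.m, G.mul j = true → ∀ s, 1 ≤ s → s = G.dt j →
    ∃ z, G.Q A s j = A.ν ^ (s - 1) * (1 + A.ν * z) ∧
      ∀ i < A.mt, A.Dead (z + A.δ i + A.E * (G.Iu A s j + i))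
  four : ∀ j < G.m, 4 ≤ G.dt j
  small : ∀ j < G.m, G.mul j = true → G.dt j + 1 < K

variable {G A}

/-- One pass for the descendants of one block. -/
theorem step_AS {K : ℕ} (hA : A.Ok) (hC : G.Cond A K) {j : ℕ} (hj : j < G.m) {s : ℕ}
    (hs : 1 ≤ s) (hsK : s < K) :
    ((G.AS A s j).flatMap (reads A.ν A.Ol)).length = G.rdn A j s ∧
    ixs A.E (G.Iu A s j) ((G.AS A s j).flatMap (reads A.ν A.Ol)) = G.AS A (s + 1) j := by
  have hν := hA.hν
  have h4 := hC.four j hj
  obtain ⟨t, rfl⟩ : ∃ t, s = t + 1 := ⟨s - 1, by omega⟩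
  have hpt : ∀ t', t' < G.dt j → t' < K → A.ν ^ t' ∣ G.Q A t' j := by
    intro t' h1 h2
    rcases Nat.eq_zero_or_pos t' with rfl | h
    · simp
    · exact hC.persist j hj t' h h1 h2
  rcases lt_trichotomy (t + 1) (G.dt j) with hlt | heq | hgt
  · -- persists
    have e1 : G.AS A (t + 1) j = [G.X A t j] := by
      unfold AS
      rw [if_pos (by omega)]
      simp
    have e2 : G.AS A (t + 1 + 1) j = [G.X A (t + 1) j] := by
      unfold AS
      rw [if_pos (by omega)]
      simp
    have hx := G.X_add_one A (by omega) t j (hpt t (by omega) (by omega))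
    obtain ⟨z, hz⟩ := hpt (t + 1) hlt hsK
    have hx1 : G.X A t j + 1 = A.ν * z := by
      have : A.ν ^ t * (G.X A t j + 1) = A.ν ^ t * (A.ν * z) := by
        rw [hx, hz]; ring
      exact Nat.eq_of_mul_eq_mul_left (pow_pos (by omega) _) this
    have hr : reads A.ν A.Ol (G.X A t j) = [z] := by
      rw [Pat.reads_neg_one hA (by rw [hx1]; exact Dvd.intro _ rfl), hx1,
        Nat.mul_div_cancel_left _ (by omega)]
    have hd : G.rdn A j (t + 1) = 1 := by unfold rdn; rw [if_pos hlt]
    rw [e1, e2, hd]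
    simp only [List.flatMap_cons, List.flatMap_nil, List.append_nil, hr, ixs_cons, ixs_nil,
      List.length_cons, List.length_nil]
    refine ⟨by trivial, ?_⟩
    unfold X
    rw [hz, Nat.mul_div_cancel_left _ (pow_pos (by omega) _)]
  · -- dies or multiplies
    have e1 : G.AS A (t + 1) j = [G.X A t j] := by
      unfold AS
      rw [if_pos (by omega)]
      simp
    have hx := G.X_add_one A (by omega) t j (hpt t (by omega) (by omega))
    by_cases hcl : G.mul j = true
    · obtain ⟨z, hz, _⟩ := hC.multiply j hj hcl (t + 1) (by omega) heq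
      simp only [Nat.add_sub_cancel] at hz
      have hx1 : G.X A t j = A.ν * z := by
        have : A.ν ^ t * (G.X A t j + 1) = A.ν ^ t * (1 + A.ν * z) := by
          rw [hx, hz]
        have := Nat.eq_of_mul_eq_mul_left (pow_pos (by omega) _) this
        omega
      have hr : reads A.ν A.Ol (G.X A t j) = (List.range A.mt).map (fun i => z + A.δ i) := by
        rw [Pat.reads_zero hA (by rw [hx1]; exact Dvd.intro _ rfl), hx1]
        rw [Nat.mul_div_cancel_left _ (by omega)]
      have hd : G.rdn A j (t + 1) = A.mt := by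
        unfold rdn
        rw [if_neg (by omega), if_pos ⟨heq, hcl⟩]
      rw [e1, hd]
      simp only [List.flatMap_cons, List.flatMap_nil, List.append_nil, hr, List.length_map,
        List.length_range, true_and]
      rw [Dat.ixs_map_range]
      unfold AS
      rw [if_neg (by omega), if_pos ⟨by omega, hcl⟩, ← heq]
      simp only [Nat.add_sub_cancel]
      rw [hx1, Nat.mul_div_cancel_left _ (by omega)]
    · have hz := hC.die j hj (by simpa using hcl) (t + 1) (by omega) heq hsK
      simp only [Nat.add_sub_cancel] at hz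
      have hdead : A.Dead (G.X A t j) := by
        obtain ⟨z, hz⟩ := hz
        apply Pat.dead_of (c := 2) le_rfl (by omega)
        refine ⟨z, ?_⟩
        have : A.ν ^ t * (G.X A t j + 1 + 1) = A.ν ^ t * (A.ν * z) := by
          rw [Nat.mul_add _ _ 1, hx, Nat.mul_one, hz]; ring
        exact Nat.eq_of_mul_eq_mul_left (pow_pos (by omega) _) this
      have hd : G.rdn A j (t + 1) = 0 := by
        unfold rdn
        rw [if_neg (by omega), if_neg (by rintro ⟨_, h⟩; exact hcl h)]
      rw [e1, hd]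
      simp only [List.flatMap_cons, List.flatMap_nil, List.append_nil, Pat.reads_dead hdead,
        List.length_nil, ixs_nil, true_and]
      unfold AS
      rw [if_neg (by omega), if_neg (by rintro ⟨_, h⟩; exact hcl h)]
  · -- after its death
    have hd : G.rdn A j (t + 1) = 0 := by
      unfold rdn
      rw [if_neg (by omega), if_neg (by rintro ⟨h, _⟩; omega)]
    have e2 : G.AS A (t + 1 + 1) j = [] := by
      unfold AS
      rw [if_neg (by omega), if_neg (by rintro ⟨h, _⟩; omega)]
    rw [hd, e2]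
    suffices h : (G.AS A (t + 1) j).flatMap (reads A.ν A.Ol) = [] by
      rw [h]; exact ⟨rfl, rfl⟩
    unfold AS
    rw [if_neg (by omega)]
    split_ifs with h
    · rw [List.flatMap_eq_nil_iff]
      intro p hp
      rw [List.mem_map] at hp
      obtain ⟨i, hi, rfl⟩ := hp
      rw [List.mem_range] at hi
      obtain ⟨z, hz, hdead⟩ := hC.multiply j hj h.2 (G.dt j) (by omega) rfl
      have hx := G.X_add_one A (by omega) (G.dt j - 1) j
        (hpt _ (by omega) (by have := hC.small j hj h.2; omega))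
      rw [show G.dt j - 1 + 1 = G.dt j by omega] at hx
      have hx1 : G.X A (G.dt j - 1) j = A.ν * z := by
        have : A.ν ^ (G.dt j - 1) * (G.X A (G.dt j - 1) j + 1) =
            A.ν ^ (G.dt j - 1) * (1 + A.ν * z) := by rw [hx, hz]
        have := Nat.eq_of_mul_eq_mul_left (pow_pos (by omega) _) this
        omega
      rw [hx1, Nat.mul_div_cancel_left _ (by omega)]
      exact Pat.reads_dead (hdead i hi)
    · rfl

variable (G A)

/-- The positions at stage `s ≥ 1`, with dead blocks before and after at stage `1`. -/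
def pss (s : ℕ) (P₀ P : List ℕ) : List ℕ :=
  (if s = 1 then P₀ else []) ++ ((List.range G.m).flatMap (G.AS A s) ++ if s = 1 then P else [])

/-- The length at stage `s` is `Sm B s / ν ^ (s - 1)`, up to a shift. -/
def Sm (B s : ℕ) : ℕ := B + A.E * ∑ u ∈ range s, G.Iu A u G.m * A.ν ^ u

/-- The length at stage `s ≥ 1`. -/
def Ls (B s : ℕ) : ℕ := G.Sm A B s / A.ν ^ (s - 1)

variable {G A}

theorem stage_succ {K B : ℕ} {P₀ P : List ℕ} (hA : A.Ok) (hC : G.Cond A K)
    (hP₀ : ∀ p ∈ P₀, A.Dead p) (hP : ∀ p ∈ P, A.Dead p) {s : ℕ} (hs : 1 ≤ s) (hsK : s < K)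
    (hL : A.ν ^ s ∣ G.Sm A B s) (hg : Good A.E (G.Ls A B s) (G.pss A s P₀ P)) :
    A.ν ∣ G.Ls A B s ∧
    A.pass (blk A.Ol (G.Ls A B s) (G.pss A s P₀ P)) =
      blk A.Ol (G.Ls A B (s + 1)) (G.pss A (s + 1) P₀ P) ∧
    Good A.E (G.Ls A B (s + 1)) (G.pss A (s + 1) P₀ P) := by
  have hν := hA.hν
  obtain ⟨z, hz⟩ := hL
  have hνs : 0 < A.ν ^ (s - 1) := pow_pos (by omega) _
  have hLs : G.Ls A B s = A.ν * z := by
    unfold Ls
    rw [hz]
    have : A.ν ^ s = A.ν ^ (s - 1) * A.ν := by
      rw [← pow_succ]; congr 1; omega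
    rw [this, Nat.mul_assoc, Nat.mul_div_cancel_left _ hνs]
  have hr : (G.pss A s P₀ P).flatMap (reads A.ν A.Ol) =
      (List.range G.m).flatMap (fun j => (G.AS A s j).flatMap (reads A.ν A.Ol)) := by
    unfold pss
    rw [List.flatMap_append, List.flatMap_append, List.flatMap_assoc]
    have h1 : (if s = 1 then P else []).flatMap (reads A.ν A.Ol) = [] := by
      rw [List.flatMap_eq_nil_iff]
      intro p hp
      split_ifs at hp with h
      · exact Pat.reads_dead (hP p hp)
      · simp at hp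
    have h2 : (if s = 1 then P₀ else []).flatMap (reads A.ν A.Ol) = [] := by
      rw [List.flatMap_eq_nil_iff]
      intro p hp
      split_ifs at hp with h
      · exact Pat.reads_dead (hP₀ p hp)
      · simp at hp
    rw [h1, h2, List.append_nil, List.nil_append]
  have hlen : ((G.pss A s P₀ P).flatMap (reads A.ν A.Ol)).length = G.Iu A s G.m := by
    rw [hr, List.length_flatMap]
    unfold Iu
    have : ∀ n, n ≤ G.m → (List.map (fun j => ((G.AS A s j).flatMap (reads A.ν A.Ol)).length)
        (List.range n)).sum = ∑ i ∈ range n, G.rdn A i s := by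
      intro n
      induction n with
      | zero => intro _; rfl
      | succ n ih =>
        intro hn
        rw [List.range_succ, List.map_append, List.sum_append, ih (by omega),
          Finset.sum_range_succ]
        simp only [List.map_cons, List.map_nil, List.sum_cons, List.sum_nil, Nat.add_zero]
        rw [(step_AS hA hC (show n < G.m by omega) hs hsK).1]
    exact this G.m le_rfl
  have hix : ixs A.E 0 ((G.pss A s P₀ P).flatMap (reads A.ν A.Ol)) = G.pss A (s + 1) P₀ P := by
    rw [hr, Dat.ixs_flatMap]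
    unfold pss
    rw [if_neg (by omega), if_neg (by omega), List.append_nil, List.nil_append]
    apply List.flatMap_congr
    intro j hj
    rw [List.mem_range] at hj
    have : (0 + ∑ i ∈ range j, ((G.AS A s i).flatMap (reads A.ν A.Ol)).length) = G.Iu A s j := by
      rw [zero_add]
      unfold Iu
      apply Finset.sum_congr rfl
      intro i hi
      rw [Finset.mem_range] at hi
      exact (step_AS hA hC (show i < G.m by omega) hs hsK).1
    rw [this]
    exact (step_AS hA hC hj hs hsK).2
  have hL2 : G.Ls A B (s + 1) = z + A.E * G.Iu A s G.m := by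
    unfold Ls
    have : G.Sm A B (s + 1) = A.ν ^ s * (z + A.E * G.Iu A s G.m) := by
      have h1 : G.Sm A B (s + 1) = G.Sm A B s + A.E * (G.Iu A s G.m * A.ν ^ s) := by
        unfold Sm
        rw [Finset.sum_range_succ]
        ring
      rw [h1, hz]
      ring
    rw [this, Nat.add_sub_cancel, Nat.mul_div_cancel_left _ (pow_pos (by omega) _)]
  rw [hLs] at hg ⊢
  obtain ⟨h1, h2⟩ := rd_blk (ν := A.ν) (by omega) hA.lt hA.sorted hg
  rw [hlen, hix, ← hL2] at h1 h2
  exact ⟨Dvd.intro _ rfl, h1, h2⟩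

/-- All stages of a group. -/
theorem stages {K B : ℕ} {P₀ P : List ℕ} (hA : A.Ok) (hC : G.Cond A K)
    (hP₀ : ∀ p ∈ P₀, A.Dead p) (hP : ∀ p ∈ P, A.Dead p)
    (hL : ∀ s, 1 ≤ s → s < K → A.ν ^ s ∣ G.Sm A B s)
    (hg : Good A.E (G.Ls A B 1) (G.pss A 1 P₀ P)) :
    ∀ t, t < K →
      (A.pass)^[t] (blk A.Ol (G.Ls A B 1) (G.pss A 1 P₀ P)) =
        blk A.Ol (G.Ls A B (t + 1)) (G.pss A (t + 1) P₀ P) ∧
      Good A.E (G.Ls A B (t + 1)) (G.pss A (t + 1) P₀ P) ∧
      (t + 1 < K → A.ν ∣ G.Ls A B (t + 1)) := by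
  intro t
  induction t with
  | zero =>
    intro _
    refine ⟨rfl, hg, fun h => ?_⟩
    exact (stage_succ hA hC hP₀ hP (le_refl 1) h (hL 1 le_rfl h) hg).1
  | succ t ih =>
    intro ht
    obtain ⟨h1, h2, h3⟩ := ih (by omega)
    obtain ⟨h4, h5, h6⟩ := stage_succ hA hC hP₀ hP (show 1 ≤ t + 1 by omega) ht
      (hL _ (by omega) ht) h2
    refine ⟨?_, h6, fun h => ?_⟩
    · rw [Function.iterate_succ_apply', h1, h5]
    · exact (stage_succ hA hC hP₀ hP (show 1 ≤ t + 1 + 1 by omega) h (hL _ (by omega) h) h6).1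

theorem Iu_zero {K : ℕ} (hC : G.Cond A K) {j : ℕ} (hj : j ≤ G.m) : G.Iu A 0 j = j := by
  unfold Iu
  rw [Finset.sum_congr rfl (g := fun _ => 1)]
  · simp
  · intro i hi
    rw [Finset.mem_range] at hi
    have := hC.four i (by omega)
    unfold rdn
    rw [if_pos (by omega)]

theorem pss_one {K : ℕ} (hC : G.Cond A K) (P₀ P : List ℕ) :
    G.pss A 1 P₀ P = P₀ ++ ((List.range G.m).map (fun j => G.d j + A.E * j) ++ P) := by
  unfold pss
  rw [if_pos rfl, if_pos rfl]
  congr 2
  rw [List.map_eq_flatMap]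
  apply List.flatMap_congr
  intro j hj
  rw [List.mem_range] at hj
  have := hC.four j hj
  unfold AS
  rw [if_pos (by omega)]
  simp only [Nat.sub_self]
  unfold X Q
  rw [Iu_zero hC hj.le]
  simp

theorem Ls_one {K B : ℕ} (hC : G.Cond A K) : G.Ls A B 1 = B + A.E * G.m := by
  unfold Ls Sm
  simp [Iu_zero hC le_rfl]

end Grp

/-- The first pass over a word with one block. -/
theorem first_pass {A : Pat} (hA : A.Ok) {n c : ℕ} (hc : A.ν ∣ c)
    (hg : Good A.E (A.ν * n) [c]) :
    A.pass (blk A.Ol (A.ν * n) [c]) =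
      blk A.Ol (n + A.E * A.mt) ((List.range A.mt).map (fun j => c / A.ν + A.δ j + A.E * j)) ∧
    Good A.E (n + A.E * A.mt) ((List.range A.mt).map (fun j => c / A.ν + A.δ j + A.E * j)) := by
  obtain ⟨h1, h2⟩ := rd_blk (ν := A.ν) hA.pos hA.lt hA.sorted hg
  have hr : [c].flatMap (reads A.ν A.Ol) = (List.range A.mt).map (fun j => c / A.ν + A.δ j) := by
    simp only [List.flatMap_cons, List.flatMap_nil, List.append_nil]
    rw [Pat.reads_zero hA hc]
  have hi : ixs A.E 0 ((List.range A.mt).map (fun j => c / A.ν + A.δ j)) =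
      (List.range A.mt).map (fun j => c / A.ν + A.δ j + A.E * j) := by
    rw [Dat.ixs_map_range]
    simp
  rw [hr, hi, List.length_map, List.length_range] at h1 h2
  exact ⟨h1, h2⟩

end Pool.Agent.H97.Pcp
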