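import Pool.Agent.H97.Pcp.Sim

/-!
# The simulation of the aligned tag system
-/

set_option autoImplicit false

namespace Pool.Agent.H97.Pcp

open Relation Pool.Agent.H97.Tag

variable {w1 : List Bool} {C : List (List Bool)} {K Λ : ℕ} {d : ℕ} {tab : List (List ℕ)}

theorem Zr_append {u v : List Bool} (h1 : Zr 1 u) (h2 : Zr 1 v) (hu : 6 ∣ u.length) :
    Zr 1 (u ++ v) := by
  intro i hi hmod
  by_cases h : i < u.length
  · rw [List.getD_append _ _ _ _ h]
    exact h1 i h hmod
  · rw [List.getD_append_right _ _ _ _ (by omega)]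
    rw [List.length_append] at hi
    apply h2 _ (by omega)
    obtain ⟨k, hk⟩ := hu
    omega

theorem Zr_nil : Zr 1 [] := by
  intro i hi
  simp at hi

/-- The conditions on the words of the letters. -/
structure Cells (d : ℕ) (tab : List (List ℕ)) (w1 : List Bool) (C : List (List Bool)) (K Λ : ℕ) :
    Prop where
  chkW : ChkW w1
  chkC : ChkC C Λ
  h3 : (3 * Λ) % 6 = 0
  h5 : Λ % 5 = 0
  pos : 0 < Λ
  hK : 4 ≤ K
  chkN : ∀ y < C.length, prod d tab y ≠ [] → ChkN d tab w1 C K Λ y
  chkS : ∀ y < C.length, prod d tab y = [] → ChkS w1 C Λ y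

theorem Chk.cells {v : List ℕ} {c : Cert} (h : Chk d tab v c) :
    Cells d tab c.1.1 c.1.2 c.2.1 c.2.2.1 := by
  obtain ⟨h1, h2, ⟨h3, h4, h5, h6⟩, h7, h8, _⟩ := h
  exact ⟨h1, h2, h3, h4, h5, h6, h7, h8⟩

namespace Cells

theorem len_getD (F : Cells d tab w1 C K Λ) {y : ℕ} (hy : y < C.length) :
    (C.getD y []).length = Λ := (F.chkC y hy).1

theorem cellsW_length (F : Cells d tab w1 C K Λ) {l : List ℕ} (hl : ∀ y ∈ l, y < C.length) :
    (cellsW C l).length = Λ * l.length := by
  induction l with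
  | nil => simp [cellsW]
  | cons y l ih =>
    have h1 := ih (fun z hz => hl z (by simp [hz]))
    unfold cellsW at *
    rw [List.flatMap_cons, List.length_append, h1, F.len_getD (hl y (by simp)), List.length_cons]
    ring

/-- The first pass over the group of three letters. -/
theorem group_pass (F : Cells d tab w1 C K Λ) {y y2 y3 : ℕ} (hy : y < C.length)
    (hy2 : y2 < C.length) (hy3 : y3 < C.length) :
    pass w1 (cellsW C [y, y2, y3]) = pass w1 (gw C Λ y) := by
  have h3 := F.h3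
  have l1 := F.len_getD hy
  have l2 := F.len_getD hy2
  have l3 := F.len_getD hy3
  obtain ⟨n, hn⟩ : ∃ n, 3 * Λ = 6 * n := ⟨3 * Λ / 6, by omega⟩
  have e1 : cellsW C [y, y2, y3] = C.getD y [] ++ (C.getD y2 [] ++ C.getD y3 []) := by
    simp [cellsW]
  rw [e1]
  unfold pass gw
  apply rd_congr' (k := n)
  · rw [List.length_append, List.length_append, l1, l2, l3]; omega
  · rw [List.length_append, l1, List.length_replicate]; omega
  · intro i hi
    by_cases h1 : 6 * i < Λ
    · rw [List.getD_append _ _ _ _ (by omega), List.getD_append _ _ _ _ (by omega)]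
    · have e2 : (List.replicate (2 * Λ) false).getD (6 * i - Λ) false = false := by
        by_cases h : 6 * i - Λ < 2 * Λ
        · rw [List.getD_eq_getElem _ _ (by simpa using h), List.getElem_replicate]
        · rw [List.getD_eq_default _ _ (by simpa using h)]
      have e3 : (C.getD y [] ++ List.replicate (2 * Λ) false).getD (6 * i) false = false := by
        rw [List.getD_append_right _ _ _ _ (by omega), l1, e2]
      have e4 : (C.getD y [] ++ (C.getD y2 [] ++ C.getD y3 [])).getD (6 * i) false =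
          (C.getD y2 [] ++ C.getD y3 []).getD (6 * i - Λ) false := by
        rw [List.getD_append_right _ _ _ _ (by omega), l1]
      rw [e3, e4]
      by_cases h2 : 6 * i - Λ < Λ
      · rw [List.getD_append _ _ _ _ (by omega)]
        exact (F.chkC y2 hy2).2 _ h2 (Or.inl (by omega))
      · rw [List.getD_append_right _ _ _ _ (by omega), l2]
        exact (F.chkC y3 hy3).2 _ (by omega) (Or.inr (by omega))
where
  rd_congr' {x y : List Bool} {k : ℕ} (hx : x.length = 6 * k) (hy : y.length = 6 * k)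
      (h : ∀ i < k, x.getD (6 * i) false = y.getD (6 * i) false) :
      rd 6 (rule w1) 0 x = rd 6 (rule w1) 0 y := by
    have key : ∀ x : List Bool, x.length = 6 * k → rd 6 (rule w1) 0 x =
        (List.range k).flatMap (fun i => rule w1 (x.getD (6 * i) false)) := by
      intro x hx
      have h : x = (List.range (6 * k)).map (fun i => x.getD i false) := by
        apply List.ext_getElem
        · simp [hx]
        · intro i hi1 hi2
          rw [List.getElem_map, List.getElem_range, List.getD_eq_getElem _ _ hi1]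
      conv_lhs => rw [h]
      exact rd_range (by norm_num) _ _ k
    rw [key x hx, key y hy]
    apply List.flatMap_congr
    intro i hi
    rw [List.mem_range] at hi
    rw [h i hi]

theorem group_iter (F : Cells d tab w1 C K Λ) {y y2 y3 : ℕ} (hy : y < C.length)
    (hy2 : y2 < C.length) (hy3 : y3 < C.length) {t : ℕ} (ht : 1 ≤ t) :
    (pass w1)^[t] (cellsW C [y, y2, y3]) = (pass w1)^[t] (gw C Λ y) := by
  obtain ⟨t, rfl⟩ : ∃ t', t = t' + 1 := ⟨t - 1, by omega⟩
  rw [Function.iterate_succ_apply, Function.iterate_succ_apply, F.group_pass hy hy2 hy3]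

theorem group_len (F : Cells d tab w1 C K Λ) {y y2 y3 : ℕ} (hy : y < C.length)
    (hy2 : y2 < C.length) (hy3 : y3 < C.length) : 6 ∣ (cellsW C [y, y2, y3]).length := by
  have h3 := F.h3
  rw [F.cellsW_length (by
    intro z hz
    simp only [List.mem_cons, List.not_mem_nil, or_false] at hz
    rcases hz with rfl | rfl | rfl <;> assumption)]
  simp only [List.length_cons, List.length_nil]
  omega

theorem group_dvd (F : Cells d tab w1 C K Λ) {y y2 y3 : ℕ} (hy : y < C.length)
    (hy2 : y2 < C.length) (hy3 : y3 < C.length) (hP : prod d tab y ≠ []) {t : ℕ} (ht : t < K) :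
    6 ∣ ((pass w1)^[t] (cellsW C [y, y2, y3])).length := by
  rcases Nat.eq_zero_or_pos t with rfl | h
  · exact F.group_len hy hy2 hy3
  · rw [F.group_iter hy hy2 hy3 h]
    exact Nat.dvd_of_mod_eq_zero ((F.chkN y hy hP).2.1 t ht)

/-- Words of normal letters. -/
theorem cycle (F : Cells d tab w1 C K Λ) : ∀ (k : ℕ) (v : List ℕ), v.length = 3 * k →
    (∀ y ∈ v, y < C.length ∧ prod d tab y ≠ []) →
    (∀ t < K, 6 ∣ ((pass w1)^[t] (cellsW C v)).length) ∧
    (pass w1)^[K] (cellsW C v) = cellsW C (rd 3 (prod d tab) 0 v) ∧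
    Zr 1 ((pass w1)^[2] (cellsW C v)) ∧ Zr 1 ((pass w1)^[3] (cellsW C v)) := by
  have hK := F.hK
  have hpn : ∀ t, (pass w1)^[t] ([] : List Bool) = [] := by
    intro t
    induction t with
    | zero => rfl
    | succ t ih => rw [Function.iterate_succ_apply', ih]; exact rd_nil _ _ _
  intro k
  induction k with
  | zero =>
    intro v hv _
    have : v = [] := List.eq_nil_of_length_eq_zero (by simpa using hv)
    subst this
    have e : cellsW C [] = [] := rfl
    rw [e]
    refine ⟨?_, ?_, ?_, ?_⟩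
    · intro t _; rw [hpn]; simp
    · rw [hpn]; simp [cellsW]
    · rw [hpn]; exact Zr_nil
    · rw [hpn]; exact Zr_nil
  | succ k ih =>
    intro v hv hvM
    obtain ⟨y, y2, y3, v', rfl⟩ : ∃ y y2 y3 v', v = y :: y2 :: y3 :: v' := by
      rcases v with _ | ⟨y, _ | ⟨y2, _ | ⟨y3, v'⟩⟩⟩
      · simp at hv
      · simp at hv; omega
      · simp at hv; omega
      · exact ⟨y, y2, y3, v', rfl⟩
    obtain ⟨i1, i2, i3, i4⟩ := ih v' (by simp at hv; omega)
      (fun z hz => hvM z (by simp [hz]))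
    have hy := hvM y (by simp)
    have hy2 := hvM y2 (by simp)
    have hy3 := hvM y3 (by simp)
    have hd : ∀ t < K, 6 ∣ ((pass w1)^[t] (cellsW C [y, y2, y3])).length :=
      fun t ht => F.group_dvd hy.1 hy2.1 hy3.1 hy.2 ht
    have hsp : cellsW C (y :: y2 :: y3 :: v') = cellsW C [y, y2, y3] ++ cellsW C v' := by
      simp [cellsW]
    have hsplit : ∀ t ≤ K, (pass w1)^[t] (cellsW C (y :: y2 :: y3 :: v')) =
        (pass w1)^[t] (cellsW C [y, y2, y3]) ++ (pass w1)^[t] (cellsW C v') := by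
      intro t ht
      rw [hsp]
      exact iter_append _ _ t (fun k hk => hd k (by omega))
    obtain ⟨_, _, n3, n4, n5⟩ := F.chkN y hy.1 hy.2
    refine ⟨?_, ?_, ?_, ?_⟩
    · intro t ht
      rw [hsplit t ht.le, List.length_append]
      exact Dvd.dvd.add (hd t ht) (i1 t ht)
    · rw [hsplit K le_rfl, F.group_iter hy.1 hy2.1 hy3.1 (by omega), n3, i2]
      have : rd 3 (prod d tab) 0 (y :: y2 :: y3 :: v') =
          prod d tab y ++ rd 3 (prod d tab) 0 v' := rfl
      rw [this]
      simp [cellsW]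
    · rw [hsplit 2 (by omega)]
      apply Zr_append _ i3 (hd 2 (by omega))
      rw [F.group_iter hy.1 hy2.1 hy3.1 (by omega)]
      exact n4
    · rw [hsplit 3 (by omega)]
      apply Zr_append _ i4 (hd 3 (by omega))
      rw [F.group_iter hy.1 hy2.1 hy3.1 (by omega)]
      exact n5

/-- One cycle of the simulation. -/
theorem reach_cycle (F : Cells d tab w1 C K Λ) {v : List ℕ} (hv : 3 ∣ v.length)
    (hv0 : v ≠ []) (hvM : ∀ y ∈ v, y < C.length ∧ prod d tab y ≠ []) :
    TransGen (TStep 6 (rule w1)) (cellsW C v) (cellsW C (rd 3 (prod d tab) 0 v)) := by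
  have hK := F.hK
  obtain ⟨k, hk⟩ := hv
  obtain ⟨h1, h2, _⟩ := F.cycle k v hk hvM
  rw [← h2]
  apply reach_iter_pos
  · intro h3
    have h4 := F.cellsW_length (l := v) (fun y hy => (hvM y hy).1)
    rw [h3, List.length_nil] at h4
    have h5 : 0 < v.length := List.length_pos_iff.2 hv0
    have h6 : 0 < Λ * v.length := Nat.mul_pos F.pos h5
    omega
  · omega
  · exact h1

theorem getD_false_of {x : List Bool} (h : ∀ p < x.length, x.getD p false = false) (i : ℕ) :
    x.getD i false = false := by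
  by_cases hi : i < x.length
  · exact h i hi
  · exact List.getD_eq_default _ _ (by omega)

/-- The computation ends when a special letter is active. -/
theorem kill (F : Cells d tab w1 C K Λ) {v₁ v₂ : List ℕ} {y : ℕ} (h1 : 3 ∣ v₁.length)
    (h2 : 3 ∣ v₁.length + 1 + v₂.length) (hy : y < C.length) (hyP : prod d tab y = [])
    (hv₁ : ∀ z ∈ v₁, z < C.length ∧ prod d tab z ≠ [])
    (hv₂ : ∀ z ∈ v₂, z < C.length ∧ prod d tab z ≠ []) :
    ReflTransGen (TStep 6 (rule w1)) (cellsW C (v₁ ++ y :: v₂)) (List.replicate 5 false) := by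
  have hK := F.hK
  have h3Λ := F.h3
  obtain ⟨k1, hk1⟩ := h1
  obtain ⟨k2, hk2⟩ := h2
  obtain ⟨y2, y3, v₃, rfl⟩ : ∃ y2 y3 v₃, v₂ = y2 :: y3 :: v₃ := by
    rcases v₂ with _ | ⟨y2, _ | ⟨y3, v'⟩⟩
    · simp at hk2; omega
    · simp at hk2; omega
    · exact ⟨y2, y3, v', rfl⟩
  obtain ⟨k3, hk3⟩ : ∃ k3, v₃.length = 3 * k3 := ⟨k2 - k1 - 1, by
    simp at hk2; omega⟩
  have hy2 := hv₂ y2 (by simp)
  have hy3 := hv₂ y3 (by simp)
  have hv3 : ∀ z ∈ v₃, z < C.length ∧ prod d tab z ≠ [] := fun z hz => hv₂ z (by simp [hz])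
  obtain ⟨a1, _, _, a3⟩ := F.cycle k1 v₁ hk1 hv₁
  obtain ⟨b1, _, b3, _⟩ := F.cycle k3 v₃ hk3 hv3
  obtain ⟨z1, z2, z3, z4⟩ := F.chkS y hy hyP
  have hsplit : cellsW C (v₁ ++ y :: y2 :: y3 :: v₃) =
      cellsW C v₁ ++ (cellsW C [y, y2, y3] ++ cellsW C v₃) := by simp [cellsW]
  have hlen := F.cellsW_length (l := v₁ ++ y :: y2 :: y3 :: v₃) (by
    intro z hz
    simp only [List.mem_append, List.mem_cons] at hz
    rcases hz with hz | rfl | rfl | rfl | hz
    · exact (hv₁ z hz).1
    · exact hy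
    · exact hy2.1
    · exact hy3.1
    · exact (hv3 z hz).1)
  have hZ0 := F.group_len hy hy2.1 hy3.1
  have hZp := F.group_pass hy hy2.1 hy3.1
  obtain ⟨A, hA⟩ : ∃ A, A = cellsW C v₁ := ⟨_, rfl⟩
  obtain ⟨B, hB⟩ : ∃ B, B = cellsW C v₃ := ⟨_, rfl⟩
  obtain ⟨Z, hZ⟩ : ∃ Z, Z = cellsW C [y, y2, y3] := ⟨_, rfl⟩
  rw [← hA] at a1 a3
  rw [← hB] at b1 b3
  rw [← hZ] at hZ0 hZp
  rw [← hZp] at z1 z2 z3 z4
  have hA0 : 6 ∣ A.length := a1 0 (by omega)
  have hA1 : 6 ∣ (pass w1 A).length := a1 1 (by omega)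
  have hA2 : 6 ∣ (pass w1 (pass w1 A)).length := a1 2 (by omega)
  have hA3 : 6 ∣ (pass w1 (pass w1 (pass w1 A))).length := a1 3 (by omega)
  have hB0 : 6 ∣ B.length := b1 0 (by omega)
  have hB1 : 6 ∣ (pass w1 B).length := b1 1 (by omega)
  have hB2 : 6 ∣ (pass w1 (pass w1 B)).length := b1 2 (by omega)
  have hZ1 : 6 ∣ (pass w1 Z).length := Nat.dvd_of_mod_eq_zero z1
  -- two passes
  have r1 : ReflTransGen (TStep 6 (rule w1)) (A ++ (Z ++ B))
      (pass w1 A ++ (pass w1 Z ++ pass w1 B)) := by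
    have := reach_pass (w1 := w1) (u := A ++ (Z ++ B)) (by
      rw [List.length_append, List.length_append]
      exact Dvd.dvd.add hA0 (Dvd.dvd.add hZ0 hB0))
    rw [pass_append hA0, pass_append hZ0] at this
    exact this
  have r2 : ReflTransGen (TStep 6 (rule w1)) (pass w1 A ++ (pass w1 Z ++ pass w1 B))
      (pass w1 (pass w1 A) ++ (pass w1 (pass w1 Z) ++ pass w1 (pass w1 B))) := by
    have := reach_pass (w1 := w1) (u := pass w1 A ++ (pass w1 Z ++ pass w1 B)) (by
      rw [List.length_append, List.length_append]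
      exact Dvd.dvd.add hA1 (Dvd.dvd.add hZ1 hB1))
    rw [pass_append hA1, pass_append hZ1] at this
    exact this
  obtain ⟨k4, hk4⟩ := hA2
  have r3 := reach_prefix (n := 6) (by norm_num) (rule w1) k4 (pass w1 (pass w1 A))
    (pass w1 (pass w1 Z) ++ pass w1 (pass w1 B)) hk4
  have e3 : rd 6 (rule w1) 0 (pass w1 (pass w1 A)) = pass w1 (pass w1 (pass w1 A)) := rfl
  rw [e3, List.append_assoc] at r3
  obtain ⟨kb, hkb⟩ := hB2
  obtain ⟨ka, hka⟩ := hA3
  obtain ⟨ZZ, hZZ⟩ : ∃ ZZ, ZZ = pass w1 (pass w1 Z) := ⟨_, rfl⟩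
  rw [← hZZ] at r3 r2 z2 z3 z4
  obtain ⟨q, hq⟩ : ∃ q, ZZ.length = 6 * q + 5 := ⟨ZZ.length / 6, by omega⟩
  have hZr : Zr 1 (pass w1 (pass w1 B) ++ pass w1 (pass w1 (pass w1 A))) :=
    Zr_append b3 a3 ⟨kb, hkb⟩
  have r4 := end_run (w1 := w1) (q := q + kb + ka) (by omega)
    (S := ZZ ++ (pass w1 (pass w1 B) ++ pass w1 (pass w1 (pass w1 A)))) (by
      rw [List.length_append, List.length_append, hq, hkb, hka]
      ring) (by
      intro i hi hmod
      by_cases hlt : i < ZZ.length
      · rw [List.getD_append _ _ _ _ hlt]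
        exact z4 i hlt
      · rw [List.getD_append_right _ _ _ _ (by omega)]
        rw [List.length_append] at hi
        apply hZr
        · omega
        · omega)
  obtain ⟨r, hr1, hr2, r5⟩ := zeros_end (w1 := w1) (q + kb + ka) (by omega)
  have rall : ReflTransGen (TStep 6 (rule w1)) (A ++ (Z ++ B)) (List.replicate r false) :=
    (((r1.trans r2).trans r3).trans r4).trans r5
  have hmod := length_mod F.chkW.1 rall
  rw [hsplit, ← hA, ← hB, ← hZ] at hlen
  rw [hlen, List.length_replicate] at hmod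
  have h6 : Λ * (v₁ ++ y :: y2 :: y3 :: v₃).length % 5 = 0 := by
    rw [Nat.mul_mod, F.h5]; simp
  rw [h6] at hmod
  have h7 : r = 5 := by omega
  rw [hsplit, ← hA, ← hB, ← hZ, ← h7]
  exact rall

end Cells

end Pool.Agent.H97.Pcp
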