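import Pool.Agent.H97.Pcp.Cert2
import Pool.Agent.H97.Pcp.Sim2
import Pool.Agent.W5h69.Tag.Check

/-!
# A binary tag system for every input, with the input folded into the long production
-/

set_option autoImplicit false

namespace Pool.Agent.H97.Pcp

open Finset Relation Pool.Agent.H97.Tag

/-- The letters with positions of a word. -/
def enc (μ : ℕ) (l : List ℕ) : List ℕ := (List.range l.length).map (fun r => r * (μ + 1) + l.getD r 0)

theorem enc_computable (μ : ℕ) : Computable (enc μ) := by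
  have h : Primrec (enc μ) := by
    unfold enc
    refine Primrec.list_map (Primrec.list_range.comp Primrec.list_length) ?_
    refine Primrec.nat_add.comp (Primrec.nat_mul.comp Primrec.snd (Primrec.const _)) ?_
    exact (Primrec.list_getD 0).comp Primrec.fst Primrec.snd
  exact h.to_comp

/-- The certificates exist. -/
theorem exists_cert {μ : ℕ} {w : Fin μ → List (Option (Fin μ))} (hw : ∀ a, w a ≠ [])
    {u : List (Fin μ)} (hu : u ≠ []) :
    ∃ c, Chk (μ + 1) ((List.range (μ + 1)).map (Pw w)) (enc μ (u.map Fin.val)) c := by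
  classical
  obtain ⟨Lm, hLm, hLm1⟩ : ∃ Lm, (∀ a, (w a).length ≤ Lm) ∧ 1 ≤ Lm :=
    ⟨(Finset.univ.sup fun a => (w a).length) + 1, fun a =>
      (Finset.le_sup (f := fun a => (w a).length) (Finset.mem_univ a)).trans (Nat.le_succ _),
      by omega⟩
  obtain ⟨L, hL⟩ : ∃ L, L = (u.map Fin.val).length := ⟨_, rfl⟩
  have hL0 : 0 < L := by
    rw [hL, List.length_map]; exact List.length_pos_iff.2 hu
  obtain ⟨M, hM⟩ : ∃ M, M = max Lm L * (μ + 1) := ⟨_, rfl⟩
  have hM1 : Lm * (μ + 1) ≤ M := by rw [hM]; exact Nat.mul_le_mul_right _ (le_max_left _ _)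
  have hM2 : L * (μ + 1) ≤ M := by rw [hM]; exact Nat.mul_le_mul_right _ (le_max_right _ _)
  obtain ⟨tgI, htgI⟩ : ∃ tgI : ℕ → ℕ, tgI = fun r => r * (μ + 1) + (u.map Fin.val).getD r 0 :=
    ⟨_, rfl⟩
  have hval : ∀ r < L, (u.map Fin.val).getD r 0 < μ := by
    intro r hr
    rw [List.getD_eq_getElem _ _ (by omega), List.getElem_map]
    exact (u[r]'(by rw [hL, List.length_map] at hr; exact hr)).isLt
  have htgM : ∀ r < L, tgI r < M := by
    intro r hr
    have h1 := hval r hr
    have h2 : (r + 1) * (μ + 1) ≤ L * (μ + 1) := Nat.mul_le_mul_right _ hr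
    rw [Nat.add_mul, Nat.one_mul] at h2
    rw [htgI]
    dsimp only
    omega
  have htgS : ∀ r, r + 1 < L → tgI r < tgI (r + 1) := by
    intro r hr
    have h1 := hval r (by omega)
    rw [htgI]
    dsimp only
    rw [Nat.add_mul, Nat.one_mul]
    omega
  have hnorm : ∀ r < L, Pw w (tgI r) ≠ [] := by
    intro r hr
    apply Pw_ne_nil hw
    have h1 := hval r hr
    rw [htgI]
    dsimp only
    rw [Nat.mul_comm, Nat.mul_add_mod, Nat.mod_eq_of_lt (by omega)]
    exact h1
  have sorted : ∀ y < M, (Pw w y).Pairwise (· < ·) := fun y _ => Pw_sorted w y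
  have bounded : ∀ y < M, ∀ x ∈ Pw w y, x < M :=
    fun y _ x hx => (Pw_bounded hLm hx).trans_le hM1
  have hT1 : ∀ r < (tlist M (Pw w)).length, tgT (tlist M (Pw w)) r < M ∧
      clT (tlist M (Pw w)) r < M ∧
      tgT (tlist M (Pw w)) r ∈ Pw w (clT (tlist M (Pw w)) r) := by
    intro r hr
    unfold tgT clT
    rw [List.getD_eq_getElem _ _ hr]
    exact tlist_mem (List.getElem_mem hr)
  have hT0 : 0 < (tlist M (Pw w)).length := by
    have hy := htgM 0 hL0
    have h1 := tlist_filter hy (sorted _ hy) (bounded _ hy)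
    by_contra hcon
    have h2 : tlist M (Pw w) = [] := List.eq_nil_of_length_eq_zero (by omega)
    rw [h2] at h1
    simp only [List.filter_nil] at h1
    exact hnorm 0 hL0 (List.map_eq_nil_iff.1 h1.symm)
  obtain ⟨W, hW⟩ : ∃ W, W = Wf 6 (lam M + 1) := ⟨_, rfl⟩
  have hW1 : 1 ≤ W := by
    rw [hW]
    have h6 : Wf 6 1 ≤ Wf 6 (lam M + 1) := Wf_mono 6 (by omega)
    rwa [Wf_one] at h6
  obtain ⟨R', hR'⟩ : ∃ R', R' = 5 * W ^ 3 := ⟨_, rfl⟩
  have hR5 : 5 ≤ R' := by
    have : 1 ≤ W ^ 3 := Nat.one_le_pow _ _ hW1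
    omega
  obtain ⟨K, N, s, sI, life, lifeI, hp⟩ := exists_plan' (ν := 6) (R := 2 * R') (M := M) (L := L)
    (by norm_num) (by omega) (tlist M (Pw w)) (fun r hr => (hT1 r hr).2.1)
  obtain ⟨tl, htl⟩ : ∃ tl : ℕ → ℕ, tl = fun x => if x < M ∧ Pw w x = [] then 8
    else 6 + 31 * 6 ^ (lam x - 1) := ⟨_, rfl⟩
  have hnc : ∀ r < (tlist M (Pw w)).length, Pw w (clT (tlist M (Pw w)) r) ≠ [] := by
    intro r hr h1
    have h2 := (hT1 r hr).2.2
    rw [h1] at h2
    simp at h2
  obtain ⟨ε, h, δ, hd⟩ := exists_delta' (R := 2 * R') (M := M) (L := L) (by omega) hT0 hL0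
    (tlist_pairwise M (Pw w)) (fun r hr => ⟨(hT1 r hr).1, (hT1 r hr).2.1⟩) hp tl (by
      intro x hx
      rw [htl]
      dsimp only
      have h36 : 36 ≤ 6 ^ (lam M + 1) := by
        calc 36 = 6 ^ 2 := by norm_num
          _ ≤ _ := Nat.pow_le_pow_right (by norm_num) (by unfold lam; omega)
      split_ifs
      · omega
      · have h1 : 6 ^ (lam M + 1) = 36 * 6 ^ (lam M - 1) := by
          rw [show (36 : ℕ) = 6 ^ 2 by norm_num, ← pow_add]; congr 1; unfold lam; omega
        have h2 : 6 ^ (lam x - 1) ≤ 6 ^ (lam M - 1) :=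
          Nat.pow_le_pow_right (by norm_num) (by unfold lam; omega)
        have h3 : 6 ≤ 6 ^ (lam M - 1) := by
          calc 6 = 6 ^ 1 := by norm_num
            _ ≤ _ := Nat.pow_le_pow_right (by norm_num) (by unfold lam; omega)
        omega) tgI htgM htgS
  obtain ⟨D, hD⟩ : ∃ D : Dt, D = ⟨R', M, L, K, N, s, sI, ε, tlist M (Pw w), life, lifeI, tl, tgI,
    h, δ⟩ := ⟨_, rfl⟩
  have F : D.Setup (Pw w) := by
    subst hD
    refine ⟨⟨hp, hd, ?_, ?_, ?_, ?_, ?_, hL0, htgM⟩, rfl, sorted, bounded, ?_, hnorm⟩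
    · show R' = _
      rw [hR', hW]
    · intro r hr
      exact (hT1 r hr).1
    · intro r hr
      exact (hT1 r hr).2.1
    · intro r hr
      show tl _ = _
      rw [htl]
      dsimp only
      rw [if_neg]
      rintro ⟨_, h1⟩
      exact hnc r hr h1
    · show tl M = _
      rw [htl]
      dsimp only
      rw [if_neg (by rintro ⟨h1, _⟩; omega)]
    · intro y hy hP
      show tl y = 8
      rw [htl]
      dsimp only
      exact if_pos ⟨hy, hP⟩
  have hv : D.vI = enc μ (u.map Fin.val) := by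
    subst hD
    unfold Dt.vI enc
    rw [htgI, hL]
  rw [← hv]
  refine ⟨_, F.chk ?_⟩
  intro y _
  unfold prod
  have hlt : y % (μ + 1) < μ + 1 := Nat.mod_lt _ (by omega)
  rw [List.getD_eq_getElem _ _ (by simpa using hlt), List.getElem_map, List.getElem_range]
  unfold Pw
  simp only [Nat.mod_mod]

section

variable {μ : ℕ} {w : Fin μ → List (Option (Fin μ))} {w1 : List Bool} {C : List (List Bool)}
  {K Λ : ℕ}

theorem prod_Pw (w : Fin μ → List (Option (Fin μ))) :
    prod (μ + 1) ((List.range (μ + 1)).map (Pw w)) = Pw w := by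
  funext y
  unfold prod
  have hlt : y % (μ + 1) < μ + 1 := Nat.mod_lt _ (by omega)
  rw [List.getD_eq_getElem _ _ (by simpa using hlt), List.getElem_map, List.getElem_range]
  unfold Pw
  simp only [Nat.mod_mod]

/-- The table of productions. -/
abbrev tabw (w : Fin μ → List (Option (Fin μ))) : List (List ℕ) := (List.range (μ + 1)).map (Pw w)

theorem bounded (F : Cells (μ + 1) (tabw w) w1 C K Λ) {y : ℕ} (hy : y < C.length)
    (hP : Pw w y ≠ []) : ∀ x ∈ Pw w y, x < C.length := by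
  have h := (F.chkN y hy (by rw [prod_Pw]; exact hP)).1
  rw [prod_Pw] at h
  exact h

/-- One sweep of the aligned system is simulated by one cycle. -/
theorem sim_step (F : Cells (μ + 1) (tabw w) w1 C K Λ) (hw : ∀ a, w a ≠ []) {v v₁ : List (Fin μ)}
    {v' : List ℕ} (hr : Rep C.length v v') (hs : Step 3 w v v₁) :
    v₁ ≠ [] ∧ 3 ∣ v₁.length ∧ ∃ v₁', Rep C.length v₁ v₁' ∧
      TransGen (TStep 6 (rule w1)) (cellsW C v') (cellsW C v₁') := by
  obtain ⟨h1, h2, h3, h4⟩ := hs
  have hn := hr.normal hw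
  have hl := hr.length
  refine ⟨?_, h3, rd 3 (Pw w) 0 v', ⟨?_, ?_⟩, ?_⟩
  · obtain ⟨a, t, rfl⟩ : ∃ a t, v = a :: t := by
      cases v with
      | nil => exact absurd rfl h1
      | cons a t => exact ⟨a, t, rfl⟩
    rw [rd_zero_cons] at h4
    intro h5
    rw [h5, List.map_nil, List.append_eq_nil_iff] at h4
    exact hw a h4.1
  · rw [rd_rep w 3 v v' 0 hr.1, h4, List.map_map]
    rfl
  · intro y hy
    obtain ⟨a, ha, hya⟩ := mem_rd _ _ hy
    exact bounded F (hn a ha).1 (hn a ha).2 y hya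
  · have := F.reach_cycle (v := v') (by rw [hl]; exact h2) (by
      intro h5
      rw [h5, List.length_nil] at hl
      exact h1 (List.eq_nil_of_length_eq_zero hl.symm)) (by rw [prod_Pw]; exact hn)
    rw [prod_Pw] at this
    exact this

/-- A final word leads to a word of length `5`. -/
theorem sim_final (F : Cells (μ + 1) (tabw w) w1 C K Λ) (hw : ∀ a, w a ≠ []) {v : List (Fin μ)}
    {v' : List ℕ} (hr : Rep C.length v v') (hs : Final 3 w v) :
    ReflTransGen (TStep 6 (rule w1)) (cellsW C v') (List.replicate 5 false) := by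
  obtain ⟨h1, h2, v₁, v₂, h3, h4, h5⟩ := hs
  have hn := hr.normal hw
  have hl := hr.length
  have h6 := F.reach_cycle (v := v') (by rw [hl]; exact h2) (by
      intro h5
      rw [h5, List.length_nil] at hl
      exact h1 (List.eq_nil_of_length_eq_zero hl.symm)) (by rw [prod_Pw]; exact hn)
  rw [prod_Pw] at h6
  have h7 := rd_rep w 3 v v' 0 hr.1
  rw [h5, List.map_append, List.map_cons, List.map_map, List.map_map] at h7
  have hb : ∀ y ∈ rd 3 (Pw w) 0 v', y < C.length := by
    intro y hy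
    obtain ⟨a, ha, hya⟩ := mem_rd _ _ hy
    exact bounded F (hn a ha).1 (hn a ha).2 y hya
  rw [List.map_eq_append_iff] at h7
  obtain ⟨x₁, x₂, h8, h9, h10⟩ := h7
  rw [List.map_eq_cons_iff] at h10
  obtain ⟨y, x₃, rfl, h11, h12⟩ := h10
  rw [h8] at h6 hb
  have hr1 : Rep C.length v₁ x₁ := ⟨h9, fun z hz => hb z (by simp [hz])⟩
  have hr3 : Rep C.length v₂ x₃ := ⟨h12, fun z hz => hb z (by simp [hz])⟩
  refine h6.to_reflTransGen.trans ?_
  apply F.kill
  · rw [hr1.length]; exact h3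
  · rw [hr1.length, hr3.length]; exact h4
  · exact hb y (by simp)
  · rw [prod_Pw]; exact Pw_nil h11
  · rw [prod_Pw]; exact hr1.normal hw
  · rw [prod_Pw]; exact hr3.normal hw

/-- Runs of the aligned system are simulated. -/
theorem sim_run (F : Cells (μ + 1) (tabw w) w1 C K Λ) (hw : ∀ a, w a ≠ []) {u v : List (Fin μ)}
    {u' : List ℕ} (hr : Rep C.length u u')
    (hs : ReflTransGen (Step 3 w) u v) :
    ∃ v', Rep C.length v v' ∧
      ReflTransGen (TStep 6 (rule w1)) (cellsW C u') (cellsW C v') := by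
  induction hs with
  | refl => exact ⟨u', hr, ReflTransGen.refl⟩
  | tail _ hs ih =>
    obtain ⟨v', h3, h4⟩ := ih
    obtain ⟨_, _, v₁', h7, h8⟩ := sim_step F hw h3 hs
    exact ⟨v₁', h7, h4.trans h8.to_reflTransGen⟩

end

theorem hist_refl_s {w1 s V a b : List Bool} (hs : pass w1 s = s) (hV : 6 ∣ V.length)
    (hf : pass w1 V = V ++ a) (hVs : V <+: s) (h : ReflTransGen (TStep 6 (rule w1)) a b) :
    ∃ V', 6 ∣ V'.length ∧ pass w1 V' = V' ++ b ∧ V' <+: s := by
  rcases reflTransGen_iff_eq_or_transGen.1 h with rfl | h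
  · exact ⟨V, hV, hf, hVs⟩
  · obtain ⟨V', _, h2, h3, h4⟩ := hist_trans hs hV hf hVs h
    exact ⟨V', h2, h3, h4⟩

/-- The start of the simulation. -/
theorem start {d : ℕ} {tab : List (List ℕ)} {v : List ℕ} {c : Cert} (h : Chk d tab v c) :
    ∃ V T, V = Vw c.1.1 c.2.2.2.1 ∧ 6 ∣ V.length ∧ pass c.1.1 V = V ++ T ∧
      ReflTransGen (TStep 6 (rule c.1.1)) T (cellsW c.1.2 v) ∧ ∀ y ∈ v, y < c.1.2.length := by
  obtain ⟨_, _, _, _, _, h1, h2, h3, h4, h5⟩ := h
  refine ⟨_, Tw c.1.1 c.2.2.2.1, rfl, ?_, ?_, ?_, h5⟩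
  · rw [h1]; exact Dvd.intro _ rfl
  · conv_rhs => rw [← h2]
    exact (List.take_append_drop _ _).symm
  · rw [← h4]
    exact reach_iter _ _ (fun k hk => Nat.dvd_of_mod_eq_zero (h3 k hk))

theorem rep_enc {μ M : ℕ} (u : List (Fin μ)) (h : ∀ y ∈ enc μ (u.map Fin.val), y < M) :
    Rep M u (enc μ (u.map Fin.val)) := by
  refine ⟨?_, h⟩
  apply List.ext_getElem
  · simp [enc]
  · intro i hi1 hi2
    have hi3 : i < (u.map Fin.val).length := hi2
    rw [List.getElem_map]
    unfold enc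
    rw [List.getElem_map, List.getElem_range, List.getD_eq_getElem _ _ hi3, Nat.mul_comm,
      Nat.mul_add_mod]
    apply Nat.mod_eq_of_lt
    rw [List.getElem_map]
    have := (u[i]'(by simpa using hi3)).isLt
    omega

/-- **The core.** For every input `n` there is a word `w1`, computable from `n`, such that the
statement `q n` holds if and only if there is a complete history which begins with `true`. -/
theorem core : ∃ (W : ℕ → List Bool) (q : ℕ → Prop), Computable W ∧ ¬ ComputablePred q ∧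
    (∀ n, ChkW (W n)) ∧ (∀ n, q n → Fix 6 (W n)) ∧
    (∀ n s, pass (W n) s = s → s[0]? = some true → q n) := by
  obtain ⟨μ, w, u, hw, hcomp, hu, halt, hund⟩ := Pool.Agent.W5h69.Tag.exists_aligned 3 (by norm_num)
  obtain ⟨f, hf, hchk⟩ := Pool.Agent.W5h69.Tag.Check.search
    (v := fun n => enc μ ((u n).map Fin.val)) ((enc_computable μ).comp hcomp) (μ + 1) (tabw w)
    (fun n => exists_cert hw (hu n).1)
  refine ⟨fun n => (f n).1.1, fun n => ∃ v, ReflTransGen (Step 3 w) (u n) v ∧ Final 3 w v, ?_,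
    hund, fun n => (hchk n).cells.chkW, ?_, ?_⟩
  · exact Computable.fst.comp (Computable.fst.comp hf)
  · rintro n ⟨v, hv, hfin⟩
    obtain ⟨V, T, _, h1, h2, h3, h4⟩ := start (hchk n)
    have F := (hchk n).cells
    obtain ⟨v', h5, h6⟩ := sim_run F hw (rep_enc (u n) h4) hv
    exact fix_of_reach h1 h2 ((h3.trans h6).trans (sim_final F hw h5 hfin))
  · intro n s hs h0
    by_contra hn
    obtain ⟨V, T, hV, h1, h2, h3, h4⟩ := start (hchk n)
    have F := (hchk n).cells
    have hVs : V <+: s := by rw [hV]; exact Vw_prefix hs h0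
    obtain ⟨V', h5, h6, h7⟩ := hist_refl_s hs h1 h2 hVs h3
    refine no_fix hs (I := fun X => ∃ v v', ReflTransGen (Step 3 w) (u n) v ∧
      Rep (f n).1.2.length v v' ∧ X = cellsW (f n).1.2 v') ?_ s.length V' _
      ⟨u n, _, ReflTransGen.refl, rep_enc (u n) h4, rfl⟩ h5 h6 h7 (by omega)
    rintro X ⟨v, v', g1, g2, rfl⟩
    rcases halt n v g1 with hfin | ⟨v₁, hst⟩
    · exact absurd ⟨v, g1, hfin⟩ hn
    · obtain ⟨_, _, v₁', g3, g4⟩ := sim_step F hw g2 hst
      exact ⟨_, ⟨v₁, v₁', g1.tail hst, g3, rfl⟩, g4⟩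

end Pool.Agent.H97.Pcp
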