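import Pool.Agent.H97.Pcp.Weight

/-!
# The list of blocks
-/

set_option autoImplicit false

namespace Pool.Agent.H97.Pcp

open Finset Pool.Agent.H97.Tag

theorem exists_large' (ν C K0 r : ℕ) (hν : 2 ≤ ν) :
    ∃ K, K0 ≤ K ∧ K % (ν - 1) = r % (ν - 1) ∧ C * K ^ 2 ≤ ν ^ (K - 4) := by
  have h := tendsto_pow_const_div_const_pow_of_one_lt 2 (r := (2 : ℝ)) (by norm_num)
  have h2 : ∀ᶠ n : ℕ in Filter.atTop, (n : ℝ) ^ 2 / 2 ^ n < 1 / (25 * (C + 1)) :=
    h.eventually (gt_mem_nhds (by positivity))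
  rw [Filter.eventually_atTop] at h2
  obtain ⟨n0, hn0⟩ := h2
  obtain ⟨n1, hn1⟩ : ∃ n1, n1 = n0 + K0 := ⟨_, rfl⟩
  have hK : n1 + 5 ≤ (ν - 1) * (n1 + 5) + r := by
    have : 1 * (n1 + 5) ≤ (ν - 1) * (n1 + 5) := Nat.mul_le_mul_right _ (by omega)
    omega
  refine ⟨(ν - 1) * (n1 + 5) + r, by omega, ?_, ?_⟩
  · rw [Nat.mul_add_mod]
  · generalize (ν - 1) * (n1 + 5) + r = K at hK
    obtain ⟨n, rfl⟩ : ∃ n, K = n + 4 := ⟨K - 4, by omega⟩
    rw [Nat.add_sub_cancel]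
    have hlt := hn0 n (by omega)
    have h3 : (n : ℝ) ^ 2 * (25 * (C + 1)) < 2 ^ n := by
      rw [div_lt_div_iff₀ (by positivity) (by positivity)] at hlt
      linarith
    have h4 : n ^ 2 * (25 * (C + 1)) < 2 ^ n := by exact_mod_cast h3
    have hn : 1 ≤ n := by omega
    calc C * (n + 4) ^ 2 ≤ n ^ 2 * (25 * (C + 1)) := by
          have : (n + 4) ^ 2 ≤ 25 * n ^ 2 := by nlinarith
          nlinarith
      _ ≤ 2 ^ n := h4.le
      _ ≤ ν ^ n := Nat.pow_le_pow_left hν n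

/-- The class of the block `j`. -/
def clf (N M : ℕ) (T : List (ℕ × ℕ)) (j : ℕ) : ℕ := if j < N * T.length then clT T (j / N) else M

/-- The number of normal blocks. -/
def nm (ν N M : ℕ) (T : List (ℕ × ℕ)) : ℕ := N * T.length + Wf ν (lam M + 1)

/-- The number of blocks of the start. -/
def nI (ν N M L : ℕ) : ℕ := N * L + (ν ^ (lam M + 1) - 1)

/-- The total number of marks at offsets divisible by `ν`. -/
def nt (ν N M L : ℕ) (T : List (ℕ × ℕ)) : ℕ := 1 + nm ν N M T + nI ν N M L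

/-- The properties of the list of blocks. -/
structure IsPlan (ν R M L : ℕ) (T : List (ℕ × ℕ)) (K N s sI : ℕ) (life lifeI : ℕ → ℕ) : Prop where
  hK : lam M + 8 ≤ K
  hKmod : K % (ν - 1) = 4 % (ν - 1)
  hN : ν ^ (lam M + 1) ∣ N
  hN0 : 0 < N
  hs : s < N
  hsI : sI < N
  life_ge : ∀ j, lam M + 1 ≤ life j
  life_le : ∀ j, life j ≤ K
  life_eq : ∀ j, life j = K ↔ j < N * T.length ∧ j % N = s
  lifeI_ge : ∀ j, lam M + 1 ≤ lifeI j
  lifeI_le : ∀ j, lifeI j ≤ K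
  lifeI_eq : ∀ j, lifeI j = K ↔ j < N * L ∧ j % N = sI
  pw_real : ∀ A : Pat, A.ν = ν → A.mt = nt ν N M L T → ∀ (d : ℕ → ℕ), ∀ r < T.length,
    (lgrp (nm ν N M T) (clf N M T) life d (clT T r)).pw A K (N * r + s) + 1 =
      R * ν ^ (K - 1) * cnt T (clT T r) r + (ν - 2) * Wf ν K
  pw_total : ∀ A : Pat, A.ν = ν → A.mt = nt ν N M L T → ∀ (d : ℕ → ℕ), ∀ a < M,
    0 < cnt T a T.length →
    (lgrp (nm ν N M T) (clf N M T) life d a).pw A K (nm ν N M T) +
      (ν - 1) * Wf ν (lam M + 1) ^ 3 + (1 + nI ν N M L) = R * ν ^ (K - 1) * cnt T a T.length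
  pwI_real : ∀ A : Pat, A.ν = ν → ∀ (d : ℕ → ℕ), ∀ r < L,
    (igrp (nI ν N M L) lifeI d).pw A K (N * r + sI) + nm ν N M T =
      R * ν ^ (K - 1) * r + (ν - 2) * Wf ν K + 1
  pwI_total : ∀ A : Pat, A.ν = ν → ∀ (d : ℕ → ℕ), 0 < L →
    (igrp (nI ν N M L) lifeI d).pw A K (nI ν N M L) + nm ν N M T = R * ν ^ (K - 1) * L

/-- The total deficit of the class `a`. -/
def Zd (ν N M L : ℕ) (T : List (ℕ × ℕ)) (a : ℕ) : ℕ :=
  (ν - 1) * Wf ν (lam M + 1) ^ 3 + (1 + nI ν N M L) +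
    Fr ν (nt ν N M L T) N T a T.length + Wf ν (lam M + 1) * fwn ν (nt ν N M L T) M a

theorem nI_add {ν N M L : ℕ} (hν : 1 ≤ ν) : 1 + nI ν N M L = N * L + ν ^ (lam M + 1) := by
  unfold nI
  have : 0 < ν ^ (lam M + 1) := pow_pos (by omega) _
  omega

theorem nt_eq {ν N M L : ℕ} (hν : 1 ≤ ν) (T : List (ℕ × ℕ)) :
    nt ν N M L T = N * (T.length + L) + Wf ν (lam M + 1) + ν ^ (lam M + 1) := by
  have h := nI_add (ν := ν) (N := N) (M := M) (L := L) hν
  have e : nt ν N M L T = nm ν N M T + (1 + nI ν N M L) := by unfold nt; ring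
  rw [e, h]
  unfold nm
  ring

theorem Zd_dvd {ν N M L : ℕ} {T : List (ℕ × ℕ)} {a : ℕ} (hν : 1 ≤ ν)
    (hN : ν ^ (lam M + 1) ∣ N) (ha : a ≤ M) : ν ^ (lam M + 1) ∣ Zd ν N M L T a := by
  have h1 := Wf_geom hν (lam M + 1)
  have h2 := Wf_geom hν (lam a)
  have h5 := nI_add (ν := ν) (N := N) (M := M) (L := L) hν
  have h6 := nt_eq (ν := ν) (N := N) (M := M) (L := L) hν T
  unfold Zd
  have h3 : ν ^ (lam M + 1) ∣ (ν - 1) * Wf ν (lam M + 1) ^ 3 +
      Wf ν (lam M + 1) * fwn ν (nt ν N M L T) M a := by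
    unfold fwn
    rw [if_neg (by omega), h6]
    generalize Wf ν (lam M + 1) = W at *
    generalize Wf ν (lam a) = V at *
    generalize ν - 1 = n at *
    generalize ν ^ (lam M + 1) = X at *
    generalize ν ^ lam a = Y at *
    have e : n * W ^ 3 + W * (V + (N * (T.length + L) + W + X) * Y) =
        X * (W ^ 2 + W * V + W * Y) + N * (W * (T.length + L) * Y) := by rw [← h1, ← h2]; ring
    rw [e]
    exact Dvd.dvd.add (Dvd.intro _ rfl) (Dvd.dvd.mul_right hN _)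
  have h4 := Fr_dvd (ν := ν) (m := nt ν N M L T) T a T.length hN
  have h7 : ν ^ (lam M + 1) ∣ 1 + nI ν N M L := by
    rw [h5]
    exact Dvd.dvd.add (Dvd.dvd.mul_right hN _) dvd_rfl
  have e : (ν - 1) * Wf ν (lam M + 1) ^ 3 + (1 + nI ν N M L) +
      Fr ν (nt ν N M L T) N T a T.length + Wf ν (lam M + 1) * fwn ν (nt ν N M L T) M a =
      ((ν - 1) * Wf ν (lam M + 1) ^ 3 + Wf ν (lam M + 1) * fwn ν (nt ν N M L T) M a) +
      Fr ν (nt ν N M L T) N T a T.length + (1 + nI ν N M L) := by ring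
  rw [e]
  exact Dvd.dvd.add (Dvd.dvd.add h3 h4) h7

/-- The own weight of the batch `r`. -/
def owd (ν N M L ρ : ℕ) (T : List (ℕ × ℕ)) (r : ℕ) : ℕ :=
  if cnt T (clT T r) r + 1 = cnt T (clT T r) T.length then ρ - Zd ν N M L T (clT T r) else ρ

/-- The weight of the batch `r` in the group of `a`. -/
def bwd (ν N M L ρ : ℕ) (T : List (ℕ × ℕ)) (a r : ℕ) : ℕ :=
  if clT T r = a then owd ν N M L ρ T r else N * fwn ν (nt ν N M L T) (clT T r) a

theorem bwd_sum {ν N M L ρ : ℕ} {T : List (ℕ × ℕ)} {a : ℕ} (hZ : Zd ν N M L T a ≤ ρ) :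
    ∀ r, r ≤ T.length → ∑ i ∈ range r, bwd ν N M L ρ T a i +
      (if cnt T a r = cnt T a T.length ∧ 0 < cnt T a T.length then Zd ν N M L T a else 0) =
      ρ * cnt T a r + Fr ν (nt ν N M L T) N T a r := by
  intro r
  induction r with
  | zero =>
    intro _
    rw [cnt_zero, if_neg (by omega)]
    simp [Fr]
  | succ r ih =>
    intro hr
    have ih' := ih (by omega)
    have hc := cnt_succ a (show r < T.length by omega)
    have hm := cnt_mono (T := T) a hr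
    rw [Finset.sum_range_succ]
    have hF : Fr ν (nt ν N M L T) N T a (r + 1) = Fr ν (nt ν N M L T) N T a r +
        if clT T r = a then 0 else N * fwn ν (nt ν N M L T) (clT T r) a :=
      Finset.sum_range_succ _ _
    by_cases h : clT T r = a
    · rw [if_pos h] at hc
      have hn : ¬ (cnt T a r = cnt T a T.length ∧ 0 < cnt T a T.length) := by omega
      rw [if_neg hn] at ih'
      have hb : bwd ν N M L ρ T a r =
          if cnt T a r + 1 = cnt T a T.length then ρ - Zd ν N M L T a else ρ := by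
        unfold bwd owd
        rw [if_pos h, h]
      rw [hF, if_pos h, hc, hb]
      by_cases h2 : cnt T a r + 1 = cnt T a T.length
      · rw [if_pos h2, if_pos ⟨h2, by omega⟩, Nat.mul_add]
        omega
      · rw [if_neg h2, if_neg (by rintro ⟨h3, _⟩; exact h2 h3), Nat.mul_add]
        omega
    · have hc : cnt T a (r + 1) = cnt T a r := by rw [hc, if_neg h]; rfl
      have hb : bwd ν N M L ρ T a r = N * fwn ν (nt ν N M L T) (clT T r) a := by
        unfold bwd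
        rw [if_neg h]
      rw [hF, if_neg h, hc, hb]
      omega

/-- Choice of the number of passes. -/
theorem pick_K' (ν R M L t : ℕ) (hν : 3 ≤ ν) : ∃ K N : ℕ, lam M + 8 ≤ K ∧
    K % (ν - 1) = 4 % (ν - 1) ∧ N = ν ^ (lam M + 1) * (2 * K + R + 2) ∧
    t * (N * (Wf ν (lam M) + (N * (t + L) + Wf ν (lam M + 1) + ν ^ (lam M + 1)) * ν ^ lam M)) +
      Wf ν (lam M + 1) * (Wf ν (lam M) + (N * (t + L) + Wf ν (lam M + 1) + ν ^ (lam M + 1)) *
        ν ^ lam M) + (ν ^ (lam M + 1) * (K + 2 * ν)) * (Wf ν (lam M + 1) + 1) +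
      N * (Wf ν (lam M + 1) + t + L + 1) + (ν - 1) * Wf ν (lam M + 1) ^ 3 +
      ν ^ (lam M + 1) * (Wf ν (lam M + 1) + 2) ≤ ν ^ (K - 4) := by
  obtain ⟨X, hX⟩ : ∃ X, X = ν ^ (lam M + 1) := ⟨_, rfl⟩
  obtain ⟨W, hW⟩ : ∃ W, W = Wf ν (lam M + 1) := ⟨_, rfl⟩
  obtain ⟨V, hV⟩ : ∃ V, V = Wf ν (lam M) := ⟨_, rfl⟩
  obtain ⟨Y, hY⟩ : ∃ Y, Y = ν ^ lam M := ⟨_, rfl⟩
  rw [← hX, ← hW, ← hV, ← hY]
  obtain ⟨A, hA⟩ : ∃ A, A = X * (R + 4) := ⟨_, rfl⟩
  obtain ⟨B, hB⟩ : ∃ B, B = A * (t + L) + W + X := ⟨_, rfl⟩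
  obtain ⟨F, hF⟩ : ∃ F, F = V + B * Y := ⟨_, rfl⟩
  obtain ⟨K, hK, hmod, hle⟩ := exists_large' ν (t * (A * F) + W * F + X * (1 + 2 * ν) * (W + 1) +
    A * (W + t + L + 1) + (ν - 1) * W ^ 3 + X * (W + 2)) (lam M + 8) 4 (by omega)
  refine ⟨K, _, hK, hmod, rfl, ?_⟩
  refine le_trans ?_ hle
  have hK1 : 1 ≤ K := by omega
  have hKK : K ≤ K ^ 2 := by nlinarith
  have h1K : 1 ≤ K ^ 2 := by nlinarith
  have hN : X * (2 * K + R + 2) ≤ A * K := by
    rw [hA, Nat.mul_assoc]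
    exact Nat.mul_le_mul_left _ (by nlinarith)
  generalize X * (2 * K + R + 2) = N at *
  have hm : N * (t + L) + W + X ≤ B * K := by
    rw [hB]
    calc N * (t + L) + W + X ≤ A * K * (t + L) + W * K + X * K :=
          Nat.add_le_add (Nat.add_le_add (Nat.mul_le_mul_right _ hN) (Nat.le_mul_of_pos_right _ hK1))
            (Nat.le_mul_of_pos_right _ hK1)
      _ = _ := by ring
  generalize N * (t + L) + W + X = m at *
  have hf : V + m * Y ≤ F * K := by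
    rw [hF]
    calc V + m * Y ≤ V * K + B * K * Y := Nat.add_le_add (Nat.le_mul_of_pos_right _ hK1)
          (Nat.mul_le_mul_right _ hm)
      _ = _ := by ring
  generalize V + m * Y = f at *
  have e1 : t * (N * f) ≤ t * (A * F) * K ^ 2 := by
    calc t * (N * f) ≤ t * (A * K * (F * K)) := Nat.mul_le_mul_left _ (Nat.mul_le_mul hN hf)
      _ = _ := by ring
  have e2 : W * f ≤ W * F * K ^ 2 := by
    calc W * f ≤ W * (F * K) := Nat.mul_le_mul_left _ hf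
      _ = W * F * K := by ring
      _ ≤ _ := Nat.mul_le_mul_left _ hKK
  have e3 : X * (K + 2 * ν) * (W + 1) ≤ X * (1 + 2 * ν) * (W + 1) * K ^ 2 := by
    calc X * (K + 2 * ν) * (W + 1) ≤ X * ((1 + 2 * ν) * K ^ 2) * (W + 1) := by
          apply Nat.mul_le_mul_right
          apply Nat.mul_le_mul_left
          have : 2 * ν * 1 ≤ 2 * ν * K ^ 2 := Nat.mul_le_mul_left _ h1K
          nlinarith
      _ = _ := by ring
  have e4 : N * (W + t + L + 1) ≤ A * (W + t + L + 1) * K ^ 2 := by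
    calc N * (W + t + L + 1) ≤ A * K * (W + t + L + 1) := Nat.mul_le_mul_right _ hN
      _ = A * (W + t + L + 1) * K := by ring
      _ ≤ _ := Nat.mul_le_mul_left _ hKK
  have e5 : (ν - 1) * W ^ 3 ≤ (ν - 1) * W ^ 3 * K ^ 2 := Nat.le_mul_of_pos_right _ (by positivity)
  have e6 : X * (W + 2) ≤ X * (W + 2) * K ^ 2 := Nat.le_mul_of_pos_right _ (by positivity)
  have e7 : (t * (A * F) + W * F + X * (1 + 2 * ν) * (W + 1) + A * (W + t + L + 1) +
      (ν - 1) * W ^ 3 + X * (W + 2)) * K ^ 2 = t * (A * F) * K ^ 2 + W * F * K ^ 2 +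
      X * (1 + 2 * ν) * (W + 1) * K ^ 2 + A * (W + t + L + 1) * K ^ 2 +
      (ν - 1) * W ^ 3 * K ^ 2 + X * (W + 2) * K ^ 2 := by ring
  rw [e7]
  omega

end Pool.Agent.H97.Pcp
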