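import Pool.Agent.H97.Pcp.Plan

/-!
# Existence of the list of blocks
-/

set_option autoImplicit false

namespace Pool.Agent.H97.Pcp

open Finset Pool.Agent.H97.Tag

theorem ar1 {ν K : ℕ} (hν : 3 ≤ ν) (hK : 4 ≤ K) : ν ^ 2 + ν * K + 2 ≤ ν ^ 2 * K := by
  obtain ⟨n, rfl⟩ : ∃ n, ν = n + 3 := ⟨ν - 3, by omega⟩
  obtain ⟨k, rfl⟩ : ∃ k, K = k + 4 := ⟨K - 4, by omega⟩
  have e1 : (n + 3) ^ 2 * (k + 4) = n ^ 2 * k + 4 * n ^ 2 + 6 * (n * k) + 24 * n + 9 * k + 36 := by
    ring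
  have e2 : (n + 3) ^ 2 + (n + 3) * (k + 4) + 2 = n ^ 2 + 10 * n + n * k + 3 * k + 23 := by ring
  rw [e1, e2]
  have : 0 ≤ n ^ 2 * k := Nat.zero_le _
  omega

theorem ar2 {ν K R : ℕ} (hν : 3 ≤ ν) : R * ν + ν * K + 2 * ν ≤ ν ^ 2 * (K + R + 2) := by
  calc R * ν + ν * K + 2 * ν = ν * 1 * (K + R + 2) := by ring
    _ ≤ ν * ν * (K + R + 2) :=
      Nat.mul_le_mul_right _ (Nat.mul_le_mul_left _ (by omega))
    _ = _ := by ring

theorem ar3 {ν w v : ℕ} (hν : 3 ≤ ν) (hw : 1 ≤ w) (hv : v = 1 + ν * w) :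
    (ν - 2) * v + 1 ≤ ν ^ 2 * w := by
  subst hv
  obtain ⟨n, rfl⟩ : ∃ n, ν = n + 3 := ⟨ν - 3, by omega⟩
  have e0 : n + 3 - 2 = n + 1 := by omega
  have e1 : (n + 1) * (1 + (n + 3) * w) + 1 = n ^ 2 * w + 4 * (n * w) + 3 * w + n + 2 := by ring
  have e2 : (n + 3) ^ 2 * w = n ^ 2 * w + 6 * (n * w) + 9 * w := by ring
  rw [e0, e1, e2]
  have : n * 1 ≤ n * w := Nat.mul_le_mul_left _ hw
  omega

/-- Arithmetic for one batch. -/
theorem one_batch {ν θ K N s R pre own Y1 : ℕ} (hν : 3 ≤ ν) (hθ : 4 ≤ θ) (hK : θ + 8 ≤ K)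
    (hR : ν + 2 ≤ R) (hN : N = ν ^ (θ + 1) * (2 * K + R + 2))
    (hs1 : ν ^ (θ + 1) * K ≤ s + 2) (hs2 : s + 3 ≤ ν ^ (θ + 1) * K + 2 * ν)
    (hpre : pre = s * Wf ν (θ + 1) + ν ^ (θ + 1) * Y1)
    (hpre2 : pre ≤ (ν - 2) * Wf ν K + 1) (hY1 : Y1 ≤ (ν - 2) * Wf ν (K - 1 - θ) + 1)
    (hown : ν ^ (θ + 1) ∣ own) (hown1 : own ≤ R * ν ^ (K - 1))
    (hown2 : R * ν ^ (K - 1) ≤ own + ν ^ (K - 4)) (hNW : N * Wf ν (θ + 1) + 1 ≤ ν ^ (K - 4)) :
    ∃ f : ℕ → ℕ, (∀ i, θ + 1 ≤ f i) ∧ (∀ i, i ≠ s → f i < K) ∧ f s = K ∧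
      ∑ i ∈ range s, Wf ν (f i) = pre ∧ ∑ i ∈ range N, Wf ν (f i) = own := by
  obtain ⟨J, hJ⟩ : ∃ J, J = K - 2 - θ := ⟨_, rfl⟩
  obtain ⟨X, hX⟩ : ∃ X, X = ν ^ (θ + 1) := ⟨_, rfl⟩
  obtain ⟨W, hW⟩ : ∃ W, W = Wf ν (θ + 1) := ⟨_, rfl⟩
  have hJ1 : K - 1 - θ = J + 1 := by omega
  have hJpos : 1 ≤ J := by omega
  have hX2 : ν ^ 2 ≤ X := by rw [hX]; exact Nat.pow_le_pow_right (by omega) (by omega)
  have hX0 : 0 < X := by rw [hX]; exact pow_pos (by omega) _
  have hWfJ : 1 ≤ Wf ν J := by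
    have := Wf_mono ν hJpos
    rwa [Wf_one] at this
  have hWJ1 : Wf ν (J + 1) = 1 + ν * Wf ν J := Wf_succ' ν J
  have hWK : Wf ν K = W + X * Wf ν (J + 1) := by
    rw [hW, hX, ← Wf_add]; congr 1; omega
  have hνK : ν ^ (K - 1) = X * ν ^ J := by rw [hX, ← pow_add]; congr 1; omega
  have hgeo := Wf_geom (ν := ν) (by omega) K
  have hνKK : ν ^ K = ν * ν ^ (K - 1) := by rw [← pow_succ']; congr 1; omega
  have h14 : ν ^ (K - 4) ≤ ν ^ (K - 1) := Nat.pow_le_pow_right (by omega) (by omega)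
  rw [← hX] at hN hs1 hs2 hpre hown
  rw [← hW] at hpre hNW
  rw [hJ1] at hY1
  have hJK : J ≤ K := by omega
  have hνJ : ν * J ≤ ν * K := Nat.mul_le_mul_left _ hJK
  -- `s - ν J` is large
  have hsJ : ν ^ 2 + ν * J + 2 ≤ X * K := by
    have h1 : ν ^ 2 * K ≤ X * K := Nat.mul_le_mul_right _ hX2
    have h2 : ν ^ 2 + ν * K + 2 ≤ ν ^ 2 * K := ar1 hν (by omega)
    omega
  have hsJ' : ν ^ 2 ≤ s - ν * J := by omega
  have hYs : Y1 ≤ (s - ν * J) * Wf ν J := by
    have h1 : (ν - 2) * Wf ν (J + 1) + 1 ≤ ν ^ 2 * Wf ν J := ar3 hν hWfJ hWJ1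
    exact (hY1.trans h1).trans (Nat.mul_le_mul_right _ hsJ')
  -- the second part
  have hbig : X * (K + R + 2) ≤ N - s - 1 + 2 * ν := by
    have h1 : X * (2 * K + R + 2) = X * K + X * (K + R + 2) := by ring
    omega
  have hsN : s + 1 ≤ N := by
    have h1 : X * (2 * K + R + 2) = X * K + X * (K + R + 2) := by ring
    have h2 : ν ^ 2 * (K + R + 2) ≤ X * (K + R + 2) := Nat.mul_le_mul_right _ hX2
    have h3 := ar2 (ν := ν) (K := K) (R := R) hν
    have h4 : 0 ≤ R * ν := Nat.zero_le _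
    omega
  obtain ⟨n2, hn2⟩ : ∃ n2, N = s + 1 + n2 := ⟨N - s - 1, by omega⟩
  have hn2b : R * ν + ν * J ≤ n2 := by
    have h1 : ν ^ 2 * (K + R + 2) ≤ X * (K + R + 2) := Nat.mul_le_mul_right _ hX2
    have h2 := ar2 (ν := ν) (K := K) (R := R) hν
    omega
  have hn2W : n2 * W ≤ N * W := Nat.mul_le_mul_right _ (by omega)
  have hWKpre : Wf ν K + pre ≤ ν ^ K := by
    have : Wf ν K + (ν - 2) * Wf ν K = (ν - 1) * Wf ν K := by
      obtain ⟨n, rfl⟩ : ∃ n, ν = n + 3 := ⟨ν - 3, by omega⟩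
      have e1 : n + 3 - 2 = n + 1 := by omega
      have e2 : n + 3 - 1 = n + 2 := by omega
      rw [e1, e2]; ring
    omega
  have hle : Wf ν K + pre + n2 * W ≤ own := by
    have h1 : (ν + 2) * ν ^ (K - 1) ≤ R * ν ^ (K - 1) := Nat.mul_le_mul_right _ hR
    have h2 : (ν + 2) * ν ^ (K - 1) = ν ^ K + 2 * ν ^ (K - 1) := by rw [hνKK]; ring
    omega
  obtain ⟨Y2, hY2⟩ : ∃ Y2, own = Wf ν K + pre + n2 * W + X * Y2 := by
    have e : Wf ν K + pre + n2 * W = N * W + X * (Wf ν (J + 1) + Y1) := by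
      rw [hWK, hpre, hn2]; ring
    have hd : X ∣ Wf ν K + pre + n2 * W := by
      rw [e]
      apply Dvd.dvd.add _ (Dvd.intro _ rfl)
      rw [hN]
      exact Dvd.dvd.mul_right (Dvd.intro _ rfl) _
    obtain ⟨z, hz⟩ := Nat.dvd_sub hown hd
    exact ⟨z, by omega⟩
  have hY2le : Y2 ≤ (n2 - ν * J) * Wf ν J := by
    have h1 : X * Y2 ≤ X * (R * ν ^ J) := by
      calc X * Y2 ≤ own := by omega
        _ ≤ R * ν ^ (K - 1) := hown1
        _ = X * (R * ν ^ J) := by rw [hνK]; ring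
    have h2 := Nat.le_of_mul_le_mul_left h1 hX0
    have h3 : ν ^ J ≤ ν * Wf ν J := by
      obtain ⟨j, rfl⟩ : ∃ j, J = j + 1 := ⟨J - 1, by omega⟩
      rw [pow_succ']
      exact Nat.mul_le_mul_left _ (pow_le_Wf ν j)
    calc Y2 ≤ R * ν ^ J := h2
      _ ≤ R * (ν * Wf ν J) := Nat.mul_le_mul_left _ h3
      _ = R * ν * Wf ν J := by ring
      _ ≤ _ := Nat.mul_le_mul_right _ (by omega)
  subst hX hW
  obtain ⟨f, h1, h2, h3, h4, h5⟩ := batch' (ν := ν) (θ := θ) (J := J) (K := K) (s := s) (n2 := n2)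
    (pre := pre) (own := own) (Y1 := Y1) (Y2 := Y2) (by omega) hpre (by omega) hYs hY2 (by omega)
    hY2le
  rw [← hn2] at h5
  exact ⟨f, h1, h2, h3, h4, h5⟩

theorem exists_plan' {ν R M L : ℕ} (hν : 3 ≤ ν) (hR : ν + 2 ≤ R) (T : List (ℕ × ℕ))
    (hT : ∀ r < T.length, clT T r < M) :
    ∃ K N s sI : ℕ, ∃ life lifeI : ℕ → ℕ, IsPlan ν R M L T K N s sI life lifeI := by
  obtain ⟨K, N, hK, hKmod, hNe, hbig⟩ := pick_K' ν R M L T.length hν
  obtain ⟨θ, hθ⟩ : ∃ θ, θ = lam M := ⟨_, rfl⟩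
  have hθ4 : 4 ≤ θ := by rw [hθ]; unfold lam; omega
  obtain ⟨W, hW⟩ : ∃ W, W = Wf ν (θ + 1) := ⟨_, rfl⟩
  obtain ⟨X, hX⟩ : ∃ X, X = ν ^ (θ + 1) := ⟨_, rfl⟩
  obtain ⟨mt, hmt⟩ : ∃ mt, mt = nt ν N M L T := ⟨_, rfl⟩
  obtain ⟨m, hm⟩ : ∃ m, m = nm ν N M T := ⟨_, rfl⟩
  obtain ⟨ρ, hρ⟩ : ∃ ρ, ρ = R * ν ^ (K - 1) := ⟨_, rfl⟩
  have hmtE : mt = N * (T.length + L) + W + X := by
    rw [hmt, nt_eq (by omega), hW, hX, hθ]
  have hmE : m = N * T.length + W := by rw [hm, hW, hθ]; rfl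
  rw [← hθ, ← hW, ← hX] at hbig
  rw [← hθ] at hK
  rw [← hmtE] at hbig
  have hNe' : N = X * (2 * K + R + 2) := by rw [hNe, hX, hθ]
  have hlam : ∀ a, a ≤ M → lam a ≤ θ := by
    intro a ha; rw [hθ]; unfold lam; omega
  have hX0 : 0 < X := by rw [hX]; exact pow_pos (by omega) _
  have hXW : (ν - 1) * W + 1 = X := by rw [hW, hX]; exact Wf_geom (by omega) _
  have hN : X ∣ N := by rw [hNe']; exact Dvd.intro _ rfl
  obtain ⟨Nq, hNq⟩ := hN
  have hN' : ν ^ (lam M + 1) ∣ N := ⟨Nq, by rw [hNq, hX, hθ]⟩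
  have hN0 : 0 < N := by rw [hNe']; positivity
  obtain ⟨J, hJ⟩ : ∃ J, J = K - 2 - θ := ⟨_, rfl⟩
  have hJ1 : K - 1 - θ = J + 1 := by omega
  have hWK : Wf ν K = W + X * Wf ν (J + 1) := by
    rw [hW, hX, ← Wf_add]; congr 1; omega
  have hνK : ν ^ (K - 1) = X * ν ^ J := by rw [hX, ← pow_add]; congr 1; omega
  have h14 : ν ^ (K - 4) ≤ ν ^ (K - 1) := Nat.pow_le_pow_right (by omega) (by omega)
  have hXJ : ν ^ (K - 4) ≤ X * Wf ν (J + 1) := by
    rw [hνK] at h14
    exact h14.trans (Nat.mul_le_mul_left _ (pow_le_Wf ν J))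
  have hXJ2 : X * Wf ν (J + 1) ≤ (ν - 2) * (X * Wf ν (J + 1)) :=
    Nat.le_mul_of_pos_left _ (by omega)
  have hF : ∀ a, a ≤ M → fwn ν mt M a ≤ Wf ν θ + mt * ν ^ θ := by
    intro a ha
    exact fwn_le (by omega) (hlam a ha)
  have hZle : ∀ a, a < M → Zd ν N M L T a + X * (K * W + 2 * ν * (W + 1)) ≤ ν ^ (K - 4) ∧
      Fr ν mt N T a T.length + X * (K * W + 1) ≤ ν ^ (K - 4) := by
    intro a ha
    have h1 := Fr_le (ν := ν) (m := mt) (N := N) T (by omega) (hlam a ha.le) T.length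
    have h3 : W * fwn ν mt M a ≤ W * (Wf ν θ + mt * ν ^ θ) := Nat.mul_le_mul_left _ (hF a ha.le)
    have h4 : Zd ν N M L T a = (ν - 1) * W ^ 3 + (N * L + X) + Fr ν mt N T a T.length +
        W * fwn ν mt M a := by
      unfold Zd
      rw [nI_add (by omega), ← hmt, ← hθ, ← hX, ← hW]
    have h5 : X * (K + 2 * ν) * (W + 1) = X * (K * W + 2 * ν * (W + 1)) + X * K := by ring
    have h6 : N * (W + T.length + L + 1) = N * W + N * T.length + N * L + N := by ring
    have h7 : X * (W + 2) = X * W + 2 * X := by ring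
    have h8 : X * (K * W + 1) ≤ X * (K * W + 2 * ν * (W + 1)) := by
      apply Nat.mul_le_mul_left
      have : 1 ≤ 2 * ν * (W + 1) := Nat.succ_le_of_lt (by positivity)
      omega
    rw [h4]
    constructor <;> omega
  have hNW : N * W + 1 ≤ ν ^ (K - 4) := by
    have h6 : N * (W + T.length + L + 1) = N * W + N * (T.length + L) + N := by ring
    omega
  have hNt : N * T.length + X * W + X * (K * W + 1) ≤ ν ^ (K - 4) := by
    have h5 : X * (K + 2 * ν) * (W + 1) = X * (K * W + 1) + X * (K + 2 * ν * (W + 1) - 1) := by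
      have : 1 ≤ K + 2 * ν * (W + 1) := by omega
      obtain ⟨q, hq⟩ : ∃ q, K + 2 * ν * (W + 1) = q + 1 := ⟨K + 2 * ν * (W + 1) - 1, by omega⟩
      rw [hq, Nat.add_sub_cancel]
      have e : (K + 2 * ν) * (W + 1) = K * W + 1 + q := by
        have : (K + 2 * ν) * (W + 1) = K * W + (K + 2 * ν * (W + 1)) := by ring
        omega
      rw [Nat.mul_assoc, e]; ring
    have h6 : N * (W + T.length + L + 1) = N * W + N * T.length + N * L + N := by ring
    have h7 : X * (W + 2) = X * W + 2 * X := by ring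
    omega
  -- normal batches
  obtain ⟨s, hs⟩ : ∃ s, s + 3 = X * K + 2 * ν := ⟨X * K + 2 * ν - 3, by omega⟩
  have hpre : ∀ r, r < T.length → ∃ pre Y1, pre = s * W + X * Y1 ∧
      pre + 1 + Fr ν mt N T (clT T r) r = (ν - 2) * Wf ν K ∧ Y1 ≤ (ν - 2) * Wf ν (J + 1) := by
    intro r hr
    obtain ⟨hZ, hFr0⟩ := hZle _ (hT r hr)
    obtain ⟨Fq, hFq⟩ : X ∣ Fr ν mt N T (clT T r) r := Fr_dvd T _ _ ⟨Nq, hNq⟩
    have hFr := Fr_mono ν mt N T (clT T r) hr.le
    have hle : K * W + 1 + Fq ≤ (ν - 2) * Wf ν (J + 1) := by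
      have h1 : X * (K * W + 1 + Fq) ≤ X * ((ν - 2) * Wf ν (J + 1)) := by
        calc X * (K * W + 1 + Fq) = X * (K * W + 1) + X * Fq := by ring
          _ ≤ ν ^ (K - 4) := by rw [← hFq]; omega
          _ ≤ _ := hXJ.trans hXJ2
          _ = _ := by ring
      exact Nat.le_of_mul_le_mul_left h1 hX0
    obtain ⟨Y1, hY1⟩ : ∃ Y1, Y1 + (K * W + 1 + Fq) = (ν - 2) * Wf ν (J + 1) :=
      ⟨(ν - 2) * Wf ν (J + 1) - (K * W + 1 + Fq), by omega⟩
    refine ⟨s * W + X * Y1, Y1, rfl, ?_, by omega⟩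
    have h1 : (ν - 2) * Wf ν K = (ν - 2) * W + X * ((ν - 2) * Wf ν (J + 1)) := by rw [hWK]; ring
    rw [h1, ← hY1, hFq]
    have h2 : s * W + 3 * W = X * K * W + 2 * ν * W := by
      rw [← Nat.add_mul, hs]; ring
    have h3 : (ν - 2) * W + 3 * W + X = 2 * ν * W + 1 := by
      rw [← hXW]
      obtain ⟨n, rfl⟩ : ∃ n, ν = n + 3 := ⟨ν - 3, by omega⟩
      have e1 : n + 3 - 2 = n + 1 := by omega
      have e2 : n + 3 - 1 = n + 2 := by omega
      rw [e1, e2]; ring
    have h4 : X * (Y1 + (K * W + 1 + Fq)) = X * Y1 + X * K * W + X + X * Fq := by ring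
    rw [h4]
    omega
  have hownd : ∀ r, r < T.length → X ∣ owd ν N M L ρ T r ∧ owd ν N M L ρ T r ≤ ρ ∧
      ρ ≤ owd ν N M L ρ T r + ν ^ (K - 4) := by
    intro r hr
    have hd2 : X ∣ ρ := by
      rw [hρ, hνK]
      exact ⟨R * ν ^ J, by ring⟩
    have hZ := (hZle _ (hT r hr)).1
    unfold owd
    split_ifs
    · refine ⟨?_, Nat.sub_le _ _, by omega⟩
      apply Nat.dvd_sub hd2
      rw [hX, hθ]
      exact Zd_dvd (by omega) hN' (hT r hr).le
    · exact ⟨hd2, le_rfl, by omega⟩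
  have hbatch : ∀ r, ∃ f : ℕ → ℕ, r < T.length → (∀ i, θ + 1 ≤ f i) ∧ (∀ i, i ≠ s → f i < K) ∧
      f s = K ∧ ∑ i ∈ range s, Wf ν (f i) + 1 + Fr ν mt N T (clT T r) r = (ν - 2) * Wf ν K ∧
      ∑ i ∈ range N, Wf ν (f i) = owd ν N M L ρ T r := by
    intro r
    by_cases hr : r < T.length
    swap
    · exact ⟨fun _ => 0, fun h => absurd h hr⟩
    obtain ⟨pre, Y1, h1, h2, h3⟩ := hpre r hr
    obtain ⟨h4, h5, h6⟩ := hownd r hr
    obtain ⟨f, g1, g2, g3, g4, g5⟩ := one_batch (ν := ν) (θ := θ) (K := K) (N := N) (s := s) (R := R)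
      (pre := pre) (own := owd ν N M L ρ T r) (Y1 := Y1) hν hθ4 hK hR (by rw [hNe', hX])
      (by rw [← hX]; omega) (by rw [← hX]; omega) (by rw [← hX, ← hW]; exact h1) (by omega)
      (by rw [hJ1]; omega) (by rw [← hX]; exact h4) (by rw [← hρ]; exact h5)
      (by rw [← hρ]; exact h6) (by rw [← hW]; exact hNW)
    exact ⟨f, fun _ => ⟨g1, g2, g3, by rw [g4]; exact h2, g5⟩⟩
  choose f hf using hbatch
  -- batches of the start
  obtain ⟨sI, hsI⟩ : ∃ sI, sI + 2 = X * K := ⟨X * K - 2, by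
    have : 1 * 2 ≤ X * K := Nat.mul_le_mul hX0 (by omega)
    omega⟩
  have hpreI : ∃ pre Y1, pre = sI * W + X * Y1 ∧ pre + m = (ν - 2) * Wf ν K + 1 ∧
      Y1 ≤ (ν - 2) * Wf ν (J + 1) + 1 := by
    have hle : K * W + Nq * T.length ≤ (ν - 2) * Wf ν (J + 1) + 1 := by
      have h1 : X * (K * W + Nq * T.length) ≤ X * ((ν - 2) * Wf ν (J + 1)) := by
        calc X * (K * W + Nq * T.length) = X * (K * W) + N * T.length := by rw [hNq]; ring
          _ ≤ ν ^ (K - 4) := by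
            have : X * (K * W + 1) = X * (K * W) + X := by ring
            omega
          _ ≤ _ := hXJ.trans hXJ2
          _ = _ := by ring
      have := Nat.le_of_mul_le_mul_left h1 hX0
      omega
    obtain ⟨Y1, hY1⟩ : ∃ Y1, Y1 + (K * W + Nq * T.length) = (ν - 2) * Wf ν (J + 1) + 1 :=
      ⟨(ν - 2) * Wf ν (J + 1) + 1 - (K * W + Nq * T.length), by omega⟩
    refine ⟨sI * W + X * Y1, Y1, rfl, ?_, by omega⟩
    have h1 : (ν - 2) * Wf ν K + X = (ν - 2) * W + X * ((ν - 2) * Wf ν (J + 1) + 1) := by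
      rw [hWK]; ring
    have h2 : sI * W + 2 * W = X * K * W := by rw [← Nat.add_mul, hsI]
    have h3 : (ν - 2) * W + W + 1 = X := by
      rw [← hXW]
      obtain ⟨n, rfl⟩ : ∃ n, ν = n + 3 := ⟨ν - 3, by omega⟩
      have e1 : n + 3 - 2 = n + 1 := by omega
      have e2 : n + 3 - 1 = n + 2 := by omega
      rw [e1, e2]; ring
    have h4 : X * (Y1 + (K * W + Nq * T.length)) = X * Y1 + X * K * W + N * T.length := by
      rw [hNq]; ring
    rw [← hY1, h4] at h1
    omega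
  obtain ⟨preI, Y1I, hpI1, hpI2, hpI3⟩ := hpreI
  have hρX : X ∣ ρ := by
    rw [hρ, hνK]
    exact ⟨R * ν ^ J, by ring⟩
  have hρbig : ν ^ (K - 4) ≤ ρ := by
    rw [hρ]
    exact h14.trans (Nat.le_mul_of_pos_left _ (by omega))
  obtain ⟨fI, hfI1, hfI2, hfI3, hfI4, hfI5⟩ := one_batch (ν := ν) (θ := θ) (K := K) (N := N)
    (s := sI) (R := R) (pre := preI) (own := ρ) (Y1 := Y1I) hν hθ4 hK hR (by rw [hNe', hX])
    (by rw [← hX]; omega) (by rw [← hX]; omega) (by rw [← hX, ← hW]; exact hpI1) (by omega)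
    (by rw [hJ1]; omega) (by rw [← hX]; exact hρX) (by rw [← hρ])
    (by rw [← hρ]; omega) (by rw [← hW]; exact hNW)
  obtain ⟨fL, hfL1, hfL2, hfL3, hfL4, hfL5⟩ := one_batch (ν := ν) (θ := θ) (K := K) (N := N)
    (s := sI) (R := R) (pre := preI) (own := ρ - (N * T.length + X * W)) (Y1 := Y1I) hν hθ4 hK hR
    (by rw [hNe', hX]) (by rw [← hX]; omega) (by rw [← hX]; omega)
    (by rw [← hX, ← hW]; exact hpI1) (by omega)
    (by rw [hJ1]; omega) (by
      rw [← hX]
      apply Nat.dvd_sub hρX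
      apply Dvd.dvd.add _ (Dvd.intro _ rfl)
      rw [hNq]
      exact Dvd.dvd.mul_right (Dvd.intro _ rfl) _) (by rw [← hρ]; omega)
    (by rw [← hρ]; omega) (by rw [← hW]; exact hNW)
  have hsN : s < N ∧ sI < N := by
    have h1 : X * (2 * K + R + 2) = X * K + X * (K + R + 2) := by ring
    have h2 : X * (K + R + 2) = X * K + X * R + 2 * X := by ring
    have h3 : 1 * R ≤ X * R := Nat.mul_le_mul_right _ hX0
    have h4 : 1 * K ≤ X * K := Nat.mul_le_mul_right _ hX0
    have h5 : ν ≤ X := by rw [hX]; exact Nat.le_self_pow (by omega) ν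
    omega
  obtain ⟨life, hlife⟩ : ∃ life : ℕ → ℕ, life = fun j =>
    if j < N * T.length then f (j / N) (j % N) else θ + 1 := ⟨_, rfl⟩
  obtain ⟨lifeI, hlifeI⟩ : ∃ lifeI : ℕ → ℕ, lifeI = fun j =>
    if j < N * L then (if j / N + 1 = L then fL (j % N) else fI (j % N)) else θ + 1 := ⟨_, rfl⟩
  have hdiv : ∀ j, j < N * T.length → j / N < T.length := by
    intro j hj
    exact Nat.div_lt_of_lt_mul hj
  have hle : ∀ j, life j ≤ K := by
    intro j
    rw [hlife]
    dsimp only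
    split_ifs with h
    · obtain ⟨_, h2, h3, _⟩ := hf _ (hdiv j h)
      by_cases hjs : j % N = s
      · rw [hjs, h3]
      · exact (h2 _ hjs).le
    · omega
  have hleI : ∀ j, lifeI j ≤ K := by
    intro j
    rw [hlifeI]
    dsimp only
    split_ifs with h h1
    · by_cases hjs : j % N = sI
      · rw [hjs, hfL3]
      · exact (hfL2 _ hjs).le
    · by_cases hjs : j % N = sI
      · rw [hjs, hfI3]
      · exact (hfI2 _ hjs).le
    · omega
  have hclN : ∀ r < T.length, ∀ i < N, N * r + i < N * T.length ∧ (N * r + i) / N = r ∧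
      (N * r + i) % N = i := by
    intro r hr i hi
    refine ⟨?_, ?_, ?_⟩
    · calc N * r + i < N * r + N := by omega
        _ = N * (r + 1) := by ring
        _ ≤ _ := Nat.mul_le_mul_left _ hr
    · rw [Nat.mul_add_div hN0, Nat.div_eq_of_lt hi, Nat.add_zero]
    · rw [Nat.mul_add_mod, Nat.mod_eq_of_lt hi]
  -- weights
  have hwt : ∀ A : Pat, A.ν = ν → A.mt = mt → ∀ (d : ℕ → ℕ) (a : ℕ), a < M → ∀ r < T.length,
      ∀ i < N, (lgrp m (clf N M T) life d a).wt A K (N * r + i) =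
        if clT T r = a then Wf ν (f r i) else fwn ν mt (clT T r) a := by
    intro A hAν hAm d a ha r hr i hi
    obtain ⟨h1, h2, h3⟩ := hclN r hr i hi
    have hcl : clf N M T (N * r + i) = clT T r := by
      unfold clf
      rw [if_pos h1, h2]
    have hlf : life (N * r + i) = f r i := by
      rw [hlife]
      dsimp only
      rw [if_pos h1, h2, h3]
    have hrM := hT r hr
    split_ifs with h
    · rw [wt_own (by rw [hcl, h]) (hle _), hlf, hAν]
    · rw [wt_foreign (by rw [hcl]; exact h) (by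
          have := hlam a ha.le
          omega) (by
          left
          rw [hcl]
          have := hlam _ hrM.le
          omega), hcl, hAν, hAm]
  have hpw : ∀ A : Pat, A.ν = ν → A.mt = mt → ∀ (d : ℕ → ℕ) (a : ℕ), a < M → ∀ r, r ≤ T.length →
      (lgrp m (clf N M T) life d a).pw A K (N * r) = ∑ i ∈ range r, bwd ν N M L ρ T a i := by
    intro A hAν hAm d a ha r
    induction r with
    | zero => intro _; simp [Grp.pw]
    | succ r ih =>
      intro hr
      rw [Finset.sum_range_succ, ← ih (by omega)]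
      unfold Grp.pw
      rw [Nat.mul_succ, Finset.sum_range_add]
      congr 1
      rw [Finset.sum_congr rfl (g := fun i => if clT T r = a then Wf ν (f r i)
        else fwn ν mt (clT T r) a)]
      · unfold bwd
        rw [← hmt]
        split_ifs with h
        · exact (hf r (by omega)).2.2.2.2
        · simp
      · intro i hi
        rw [Finset.mem_range] at hi
        exact hwt A hAν hAm d a ha r (by omega) i hi
  have hwtI : ∀ A : Pat, A.ν = ν → ∀ (d : ℕ → ℕ), ∀ r < L, ∀ i < N,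
      (igrp (nI ν N M L) lifeI d).wt A K (N * r + i) =
        Wf ν (if r + 1 = L then fL i else fI i) := by
    intro A hAν d r hr i hi
    rw [wt_init (hleI _), hAν, hlifeI]
    dsimp only
    have h1 : N * r + i < N * L := by
      calc N * r + i < N * r + N := by omega
        _ = N * (r + 1) := by ring
        _ ≤ _ := Nat.mul_le_mul_left _ hr
    rw [if_pos h1, Nat.mul_add_div hN0, Nat.div_eq_of_lt hi, Nat.add_zero, Nat.mul_add_mod,
      Nat.mod_eq_of_lt hi]
  have hpwI : ∀ A : Pat, A.ν = ν → ∀ (d : ℕ → ℕ), ∀ r, r ≤ L →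
      (igrp (nI ν N M L) lifeI d).pw A K (N * r) =
        ∑ i ∈ range r, (if i + 1 = L then ρ - (N * T.length + X * W) else ρ) := by
    intro A hAν d r
    induction r with
    | zero => intro _; simp [Grp.pw]
    | succ r ih =>
      intro hr
      rw [Finset.sum_range_succ, ← ih (by omega)]
      unfold Grp.pw
      rw [Nat.mul_succ, Finset.sum_range_add]
      congr 1
      rw [Finset.sum_congr rfl (g := fun i => Wf ν (if r + 1 = L then fL i else fI i))]
      · split_ifs with h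
        · exact hfL5
        · exact hfI5
      · intro i hi
        rw [Finset.mem_range] at hi
        exact hwtI A hAν d r (by omega) i hi
  have hsumI : ∀ r, r < L → ∑ i ∈ range r,
      (if i + 1 = L then ρ - (N * T.length + X * W) else ρ) = ρ * r := by
    intro r hr
    rw [Finset.sum_congr rfl (g := fun _ => ρ)]
    · simp [Nat.mul_comm]
    · intro i hi
      rw [Finset.mem_range] at hi
      rw [if_neg (by omega)]
  refine ⟨K, N, s, sI, life, lifeI, ⟨by rw [← hθ]; exact hK, hKmod, hN', hN0, hsN.1, hsN.2, ?_, hle,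
    ?_, ?_, hleI, ?_, ?_, ?_, ?_, ?_⟩⟩
  · intro j
    rw [hlife, ← hθ]
    dsimp only
    split_ifs with h
    · exact (hf _ (hdiv j h)).1 _
    · exact le_rfl
  · intro j
    rw [hlife]
    dsimp only
    split_ifs with h
    · obtain ⟨_, h2, h3, _⟩ := hf _ (hdiv j h)
      constructor
      · intro h4
        refine ⟨h, ?_⟩
        by_contra h5
        have := h2 _ h5
        omega
      · rintro ⟨_, h4⟩
        rw [h4, h3]
    · constructor
      · intro h4; omega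
      · rintro ⟨h4, _⟩; exact absurd h4 h
  · intro j
    rw [hlifeI, ← hθ]
    dsimp only
    split_ifs with h h1
    · exact hfL1 _
    · exact hfI1 _
    · exact le_rfl
  · intro j
    rw [hlifeI]
    dsimp only
    split_ifs with h h1
    · constructor
      · intro h4
        refine ⟨h, ?_⟩
        by_contra h5
        have := hfL2 _ h5
        omega
      · rintro ⟨_, h4⟩
        rw [h4, hfL3]
    · constructor
      · intro h4
        refine ⟨h, ?_⟩
        by_contra h5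
        have := hfI2 _ h5
        omega
      · rintro ⟨_, h4⟩
        rw [h4, hfI3]
    · constructor
      · intro h4; omega
      · rintro ⟨h4, _⟩; exact absurd h4 h
  · intro A hAν hAm d r hr
    rw [← hmt] at hAm
    rw [← hm, ← hρ]
    have ha := hT r hr
    obtain ⟨hZ, hFb⟩ := hZle _ ha
    have h1 := bwd_sum (ν := ν) (N := N) (M := M) (L := L) (ρ := ρ) (T := T)
      (a := clT T r) (by omega) r hr.le
    have h2 : ¬ (cnt T (clT T r) r = cnt T (clT T r) T.length ∧ 0 < cnt T (clT T r) T.length) := by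
      have h3 := cnt_succ (T := T) (clT T r) hr
      rw [if_pos rfl] at h3
      have h4 := cnt_mono (T := T) (clT T r) (show r + 1 ≤ T.length by omega)
      omega
    rw [if_neg h2, ← hmt] at h1
    have h5 := hpw A hAν hAm d (clT T r) ha r hr.le
    have h7 : (lgrp m (clf N M T) life d (clT T r)).pw A K (N * r + s) =
        (lgrp m (clf N M T) life d (clT T r)).pw A K (N * r) + ∑ i ∈ range s, Wf ν (f r i) := by
      unfold Grp.pw
      rw [Finset.sum_range_add]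
      congr 1
      apply Finset.sum_congr rfl
      intro i hi
      rw [Finset.mem_range] at hi
      rw [hwt A hAν hAm d (clT T r) ha r hr i (by omega), if_pos rfl]
    have h8 := (hf r hr).2.2.2.1
    rw [h7, h5]
    omega
  · intro A hAν hAm d a ha hpos
    rw [← hmt] at hAm
    rw [← hm, ← hρ, ← hθ, ← hW]
    obtain ⟨hZ, hFb⟩ := hZle _ ha
    have h1 := bwd_sum (ν := ν) (N := N) (M := M) (L := L) (ρ := ρ) (T := T)
      (a := a) (by omega) T.length le_rfl
    rw [if_pos ⟨rfl, hpos⟩, ← hmt] at h1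
    have h5 := hpw A hAν hAm d a ha T.length le_rfl
    have h7 : (lgrp m (clf N M T) life d a).pw A K m =
        (lgrp m (clf N M T) life d a).pw A K (N * T.length) + W * fwn ν mt M a := by
      conv_lhs => rw [hmE]
      unfold Grp.pw
      rw [Finset.sum_range_add]
      congr 1
      rw [Finset.sum_congr rfl (g := fun _ => fwn ν mt M a)]
      · simp
      · intro i _
        have hcl : clf N M T (N * T.length + i) = M := by
          unfold clf
          rw [if_neg (by omega)]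
        rw [wt_foreign (by rw [hcl]; omega) (by
          have := hlam a ha.le
          omega) (by right; rw [hcl]; exact ha), hcl, hAν, hAm]
    have h8 : Zd ν N M L T a = (ν - 1) * W ^ 3 + (1 + nI ν N M L) + Fr ν mt N T a T.length +
        W * fwn ν mt M a := by
      unfold Zd
      rw [← hmt, ← hθ, ← hW]
    rw [h7, h5]
    omega
  · intro A hAν d r hr
    rw [← hm, ← hρ]
    have h7 : (igrp (nI ν N M L) lifeI d).pw A K (N * r + sI) =
        (igrp (nI ν N M L) lifeI d).pw A K (N * r) + preI := by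
      unfold Grp.pw
      rw [Finset.sum_range_add]
      congr 1
      rw [Finset.sum_congr rfl (g := fun i => Wf ν (if r + 1 = L then fL i else fI i))]
      · split_ifs with h
        · exact hfL4
        · exact hfI4
      · intro i hi
        rw [Finset.mem_range] at hi
        exact hwtI A hAν d r hr i (by omega)
    rw [h7, hpwI A hAν d r hr.le, hsumI r hr]
    omega
  · intro A hAν d hL
    rw [← hm, ← hρ]
    obtain ⟨l, rfl⟩ : ∃ l, L = l + 1 := ⟨L - 1, by omega⟩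
    have h7 : (igrp (nI ν N M (l + 1)) lifeI d).pw A K (nI ν N M (l + 1)) =
        (igrp (nI ν N M (l + 1)) lifeI d).pw A K (N * (l + 1)) + (X - 1) * W := by
      have e : nI ν N M (l + 1) = N * (l + 1) + (X - 1) := by rw [hX, hθ]; rfl
      unfold Grp.pw
      conv_lhs => rw [e]
      rw [Finset.sum_range_add]
      congr 1
      rw [Finset.sum_congr rfl (g := fun _ => W)]
      · simp
      · intro i _
        rw [wt_init (hleI _), hAν, hlifeI]
        dsimp only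
        rw [if_neg (by omega), hW]
    have h9 : ∑ i ∈ range (l + 1),
        (if i + 1 = l + 1 then ρ - (N * T.length + X * W) else ρ) + (N * T.length + X * W) =
        ρ * (l + 1) := by
      rw [Finset.sum_range_succ, hsumI l (by omega), if_pos rfl, Nat.mul_succ]
      omega
    rw [h7, hpwI A hAν d (l + 1) le_rfl, hmE]
    have h10 : X * W = (X - 1) * W + W := by
      obtain ⟨x, hx⟩ : ∃ x, X = x + 1 := ⟨X - 1, by omega⟩
      rw [hx, Nat.add_sub_cancel]; ring
    omega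

end Pool.Agent.H97.Pcp
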