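import Pool.Agent.H97.Pcp.Defs

/-!
# Runs of the binary tag system with deletion number `6` and complete histories
-/

set_option autoImplicit false

namespace Pool.Agent.H97.Pcp

open Relation Pool.Agent.H97.Tag

variable {w1 : List Bool}

theorem pass_append {u v : List Bool} (hu : 6 ∣ u.length) :
    pass w1 (u ++ v) = pass w1 u ++ pass w1 v := rd_append_aligned (by norm_num) _ v hu

theorem iter_append (u v : List Bool) : ∀ n, (∀ k < n, 6 ∣ ((pass w1)^[k] u).length) →
    (pass w1)^[n] (u ++ v) = (pass w1)^[n] u ++ (pass w1)^[n] v := by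
  intro n
  induction n with
  | zero => intro _; rfl
  | succ n ih =>
    intro h
    rw [Function.iterate_succ_apply', Function.iterate_succ_apply', Function.iterate_succ_apply',
      ih (fun k hk => h k (by omega))]
    exact pass_append (h n (by omega))

theorem reach_pass {u : List Bool} (hu : 6 ∣ u.length) :
    ReflTransGen (TStep 6 (rule w1)) u (pass w1 u) := reach_rd (by norm_num) _ hu

theorem reach_iter (u : List Bool) : ∀ n, (∀ k < n, 6 ∣ ((pass w1)^[k] u).length) →
    ReflTransGen (TStep 6 (rule w1)) u ((pass w1)^[n] u) := by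
  intro n
  induction n with
  | zero => intro _; exact ReflTransGen.refl
  | succ n ih =>
    intro h
    rw [Function.iterate_succ_apply']
    exact (ih (fun k hk => h k (by omega))).trans (reach_pass (h n (by omega)))

theorem reach_iter_pos {u : List Bool} (hu : u ≠ []) {n : ℕ} (hn : 0 < n)
    (h : ∀ k < n, 6 ∣ ((pass w1)^[k] u).length) :
    TransGen (TStep 6 (rule w1)) u ((pass w1)^[n] u) := by
  obtain ⟨n, rfl⟩ : ∃ j, n = j + 1 := ⟨n - 1, by omega⟩
  rw [Function.iterate_succ_apply]
  have h1 := reach_rd_pos (n := 6) (by norm_num) (rule w1) (h 0 (by omega)) hu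
  refine TransGen.trans_left h1 ?_
  exact reach_iter (pass w1 u) n (fun k hk => by
    have := h (k + 1) (by omega)
    rwa [Function.iterate_succ_apply] at this)

/-- The length modulo `5` does not change. -/
theorem length_mod (hw : w1.length % 5 = 1) {S T : List Bool}
    (h : ReflTransGen (TStep 6 (rule w1)) S T) : S.length % 5 = T.length % 5 := by
  induction h with
  | refl => rfl
  | tail _ hs ih =>
    rw [ih]
    obtain ⟨h1, a, t, rfl, rfl⟩ := hs
    rw [List.length_drop, List.length_append]
    cases a with
    | false =>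
      have : (rule w1 false).length = 1 := rfl
      rw [this]
      generalize (false :: t).length = L at *
      omega
    | true =>
      have : (rule w1 true).length = w1.length := rfl
      rw [this]
      generalize (true :: t).length = L at *
      omega

/-- A word of zeros shrinks to a word of length smaller than `6`. -/
theorem zeros_end : ∀ L, 1 ≤ L → ∃ r, 1 ≤ r ∧ r < 6 ∧
    ReflTransGen (TStep 6 (rule w1)) (List.replicate L false) (List.replicate r false) := by
  intro L
  induction L using Nat.strong_induction_on with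
  | _ L ih =>
    intro hL
    by_cases h : L < 6
    · exact ⟨L, hL, h, ReflTransGen.refl⟩
    · obtain ⟨r, h1, h2, h3⟩ := ih (L + 1 - 6) (by omega) (by omega)
      refine ⟨r, h1, h2, ReflTransGen.head ?_ h3⟩
      refine ⟨by simp; omega, false, List.replicate (L - 1) false, ?_, ?_⟩
      · rw [← List.replicate_succ]; congr 1; omega
      · have : rule w1 false = List.replicate 1 false := rfl
        rw [this, List.replicate_append_replicate, List.drop_replicate]

theorem pass_zero {n : ℕ} {u : List Bool} (hu : u.length = 6 * n)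
    (h0 : ∀ i < u.length, i % 6 = 0 → u.getD i false = false) :
    pass w1 u = List.replicate n false := by
  obtain ⟨k, h1, h2, h3⟩ := rd_const (n := 6) (by norm_num) (rule w1) false u 0 (by norm_num) (by
    intro i a hi ha
    have hlt : i < u.length := by
      by_contra hcon
      rw [List.getElem?_eq_none (by omega)] at ha
      simp at ha
    have h4 := h0 i hlt hi
    rw [List.getD_eq_getElem?_getD, ha, Option.getD_some] at h4
    rw [h4]
    rfl)
  unfold pass
  rw [h1]
  congr 1
  omega

/-- The end of the computation. -/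
theorem end_run {q : ℕ} (hq : 1 ≤ q) {S : List Bool} (hS : S.length = 6 * q + 5)
    (h0 : ∀ i < S.length, i % 6 = 0 → S.getD i false = false) :
    ReflTransGen (TStep 6 (rule w1)) S (List.replicate q false) := by
  obtain ⟨u, v, rfl, hu⟩ : ∃ u v : List Bool, S = u ++ v ∧ u.length = 6 * q :=
    ⟨S.take (6 * q), S.drop (6 * q), (List.take_append_drop _ _).symm, by
      rw [List.length_take, hS]; omega⟩
  have hv : v.length = 5 := by rw [List.length_append, hu] at hS; omega
  have h1 := reach_prefix (n := 6) (by omega) (rule w1) q u v hu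
  have h2 : rd 6 (rule w1) 0 u = List.replicate q false := by
    apply pass_zero hu
    intro i hi hi0
    have := h0 i (by rw [List.length_append]; omega) hi0
    rw [List.getD_append _ _ _ _ hi] at this
    exact this
  rw [h2] at h1
  refine h1.trans (ReflTransGen.single ?_)
  obtain ⟨b, t, rfl⟩ : ∃ b t, v = b :: t := by
    cases v with
    | nil => simp at hv
    | cons b t => exact ⟨b, t, rfl⟩
  have hb : b = false := by
    have := h0 (6 * q) (by rw [List.length_append]; omega) (Nat.mul_mod_right _ _)
    rw [List.getD_append_right _ _ _ _ (by omega), hu, Nat.sub_self] at this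
    simpa using this
  subst hb
  have h3 : 6 ≤ (false :: t ++ List.replicate q false).length := by
    rw [List.length_append, hv, List.length_replicate]; omega
  refine ⟨h3, false, t ++ List.replicate q false, rfl, ?_⟩
  have : rule w1 false = List.replicate 1 false := rfl
  rw [this, List.append_assoc, List.replicate_append_replicate, List.drop_append, hv]
  have e1 : List.drop 6 (false :: t) = [] := by
    apply List.drop_eq_nil_of_le
    omega
  rw [e1, List.nil_append, List.drop_replicate]
  congr 1

/-! ### Histories -/

theorem pass_prefix {V s : List Bool} (hV : 6 ∣ V.length) (h : V <+: s) :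
    pass w1 V <+: pass w1 s := by
  obtain ⟨r, rfl⟩ := h
  rw [pass_append hV]
  exact List.prefix_append _ _

theorem hist_step {V a b : List Bool} (hV : 6 ∣ V.length) (hf : pass w1 V = V ++ a)
    (h : TStep 6 (rule w1) a b) :
    ∃ V', V.length < V'.length ∧ 6 ∣ V'.length ∧ pass w1 V' = V' ++ b ∧ V' <+: V ++ a := by
  obtain ⟨h6, c, t, rfl, rfl⟩ := h
  obtain ⟨x, r, hx, hxl⟩ : ∃ x r : List Bool, c :: t = x ++ r ∧ x.length = 6 :=
    ⟨(c :: t).take 6, (c :: t).drop 6, (List.take_append_drop _ _).symm, by
      rw [List.length_take]; omega⟩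
  obtain ⟨x', rfl⟩ : ∃ x', x = c :: x' := by
    cases x with
    | nil => simp at hxl
    | cons b x' =>
      rw [List.cons_append] at hx
      obtain ⟨rfl, _⟩ := List.cons.inj hx
      exact ⟨x', rfl⟩
  have hxp : pass w1 (c :: x') = rule w1 c := by
    unfold pass
    rw [rd_zero_cons, rd_short _ _ _ _ (by simp at hxl; omega), List.append_nil]
  refine ⟨V ++ (c :: x'), ?_, ?_, ?_, ?_⟩
  · rw [List.length_append, hxl]; omega
  · rw [List.length_append, hxl]
    exact Dvd.dvd.add hV dvd_rfl
  · rw [pass_append hV, hf, hxp, hx]
    have : ((c :: x') ++ r ++ rule w1 c).drop 6 = r ++ rule w1 c := by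
      rw [List.append_assoc, ← hxl, List.drop_left]
    rw [this]
    simp
  · rw [hx, ← List.append_assoc]
    exact List.prefix_append _ _

theorem hist_refl {V a b : List Bool} (hV : 6 ∣ V.length) (hf : pass w1 V = V ++ a)
    (h : ReflTransGen (TStep 6 (rule w1)) a b) :
    ∃ V', 6 ∣ V'.length ∧ pass w1 V' = V' ++ b := by
  induction h with
  | refl => exact ⟨V, hV, hf⟩
  | tail _ hs ih =>
    obtain ⟨V', h1, h2⟩ := ih
    obtain ⟨V'', _, h3, h4, _⟩ := hist_step h1 h2 hs
    exact ⟨V'', h3, h4⟩

theorem hist_trans {s V a b : List Bool} (hs : pass w1 s = s) (hV : 6 ∣ V.length)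
    (hf : pass w1 V = V ++ a) (hVs : V <+: s) (h : TransGen (TStep 6 (rule w1)) a b) :
    ∃ V', V.length < V'.length ∧ 6 ∣ V'.length ∧ pass w1 V' = V' ++ b ∧ V' <+: s := by
  induction h with
  | single h =>
    obtain ⟨V', h1, h2, h3, h4⟩ := hist_step hV hf h
    refine ⟨V', h1, h2, h3, h4.trans ?_⟩
    rw [← hf, ← hs]
    exact pass_prefix hV hVs
  | tail _ h ih =>
    obtain ⟨V', h1, h2, h3, h4⟩ := ih
    obtain ⟨V'', g1, g2, g3, g4⟩ := hist_step h2 h3 h
    refine ⟨V'', h1.trans g1, g2, g3, g4.trans ?_⟩
    rw [← h3, ← hs]
    exact pass_prefix h2 h4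

/-- If the run from `a` ends in `0 ^ 5`, there is a complete history. -/
theorem fix_of_reach {V a : List Bool} (hV : 6 ∣ V.length) (hf : pass w1 V = V ++ a)
    (h : ReflTransGen (TStep 6 (rule w1)) a (List.replicate 5 false)) : Fix 6 w1 := by
  obtain ⟨V', h1, h2⟩ := hist_refl hV hf h
  refine ⟨V' ++ List.replicate 6 false, by simp, ?_, ?_⟩
  · rw [List.length_append, List.length_replicate]
    exact Dvd.dvd.add h1 dvd_rfl
  · show pass w1 (V' ++ List.replicate 6 false) = _
    rw [pass_append h1, h2]
    have : pass w1 (List.replicate 6 false) = [false] := rfl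
    rw [this, List.append_assoc]
    rfl

/-- If the run from `a` does not end, there is no complete history which begins with `V`. -/
theorem no_fix {s : List Bool} (hs : pass w1 s = s) {I : List Bool → Prop}
    (hI : ∀ a, I a → ∃ b, I b ∧ TransGen (TStep 6 (rule w1)) a b) :
    ∀ (n : ℕ) (V a : List Bool), I a → 6 ∣ V.length → pass w1 V = V ++ a → V <+: s →
      s.length ≤ V.length + n → False := by
  intro n
  induction n with
  | zero =>
    intro V a ha hV hf hVs hn
    obtain ⟨b, _, hb⟩ := hI a ha
    obtain ⟨V', h1, _, _, h4⟩ := hist_trans hs hV hf hVs hb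
    have := h4.length_le
    omega
  | succ n ih =>
    intro V a ha hV hf hVs hn
    obtain ⟨b, hb, hab⟩ := hI a ha
    obtain ⟨V', h1, h2, h3, h4⟩ := hist_trans hs hV hf hVs hab
    exact ih V' b hb h2 h3 h4 (by omega)

/-- The word before the start is a prefix of every complete history. -/
theorem Vw_prefix {s : List Bool} {k : ℕ} (hs : pass w1 s = s) (h0 : s[0]? = some true) :
    Vw w1 k <+: s := by
  have h1 : w1 <+: s := by
    obtain ⟨b, t, rfl⟩ : ∃ b t, s = b :: t := by
      cases s with
      | nil => simp at h0
      | cons b t => exact ⟨b, t, rfl⟩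
    have hb : b = true := by simpa using h0
    subst hb
    have h2 : pass w1 (true :: t) = w1 ++ rd 6 (rule w1) 5 t := rfl
    rw [h2] at hs
    conv_rhs => rw [← hs]
    exact List.prefix_append _ _
  have h2 : w1.take (6 * (w1.length / 6)) <+: s := (List.take_prefix _ _).trans h1
  have h3 : 6 ∣ (w1.take (6 * (w1.length / 6))).length := by
    rw [List.length_take]
    have : min (6 * (w1.length / 6)) w1.length = 6 * (w1.length / 6) := by omega
    rw [this]
    exact Dvd.intro _ rfl
  have h4 := pass_prefix (w1 := w1) h3 h2
  rw [hs] at h4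
  exact (List.take_prefix _ _).trans h4

end Pool.Agent.H97.Pcp
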