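import Pool.Agent.H97.Pcp.Delta2

/-!
# The conditions on the blocks hold
-/

set_option autoImplicit false

namespace Pool.Agent.H97.Pcp

open Finset Pool.Agent.H97.Tag

/-- The data of the construction. -/
structure Dt where
  /-- half the number of blocks in a cell -/
  R' : ℕ
  /-- number of letters with positions -/
  M : ℕ
  /-- length of the start word -/
  L : ℕ
  /-- number of passes -/
  K : ℕ
  /-- batch size -/
  N : ℕ
  /-- place of the real block -/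
  s : ℕ
  /-- place of the real block of the start -/
  sI : ℕ
  /-- the length of the long production is `5 * ε + 1` -/
  ε : ℕ
  /-- the list of pairs -/
  T : List (ℕ × ℕ)
  /-- lives -/
  life : ℕ → ℕ
  /-- lives of the start blocks -/
  lifeI : ℕ → ℕ
  /-- low parts of the codes -/
  tl : ℕ → ℕ
  /-- letters of the start word -/
  tgI : ℕ → ℕ
  /-- high parts of the codes -/
  h : ℕ → ℕ
  /-- offsets -/
  δ : ℕ → ℕ

namespace Dt

variable (D : Dt)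

/-- Number of normal blocks. -/
def m : ℕ := nm 6 D.N D.M D.T

/-- Number of start blocks. -/
def mI : ℕ := nI 6 D.N D.M D.L

/-- Number of blocks. -/
def mt : ℕ := nt 6 D.N D.M D.L D.T

/-- Class of a block. -/
def cl : ℕ → ℕ := clf D.N D.M D.T

/-- Block length minus one. -/
def E : ℕ := 5 * D.ε

/-- The pattern. -/
def A : Pat := ⟨6, 5 * D.ε, nt 6 D.N D.M D.L D.T, D.δ⟩

/-- The code of a letter divided by `6`. -/
def b (x : ℕ) : ℕ := 4 * D.ε + (6 ^ (D.K - 1) * D.h x + D.tl x)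

/-- The code of a letter. -/
def c (x : ℕ) : ℕ := 6 * D.b x

/-- The group of a letter. -/
def G (a : ℕ) : Grp := lgrp D.m D.cl D.life (fun j => D.b a + D.δ (j + 1) + D.E) a

/-- The group of the start. -/
def GI : Grp := igrp D.mI D.lifeI (fun i => D.δ (D.m + 1 + i) + (5 * D.m - 1) * D.ε)

/-- The properties of the data. -/
structure Full : Prop where
  plan : IsPlan 6 (2 * D.R') D.M D.L D.T D.K D.N D.s D.sI D.life D.lifeI
  del : IsDel (2 * D.R') D.M D.L D.K D.N D.s D.sI D.T D.life D.lifeI D.tl D.tgI D.ε D.h D.δ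
  hR : D.R' = 5 * Wf 6 (lam D.M + 1) ^ 3
  tgM : ∀ r < D.T.length, tgT D.T r < D.M
  clM : ∀ r < D.T.length, clT D.T r < D.M
  tlT : ∀ r < D.T.length, D.tl (clT D.T r) = 6 + 31 * 6 ^ (lam (clT D.T r) - 1)
  tlM : D.tl D.M = 6 + 31 * 6 ^ (lam D.M - 1)
  hL : 0 < D.L
  tgIM : ∀ r < D.L, D.tgI r < D.M

end Dt

theorem Grp.Q_trunc (G : Grp) (A : Pat) (K j : ℕ) {t f : ℕ} (htf : t ≤ f) (htK : t ≤ K) :
    ∃ z, G.d j + Wf A.ν f + A.E * G.pw A K j = G.Q A t j + A.ν ^ t * z := by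
  obtain ⟨z1, h1⟩ := Wf_dvd (ν := A.ν) htf
  obtain ⟨z2, h2⟩ := Grp.pw_trunc (G := G) (A := A) K j htK
  refine ⟨z1 + A.E * z2, ?_⟩
  rw [h1, h2]
  unfold Grp.Q
  ring

/-- The position at the last stage. -/
theorem Grp.X_last (G : Grp) (A : Pat) (K j : ℕ) (hν : 0 < A.ν) (hK : 1 ≤ K) {y : ℕ}
    (h : G.d j + Wf A.ν (K - 1) + A.E * G.pw A K j = A.ν ^ (K - 1) * y) : G.X A (K - 1) j = y := by
  have h4 : G.pw A K j = ∑ u ∈ range (K - 1), G.Iu A u j * A.ν ^ u +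
      G.Iu A (K - 1) j * A.ν ^ (K - 1) := by
    rw [← Grp.pw_eq]
    have : K = K - 1 + 1 := by omega
    conv_lhs => rw [this]
    rw [Finset.sum_range_succ]
  have h5 : G.Q A (K - 1) j + A.ν ^ (K - 1) * (A.E * G.Iu A (K - 1) j) = A.ν ^ (K - 1) * y := by
    rw [← h, h4]
    unfold Grp.Q
    ring
  have h6 : A.ν ^ (K - 1) ∣ G.Q A (K - 1) j := by
    have : A.ν ^ (K - 1) ∣ G.Q A (K - 1) j + A.ν ^ (K - 1) * (A.E * G.Iu A (K - 1) j) := by
      rw [h5]; exact Dvd.intro _ rfl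
    exact (Nat.dvd_add_left (Dvd.intro _ rfl)).1 this
  obtain ⟨z, hz⟩ := h6
  unfold Grp.X
  rw [hz, ← Nat.mul_add] at h5
  rw [hz, Nat.mul_div_cancel_left _ (pow_pos hν _)]
  exact Nat.eq_of_mul_eq_mul_left (pow_pos hν _) h5

namespace Dt.Full

variable {D : Dt}

theorem K8 (F : D.Full) : lam D.M + 8 ≤ D.K := F.plan.hK

theorem ok (F : D.Full) : D.A.Ok := F.del.ok

theorem cl_le (F : D.Full) (j : ℕ) : D.cl j ≤ D.M := by
  unfold Dt.cl clf
  split_ifs with h1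
  · exact (F.clM _ (Nat.div_lt_of_lt_mul h1)).le
  · exact le_rfl

theorem tl_cl (F : D.Full) (j : ℕ) : D.tl (D.cl j) = 6 + 31 * 6 ^ (lam (D.cl j) - 1) := by
  unfold Dt.cl clf
  split_ifs with h1
  · exact F.tlT _ (Nat.div_lt_of_lt_mul h1)
  · exact F.tlM

theorem pow6 (F : D.Full) : 6 ^ D.K = 6 * 6 ^ (D.K - 1) := by
  have := F.K8
  rw [← pow_succ']
  congr 1
  omega

theorem geom (_F : D.Full) : 5 * Wf 6 D.K + 1 = 6 ^ D.K := Wf_geom (ν := 6) (by norm_num) D.K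

/-- The total of a real block. -/
theorem total (F : D.Full) {r : ℕ} (hr : r < D.T.length) :
    (D.G (clT D.T r)).d (D.N * r + D.s) + Wf D.A.ν (D.K - 1) +
      D.A.E * (D.G (clT D.T r)).pw D.A D.K (D.N * r + D.s) =
    D.A.ν ^ (D.K - 1) * (D.c (tgT D.T r) + 2 * D.R' * D.E * cnt D.T (clT D.T r) r) := by
  have hjN : D.N * r + D.s < D.N * D.T.length := by
    have := F.plan.hs
    calc D.N * r + D.s < D.N * r + D.N := by omega
      _ = D.N * (r + 1) := by ring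
      _ ≤ _ := Nat.mul_le_mul_left _ hr
  have hdiv : (D.N * r + D.s) / D.N = r := by
    rw [Nat.mul_add_div F.plan.hN0, Nat.div_eq_of_lt F.plan.hs, Nat.add_zero]
  have hmod : (D.N * r + D.s) % D.N = D.s := by rw [Nat.mul_add_mod, Nat.mod_eq_of_lt F.plan.hs]
  have hlife : D.life (D.N * r + D.s) = D.K := (F.plan.life_eq _).2 ⟨hjN, hmod⟩
  have h1 := F.del.real _ hjN hlife
  rw [hdiv] at h1
  have h2 := F.plan.pw_real D.A rfl rfl
    (fun j => D.b (clT D.T r) + D.δ (j + 1) + D.E) r hr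
  have h3 := F.pow6
  have h4 := F.geom
  show D.b (clT D.T r) + D.δ (D.N * r + D.s + 1) + 5 * D.ε + Wf 6 (D.K - 1) +
      5 * D.ε * (lgrp (nm 6 D.N D.M D.T) (clf D.N D.M D.T) D.life
        (fun j => D.b (clT D.T r) + D.δ (j + 1) + D.E) (clT D.T r)).pw D.A D.K (D.N * r + D.s) =
    6 ^ (D.K - 1) * (6 * D.b (tgT D.T r) + 2 * D.R' * (5 * D.ε) * cnt D.T (clT D.T r) r)
  unfold Dt.b at *
  generalize (lgrp (nm 6 D.N D.M D.T) (clf D.N D.M D.T) D.life
        (fun j => 4 * D.ε + (6 ^ (D.K - 1) * D.h (clT D.T r) + D.tl (clT D.T r)) +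
          D.δ (j + 1) + D.E) (clT D.T r)).pw D.A D.K (D.N * r + D.s) = p at *
  generalize D.δ (D.N * r + D.s + 1) = d at *
  generalize cnt D.T (clT D.T r) r = n at *
  rw [h3] at h1 h4
  generalize 6 ^ (D.K - 1) = κ at *
  generalize κ * D.h (clT D.T r) + D.tl (clT D.T r) = sa at *
  generalize κ * D.h (tgT D.T r) + D.tl (tgT D.T r) = sb at *
  generalize Wf 6 (D.K - 1) = w at *
  generalize Wf 6 D.K = W at *
  zify at *
  linear_combination h1 + 5 * (D.ε : ℤ) * h2 + 4 * (D.ε : ℤ) * h4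

/-- The total of a real block of the start. -/
theorem totalI (F : D.Full) {r : ℕ} (hr : r < D.L) :
    D.GI.d (D.N * r + D.sI) + Wf D.A.ν (D.K - 1) + D.A.E * D.GI.pw D.A D.K (D.N * r + D.sI) =
    D.A.ν ^ (D.K - 1) * (D.c (D.tgI r) + 2 * D.R' * D.E * r) := by
  have hjN : D.N * r + D.sI < D.N * D.L := by
    have := F.plan.hsI
    calc D.N * r + D.sI < D.N * r + D.N := by omega
      _ = D.N * (r + 1) := by ring
      _ ≤ _ := Nat.mul_le_mul_left _ hr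
  have hdiv : (D.N * r + D.sI) / D.N = r := by
    rw [Nat.mul_add_div F.plan.hN0, Nat.div_eq_of_lt F.plan.hsI, Nat.add_zero]
  have hmod : (D.N * r + D.sI) % D.N = D.sI := by
    rw [Nat.mul_add_mod, Nat.mod_eq_of_lt F.plan.hsI]
  have hlife : D.lifeI (D.N * r + D.sI) = D.K := (F.plan.lifeI_eq _).2 ⟨hjN, hmod⟩
  have h1 := F.del.realI _ hjN hlife
  rw [hdiv] at h1
  have h2 := F.plan.pwI_real D.A rfl
    (fun i => D.δ (D.m + 1 + i) + (5 * D.m - 1) * D.ε) r hr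
  have h3 := F.pow6
  have h4 := F.geom
  have hm1 : 1 ≤ nm 6 D.N D.M D.T := by
    unfold nm
    have h5 : 1 ≤ Wf 6 (lam D.M + 1) := by
      have h6 : Wf 6 1 ≤ Wf 6 (lam D.M + 1) := Wf_mono 6 (by omega)
      rwa [Wf_one] at h6
    omega
  show D.δ (nm 6 D.N D.M D.T + 1 + (D.N * r + D.sI)) + (5 * nm 6 D.N D.M D.T - 1) * D.ε +
      Wf 6 (D.K - 1) + 5 * D.ε * (igrp (nI 6 D.N D.M D.L) D.lifeI
        (fun i => D.δ (D.m + 1 + i) + (5 * D.m - 1) * D.ε)).pw D.A D.K (D.N * r + D.sI) =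
    6 ^ (D.K - 1) * (6 * D.b (D.tgI r) + 2 * D.R' * (5 * D.ε) * r)
  unfold Dt.b at *
  generalize (igrp (nI 6 D.N D.M D.L) D.lifeI
        (fun i => D.δ (D.m + 1 + i) + (5 * D.m - 1) * D.ε)).pw D.A D.K (D.N * r + D.sI) = p at *
  generalize D.δ (nm 6 D.N D.M D.T + 1 + (D.N * r + D.sI)) = d at *
  rw [h3] at h1 h4
  generalize 6 ^ (D.K - 1) = κ at *
  generalize κ * D.h (D.tgI r) + D.tl (D.tgI r) = sb at *
  generalize Wf 6 (D.K - 1) = w at *
  generalize Wf 6 D.K = W at *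
  generalize nm 6 D.N D.M D.T = m at *
  obtain ⟨m, rfl⟩ : ∃ m', m = m' + 1 := ⟨m - 1, by omega⟩
  have e : 5 * (m + 1) - 1 = 5 * m + 4 := by omega
  rw [e]
  zify at *
  linear_combination h1 + 5 * (D.ε : ℤ) * h2 + 4 * (D.ε : ℤ) * h4

/-- The conditions for the own class, before the death. -/
theorem own_persist (F : D.Full) {j t : ℕ} (hj : j < D.m) (h1 : t < D.life j)
    (h2 : t < D.K) : 6 ^ t ∣ (D.G (D.cl j)).Q D.A t j := by
  have hK := F.K8
  rcases (F.plan.life_le j).lt_or_eq with hlt | heq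
  · have hd := (pow_dvd_pow 6 h1.le).trans (F.del.dummy j hj hlt)
    obtain ⟨z, hz⟩ := (D.G (D.cl j)).Q_trunc D.A D.K j (t := t) (f := D.life j) h1.le h2.le
    have e0 : (4 * D.ε + (6 ^ (D.K - 1) * D.h (clf D.N D.M D.T j) + D.tl (clf D.N D.M D.T j))) +
        D.δ (j + 1) + 5 * D.ε + Wf 6 (D.life j) + 5 * D.ε * (lgrp (nm 6 D.N D.M D.T)
        (clf D.N D.M D.T) D.life D.δ (clf D.N D.M D.T j)).pw
        ⟨6, 5 * D.ε, nt 6 D.N D.M D.L D.T, D.δ⟩ D.K j =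
        (D.G (D.cl j)).d j + Wf D.A.ν (D.life j) + D.A.E * (D.G (D.cl j)).pw D.A D.K j := rfl
    rw [e0, hz] at hd
    have e : 6 ^ (D.life j - 1) = 6 ^ t * 6 ^ (D.life j - 1 - t) := by
      rw [← pow_add]; congr 1; omega
    rw [e, Nat.add_assoc, show D.A.ν = 6 from rfl, ← Nat.mul_add] at hd
    exact (Nat.dvd_add_left (Dvd.intro _ rfl)).1 hd
  · obtain ⟨hjN, hjs⟩ := (F.plan.life_eq j).1 heq
    have hrT : j / D.N < D.T.length := Nat.div_lt_of_lt_mul hjN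
    have htot := F.total hrT
    have hj2 : D.N * (j / D.N) + D.s = j := by rw [← hjs]; exact Nat.div_add_mod j D.N
    have hcl : D.cl j = clT D.T (j / D.N) := by unfold Dt.cl clf; rw [if_pos hjN]
    rw [hj2, ← hcl] at htot
    obtain ⟨z, hz⟩ := (D.G (D.cl j)).Q_trunc D.A D.K j (t := t) (f := D.K - 1) (by omega) h2.le
    rw [htot] at hz
    have hd : 6 ^ t ∣ (D.G (D.cl j)).Q D.A t j + 6 ^ t * z := by
      have hz' : 6 ^ (D.K - 1) * (D.c (tgT D.T (j / D.N)) + 2 * D.R' * D.E *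
        cnt D.T (D.cl j) (j / D.N)) = (D.G (D.cl j)).Q D.A t j + 6 ^ t * z := hz
      rw [← hz']
      exact Dvd.dvd.mul_right (pow_dvd_pow _ (by omega)) _
    exact (Nat.dvd_add_left (Dvd.intro _ rfl)).1 hd

/-- The condition for the own class at the death. -/
theorem own_die (F : D.Full) {j : ℕ} (hj : j < D.m) (h1 : D.life j < D.K) :
    6 ^ D.life j ∣ (D.G (D.cl j)).Q D.A (D.life j) j + 6 ^ (D.life j - 1) := by
  have hd := F.del.dummy j hj h1
  obtain ⟨z, hz⟩ := (D.G (D.cl j)).Q_trunc D.A D.K j (t := D.life j) (f := D.life j) le_rfl h1.le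
  have e0 : (4 * D.ε + (6 ^ (D.K - 1) * D.h (clf D.N D.M D.T j) + D.tl (clf D.N D.M D.T j))) +
      D.δ (j + 1) + 5 * D.ε + Wf 6 (D.life j) + 5 * D.ε * (lgrp (nm 6 D.N D.M D.T)
      (clf D.N D.M D.T) D.life D.δ (clf D.N D.M D.T j)).pw
      ⟨6, 5 * D.ε, nt 6 D.N D.M D.L D.T, D.δ⟩ D.K j =
      (D.G (D.cl j)).d j + Wf D.A.ν (D.life j) + D.A.E * (D.G (D.cl j)).pw D.A D.K j := rfl
  rw [e0, hz, show D.A.ν = 6 from rfl] at hd
  have e : (D.G (D.cl j)).Q D.A (D.life j) j + 6 ^ D.life j * z + 6 ^ (D.life j - 1) =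
      (D.G (D.cl j)).Q D.A (D.life j) j + 6 ^ (D.life j - 1) + 6 ^ D.life j * z := by ring
  rw [e] at hd
  exact (Nat.dvd_add_left (Dvd.intro _ rfl)).1 hd

/-- The conditions for the start blocks, before the death. -/
theorem ownI_persist (F : D.Full) {j t : ℕ} (hj : j < D.mI) (h1 : t < D.lifeI j)
    (h2 : t < D.K) : 6 ^ t ∣ D.GI.Q D.A t j := by
  have hK := F.K8
  rcases (F.plan.lifeI_le j).lt_or_eq with hlt | heq
  · have hd := (pow_dvd_pow 6 h1.le).trans (F.del.dummyI j hj hlt)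
    obtain ⟨z, hz⟩ := D.GI.Q_trunc D.A D.K j (t := t) (f := D.lifeI j) h1.le h2.le
    have e0 : D.δ (nm 6 D.N D.M D.T + 1 + j) + (5 * nm 6 D.N D.M D.T - 1) * D.ε +
        Wf 6 (D.lifeI j) + 5 * D.ε * (igrp (nI 6 D.N D.M D.L) D.lifeI D.δ).pw
        ⟨6, 5 * D.ε, nt 6 D.N D.M D.L D.T, D.δ⟩ D.K j =
        D.GI.d j + Wf D.A.ν (D.lifeI j) + D.A.E * D.GI.pw D.A D.K j := rfl
    rw [e0, hz] at hd
    have e : 6 ^ (D.lifeI j - 1) = 6 ^ t * 6 ^ (D.lifeI j - 1 - t) := by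
      rw [← pow_add]; congr 1; omega
    rw [e, Nat.add_assoc, show D.A.ν = 6 from rfl, ← Nat.mul_add] at hd
    exact (Nat.dvd_add_left (Dvd.intro _ rfl)).1 hd
  · obtain ⟨hjN, hjs⟩ := (F.plan.lifeI_eq j).1 heq
    have hrT : j / D.N < D.L := Nat.div_lt_of_lt_mul hjN
    have htot := F.totalI hrT
    have hj2 : D.N * (j / D.N) + D.sI = j := by rw [← hjs]; exact Nat.div_add_mod j D.N
    rw [hj2] at htot
    obtain ⟨z, hz⟩ := D.GI.Q_trunc D.A D.K j (t := t) (f := D.K - 1) (by omega) h2.le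
    rw [htot] at hz
    have hd : 6 ^ t ∣ D.GI.Q D.A t j + 6 ^ t * z := by
      have hz' : 6 ^ (D.K - 1) * (D.c (D.tgI (j / D.N)) + 2 * D.R' * D.E * (j / D.N)) =
        D.GI.Q D.A t j + 6 ^ t * z := hz
      rw [← hz']
      exact Dvd.dvd.mul_right (pow_dvd_pow _ (by omega)) _
    exact (Nat.dvd_add_left (Dvd.intro _ rfl)).1 hd

theorem ownI_die (F : D.Full) {j : ℕ} (hj : j < D.mI) (h1 : D.lifeI j < D.K) :
    6 ^ D.lifeI j ∣ D.GI.Q D.A (D.lifeI j) j + 6 ^ (D.lifeI j - 1) := by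
  have hd := F.del.dummyI j hj h1
  obtain ⟨z, hz⟩ := D.GI.Q_trunc D.A D.K j (t := D.lifeI j) (f := D.lifeI j) le_rfl h1.le
  have e0 : D.δ (nm 6 D.N D.M D.T + 1 + j) + (5 * nm 6 D.N D.M D.T - 1) * D.ε +
      Wf 6 (D.lifeI j) + 5 * D.ε * (igrp (nI 6 D.N D.M D.L) D.lifeI D.δ).pw
      ⟨6, 5 * D.ε, nt 6 D.N D.M D.L D.T, D.δ⟩ D.K j =
      D.GI.d j + Wf D.A.ν (D.lifeI j) + D.A.E * D.GI.pw D.A D.K j := rfl
  rw [e0, hz, show D.A.ν = 6 from rfl] at hd
  have e : D.GI.Q D.A (D.lifeI j) j + 6 ^ D.lifeI j * z + 6 ^ (D.lifeI j - 1) =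
      D.GI.Q D.A (D.lifeI j) j + 6 ^ (D.lifeI j - 1) + 6 ^ D.lifeI j * z := by ring
  rw [e] at hd
  exact (Nat.dvd_add_left (Dvd.intro _ rfl)).1 hd

/-- At low levels the counts do not depend on the group. -/
theorem rdn_low (F : D.Full) {a b u : ℕ} (ha : a ≤ D.M) (hb : b ≤ D.M) (hu : u < lam a)
    (hu' : u < lam b) (i : ℕ) : (D.G a).rdn D.A i u = (D.G b).rdn D.A i u := by
  have h1 := F.plan.life_ge i
  unfold Grp.rdn Dt.G lgrp
  simp only [decide_eq_true_eq]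
  unfold lam at *
  split_ifs <;> omega

theorem Iu_low (F : D.Full) {a b u : ℕ} (ha : a ≤ D.M) (hb : b ≤ D.M) (hu : u < lam a)
    (hu' : u < lam b) (j : ℕ) : (D.G a).Iu D.A u j = (D.G b).Iu D.A u j := by
  unfold Grp.Iu
  exact Finset.sum_congr rfl (fun i _ => F.rdn_low ha hb hu hu' i)

theorem Q_low (F : D.Full) {a b t : ℕ} (ha : a ≤ D.M) (hb : b ≤ D.M) (hu : t ≤ lam a)
    (hu' : t ≤ lam b) (j : ℕ) :
    (D.G a).Q D.A t j + D.b b = (D.G b).Q D.A t j + D.b a := by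
  unfold Grp.Q
  have : ∑ u ∈ range t, (D.G a).Iu D.A u j * D.A.ν ^ u =
      ∑ u ∈ range t, (D.G b).Iu D.A u j * D.A.ν ^ u := by
    apply Finset.sum_congr rfl
    intro u hu2
    rw [Finset.mem_range] at hu2
    rw [F.Iu_low ha hb (by omega) (by omega)]
  rw [this]
  show D.b a + D.δ (j + 1) + D.E + _ + _ + D.b b = D.b b + D.δ (j + 1) + D.E + _ + _ + D.b a
  ring

theorem Iu0 (F : D.Full) (a i : ℕ) : (D.G a).Iu D.A 0 i = i := by
  unfold Grp.Iu
  rw [Finset.sum_congr rfl (g := fun _ => 1)]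
  · simp
  · intro k _
    have := F.plan.life_ge k
    unfold Grp.rdn Dt.G lgrp
    unfold lam at *
    dsimp only
    split_ifs <;> omega

theorem IuI0 (F : D.Full) (i : ℕ) : D.GI.Iu D.A 0 i = i := by
  unfold Grp.Iu
  rw [Finset.sum_congr rfl (g := fun _ => 1)]
  · simp
  · intro k _
    have := F.plan.lifeI_ge k
    unfold Grp.rdn Dt.GI igrp
    unfold lam at *
    dsimp only
    split_ifs <;> omega

theorem ε_mod (F : D.Full) : ∃ e, D.ε + 1 = 36 * e := by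
  obtain ⟨e, he⟩ := F.del.eps
  have hK := F.K8
  refine ⟨6 ^ (D.K - 2) * e, ?_⟩
  rw [he]
  have : 6 ^ D.K = 36 * 6 ^ (D.K - 2) := by
    rw [show (36 : ℕ) = 6 ^ 2 by norm_num, ← pow_add]; congr 1; omega
  rw [this]
  ring

/-- The residues of the codes of the classes. -/
theorem b_cl_mod (F : D.Full) (j : ℕ) : ∃ z, D.b (D.cl j) + 4 = 6 * z := by
  obtain ⟨e, he⟩ := F.ε_mod
  have hK := F.K8
  unfold Dt.b
  rw [F.tl_cl]
  have h1 : 6 ^ (D.K - 1) = 6 * 6 ^ (D.K - 2) := by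
    rw [← pow_succ']; congr 1; omega
  have h2 : 6 ^ (lam (D.cl j) - 1) = 6 * 6 ^ (lam (D.cl j) - 2) := by
    have h3 : lam (D.cl j) = 2 * D.cl j + 4 := rfl
    rw [← pow_succ', show lam (D.cl j) - 2 + 1 = lam (D.cl j) - 1 by omega]
  rw [h1, h2]
  refine ⟨4 * (6 * e) + (6 ^ (D.K - 2) * D.h (D.cl j) + 1 + 31 * 6 ^ (lam (D.cl j) - 2)), ?_⟩
  have : 4 * D.ε + 4 = 4 * (36 * e) := by rw [← he]; ring
  linarith

/-- The residues of the offsets. -/
theorem δ_mod (F : D.Full) {i : ℕ} (hi : i < D.m) : 6 ∣ D.δ (i + 1) + D.E * (i + 1) + 3 := by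
  have hK := F.K8
  have h1 := F.own_persist (t := 1) hi
    (by have := F.plan.life_ge i; unfold lam at this; omega) (by omega)
  unfold Grp.Q at h1
  rw [Finset.sum_range_one, pow_one, pow_zero, Nat.mul_one, Wf_one, F.Iu0] at h1
  have h2 : 6 ∣ D.b (D.cl i) + D.δ (i + 1) + D.E + 1 + D.E * i := h1
  obtain ⟨z, hz⟩ := F.b_cl_mod i
  have e : D.b (D.cl i) + D.δ (i + 1) + D.E + 1 + D.E * i + 6 = 
      (D.δ (i + 1) + D.E * (i + 1) + 3) + 6 * z := by rw [← hz]; ring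
  have h3 : 6 ∣ (D.δ (i + 1) + D.E * (i + 1) + 3) + 6 * z := by
    rw [← e]; exact Dvd.dvd.add h2 dvd_rfl
  exact (Nat.dvd_add_left (Dvd.intro _ rfl)).1 h3

theorem m_pos (_F : D.Full) : 1 ≤ D.m := by
  unfold Dt.m nm
  have h5 : 1 ≤ Wf 6 (lam D.M + 1) := by
    have h6 : Wf 6 1 ≤ Wf 6 (lam D.M + 1) := Wf_mono 6 (by omega)
    rwa [Wf_one] at h6
  omega

/-- The residues of the offsets of the start. -/
theorem δI_mod (F : D.Full) {i : ℕ} (hi : i < D.mI) :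
    6 ∣ D.δ (D.m + 1 + i) + D.E * (D.m + 1 + i) + 1 := by
  have hK := F.K8
  have hm := F.m_pos
  have h1 := F.ownI_persist (t := 1) hi
    (by have := F.plan.lifeI_ge i; unfold lam at this; omega) (by omega)
  unfold Grp.Q at h1
  rw [Finset.sum_range_one, pow_one, pow_zero, Nat.mul_one, Wf_one, F.IuI0] at h1
  have h2 : 6 ∣ D.δ (D.m + 1 + i) + (5 * D.m - 1) * D.ε + 1 + (5 * D.ε) * i := h1
  obtain ⟨m, hm'⟩ : ∃ m, D.m = m + 1 := ⟨D.m - 1, by omega⟩
  have e1 : 5 * (m + 1) - 1 = 5 * m + 4 := by omega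
  rw [hm', e1] at h2
  rw [hm']
  have e : D.δ (m + 1 + 1 + i) + D.E * (m + 1 + 1 + i) + 1 =
      (D.δ (m + 1 + 1 + i) + (5 * m + 4) * D.ε + 1 + 5 * D.ε * i) + 6 * D.ε := by
    unfold Dt.E; ring
  rw [e]
  exact Dvd.dvd.add h2 (Dvd.intro _ rfl)

theorem six_dvd_N (F : D.Full) : 36 ∣ D.N := by
  have h : 6 ^ 2 ∣ D.N := (pow_dvd_pow _ (by unfold lam; omega)).trans F.plan.hN
  exact h

theorem W_mod (_F : D.Full) : ∃ z, Wf 6 (lam D.M + 1) = 36 * z + 7 := by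
  refine ⟨Wf 6 (lam D.M - 1), ?_⟩
  have : lam D.M + 1 = 2 + (lam D.M - 1) := by unfold lam; omega
  rw [this, Wf_add]
  have h2 : Wf 6 2 = 7 := by simp [Wf, Finset.sum_range_succ]
  rw [h2]
  ring

theorem mt_mod (F : D.Full) : ∃ z, D.mt = 36 * z + 7 := by
  obtain ⟨y, hy⟩ := F.six_dvd_N
  obtain ⟨w, hw⟩ := F.W_mod
  unfold Dt.mt
  rw [nt_eq (by norm_num), hw]
  have : 6 ^ (lam D.M + 1) = 36 * 6 ^ (lam D.M - 1) := by
    rw [show (36 : ℕ) = 6 ^ 2 by norm_num, ← pow_add]; congr 1; unfold lam; omega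
  rw [this]
  refine ⟨y * (D.T.length + D.L) + w + 6 ^ (lam D.M - 1), ?_⟩
  conv_lhs => rw [hy]
  ring

theorem mt_eq (_F : D.Full) : D.mt = D.m + 1 + D.mI := by
  unfold Dt.mt nt Dt.m Dt.mI; ring

/-- The number of blocks of class `a` before `j`. -/
def nc (D : Dt) (a j : ℕ) : ℕ := ∑ i ∈ range j, if D.cl i = a then 1 else 0

theorem cl_batch (F : D.Full) {r : ℕ} (hr : r < D.T.length) {k : ℕ} (hk : k < D.N) :
    D.cl (D.N * r + k) = clT D.T r := by
  have h1 : D.N * r + k < D.N * D.T.length := by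
    calc D.N * r + k < D.N * r + D.N := by omega
      _ = D.N * (r + 1) := by ring
      _ ≤ _ := Nat.mul_le_mul_left _ hr
  unfold Dt.cl clf
  rw [if_pos h1, Nat.mul_add_div F.plan.hN0, Nat.div_eq_of_lt hk, Nat.add_zero]

theorem cl_last (_F : D.Full) (k : ℕ) : D.cl (D.N * D.T.length + k) = D.M := by
  unfold Dt.cl clf
  rw [if_neg (by omega)]

theorem nc_batch (F : D.Full) {a : ℕ} {r : ℕ} (hr : r < D.T.length)
    {i : ℕ} (hi : i ≤ D.N) :
    nc D a (D.N * r + i) = nc D a (D.N * r) + if clT D.T r = a then i else 0 := by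
  unfold nc
  rw [Finset.sum_range_add]
  congr 1
  rw [Finset.sum_congr rfl (g := fun _ => if clT D.T r = a then 1 else 0)]
  · split_ifs <;> simp
  · intro k hk
    rw [Finset.mem_range] at hk
    rw [F.cl_batch hr (show k < D.N by omega)]

theorem nc_full (F : D.Full) (a : ℕ) : ∀ r, r ≤ D.T.length →
    D.N ∣ nc D a (D.N * r) := by
  intro r
  induction r with
  | zero => intro _; simp [nc]
  | succ r ih =>
    intro hr
    rw [Nat.mul_succ, F.nc_batch (by omega) le_rfl]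
    apply Dvd.dvd.add (ih (by omega))
    split_ifs
    · exact dvd_rfl
    · exact dvd_zero _

theorem nc_dvd (F : D.Full) {a j : ℕ} (ha : a < D.M) (hj : D.cl j ≠ a) :
    D.N ∣ nc D a j := by
  by_cases h1 : j < D.N * D.T.length
  · have hr : j / D.N < D.T.length := Nat.div_lt_of_lt_mul h1
    have hj' : clT D.T (j / D.N) ≠ a := by
      unfold Dt.cl clf at hj
      rwa [if_pos h1] at hj
    rw [← Nat.div_add_mod j D.N, F.nc_batch hr (Nat.mod_lt _ F.plan.hN0).le, if_neg hj',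
      Nat.add_zero]
    exact F.nc_full a _ hr.le
  · obtain ⟨k, rfl⟩ : ∃ k, j = D.N * D.T.length + k := ⟨j - D.N * D.T.length, by omega⟩
    unfold nc
    rw [Finset.sum_range_add, Finset.sum_eq_zero (s := range k), Nat.add_zero]
    · exact F.nc_full a _ le_rfl
    · intro i _
      rw [F.cl_last, if_neg (by omega)]

/-- The difference of the counts at the level of the smaller class. -/
theorem Iu_diff (F : D.Full) {a b : ℕ} (hab : a < b) (hb : b ≤ D.M) (j : ℕ) :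
    (D.G a).Iu D.A (lam a) j + (∑ i ∈ range j, if a < D.cl i then 1 else 0) =
      (D.G b).Iu D.A (lam a) j + nc D a j +
        D.mt * (∑ i ∈ range j, if a < D.cl i then 1 else 0) := by
  unfold Grp.Iu nc
  rw [Finset.mul_sum, ← Finset.sum_add_distrib, ← Finset.sum_add_distrib,
    ← Finset.sum_add_distrib]
  apply Finset.sum_congr rfl
  intro i _
  have h1 := F.plan.life_ge i
  have h2 := F.cl_le i
  have e : D.A.mt = D.mt := rfl
  unfold Grp.rdn Dt.G lgrp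
  simp only [decide_eq_true_eq, e]
  unfold lam at *
  split_ifs <;> omega

end Dt.Full

end Pool.Agent.H97.Pcp
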