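import Pool.Agent.H97.Pcp.Verify

/-!
# The conditions on the blocks hold (continued)
-/

set_option autoImplicit false

namespace Pool.Agent.H97.Pcp

open Finset Pool.Agent.H97.Tag

namespace Dt.Full

variable {D : Dt}

theorem tl_T (F : D.Full) {a : ℕ} (ha : ∃ r < D.T.length, clT D.T r = a) :
    D.tl a = 6 + 31 * 6 ^ (lam a - 1) := by
  obtain ⟨r, hr, rfl⟩ := ha
  exact F.tlT r hr

/-- Comparison of two groups at low levels. -/
theorem Q_cmp (F : D.Full) {a b t : ℕ} (ha : a ≤ D.M) (hb : b ≤ D.M) (hu : t ≤ lam a)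
    (hu' : t ≤ lam b) (j : ℕ) (hta : D.tl a = 6 + 31 * 6 ^ (lam a - 1))
    (htb : D.tl b = 6 + 31 * 6 ^ (lam b - 1)) :
    (D.G a).Q D.A t j + 6 ^ (D.K - 1) * D.h b + 31 * 6 ^ (lam b - 1) =
      (D.G b).Q D.A t j + 6 ^ (D.K - 1) * D.h a + 31 * 6 ^ (lam a - 1) := by
  have h1 := F.Q_low ha hb hu hu' j
  unfold Dt.b at h1
  rw [hta, htb] at h1
  omega

/-- The residues of the offsets. -/
theorem child_mod (F : D.Full) {i : ℕ} (hi : i < D.mt) :
    ∃ r ≤ 3, 6 ∣ D.δ i + D.E * i + r := by
  have h1 := F.mt_eq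
  rcases Nat.eq_zero_or_pos i with rfl | h0
  · refine ⟨0, by norm_num, ?_⟩
    have : D.δ 0 = 0 := F.ok.zero
    rw [this]
    simp
  · obtain ⟨i, rfl⟩ : ∃ i', i = i' + 1 := ⟨i - 1, by omega⟩
    by_cases h2 : i < D.m
    · exact ⟨3, le_rfl, F.δ_mod h2⟩
    · obtain ⟨i', hi'⟩ : ∃ i', i + 1 = D.m + 1 + i' := ⟨i - D.m, by omega⟩
      rw [hi']
      exact ⟨1, by norm_num, F.δI_mod (by omega)⟩

theorem cond (F : D.Full) {a : ℕ} (ha : a < D.M) (haT : ∃ r < D.T.length, clT D.T r = a) :
    (D.G a).Cond D.A D.K := by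
  have hK := F.K8
  have hta := F.tl_T haT
  have hpow : ∀ x t, t ≤ x → 6 ^ t ∣ 6 ^ x := fun x t hxt => pow_dvd_pow _ hxt
  have lamM : lam D.M = 2 * D.M + 4 := rfl
  have lama : lam a = 2 * a + 4 := rfl
  refine ⟨?_, ?_, ?_, ?_, ?_⟩
  · -- persist
    intro j hj t h1 h2 h3
    have hlj := F.plan.life_ge j
    have hcM := F.cl_le j
    by_cases hb : D.cl j = a
    · have hdt : (D.G a).dt j = D.life j := by
        show (if D.cl j = a then _ else _) = _
        rw [if_pos hb]
      have := F.own_persist (t := t) hj (by omega) h3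
      rw [hb] at this
      exact this
    · have ht : t < lam a ∧ t < lam (D.cl j) := by
        have h2' : t < (if D.cl j = a then D.life j else if D.cl j < a then lam (D.cl j)
          else lam a) := h2
        rw [if_neg hb] at h2'
        unfold lam at *
        split_ifs at h2' <;> omega
      have hq := F.Q_cmp ha.le hcM ht.1.le ht.2.le j hta (F.tl_cl j)
      have h4 := F.own_persist hj (t := t) (by unfold lam at *; omega) h3
      have h5 : 6 ^ t ∣ (D.G a).Q D.A t j +
          (6 ^ (D.K - 1) * D.h (D.cl j) + 31 * 6 ^ (lam (D.cl j) - 1)) := by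
        rw [← Nat.add_assoc, hq]
        apply Dvd.dvd.add (Dvd.dvd.add h4 _)
        · exact Dvd.dvd.mul_left (hpow _ _ (by omega)) _
        · exact Dvd.dvd.mul_right (hpow _ _ (by omega)) _
      refine (Nat.dvd_add_left ?_).1 h5
      apply Dvd.dvd.add
      · exact Dvd.dvd.mul_right (hpow _ _ (by omega)) _
      · exact Dvd.dvd.mul_left (hpow _ _ (by omega)) _
  · -- die
    intro j hj hcl t h1 h2 h3
    have hcl' : ¬ a < D.cl j := by
      have : decide (a < D.cl j) = false := hcl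
      simpa using this
    have hlj := F.plan.life_ge j
    have hcM := F.cl_le j
    by_cases hb : D.cl j = a
    · have hdt : (D.G a).dt j = D.life j := by
        show (if D.cl j = a then _ else _) = _
        rw [if_pos hb]
      have := F.own_die hj (by omega)
      rw [hb] at this
      rw [h2, hdt]
      exact this
    · have hlt : D.cl j < a := by omega
      have hdt : (D.G a).dt j = lam (D.cl j) := by
        show (if D.cl j = a then _ else if D.cl j < a then _ else _) = _
        rw [if_neg hb, if_pos hlt]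
      rw [hdt] at h2
      have hll : lam (D.cl j) + 2 ≤ lam a := by unfold lam; omega
      have hq := F.Q_cmp (t := t) ha.le hcM (by omega) (by omega) j hta (F.tl_cl j)
      have h4 := F.own_persist hj (t := t) (by unfold lam at *; omega) h3
      rw [← h2] at hq
      have e0 : 6 ^ t = 6 * 6 ^ (t - 1) := by rw [← pow_succ']; congr 1; omega
      have h5 : 6 ^ t ∣ (D.G a).Q D.A t j + 6 ^ (t - 1) +
          (6 ^ (D.K - 1) * D.h (D.cl j) + 5 * 6 ^ t) := by
        have e : (D.G a).Q D.A t j + 6 ^ (t - 1) +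
            (6 ^ (D.K - 1) * D.h (D.cl j) + 5 * 6 ^ t) =
            (D.G (D.cl j)).Q D.A t j + 6 ^ (D.K - 1) * D.h a + 31 * 6 ^ (lam a - 1) := by
          rw [← hq, e0]; ring
        rw [e]
        apply Dvd.dvd.add (Dvd.dvd.add h4 _)
        · exact Dvd.dvd.mul_left (hpow _ _ (by omega)) _
        · exact Dvd.dvd.mul_right (hpow _ _ (by omega)) _
      show 6 ^ t ∣ (D.G a).Q D.A t j + 6 ^ (t - 1)
      refine (Nat.dvd_add_left ?_).1 h5
      apply Dvd.dvd.add
      · exact Dvd.dvd.mul_right (hpow _ _ (by omega)) _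
      · exact Dvd.dvd.mul_left dvd_rfl _
  · -- multiply
    intro j hj hcl t h1 h2
    have hcl' : a < D.cl j := by
      have : decide (a < D.cl j) = true := hcl
      simpa using this
    have hlj := F.plan.life_ge j
    have hcM := F.cl_le j
    have hdt : (D.G a).dt j = lam a := by
      show (if D.cl j = a then _ else if D.cl j < a then _ else _) = _
      rw [if_neg (by omega), if_neg (by omega)]
    rw [hdt] at h2
    have htb := F.tl_cl j
    obtain ⟨b, hb⟩ : ∃ b, b = D.cl j := ⟨_, rfl⟩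
    rw [← hb] at hcl' hcM htb
    have hll : lam a + 2 ≤ lam b := by unfold lam; omega
    have hlb : lam b ≤ lam D.M := by unfold lam; omega
    have htK : t + 2 ≤ D.K := by omega
    have hq := F.Q_cmp (b := b) (t := t) ha.le hcM (by omega) (by omega) j hta htb
    have h4 := F.own_persist hj (t := t) (by omega) (by omega)
    have h5 := F.own_persist hj (t := t + 1) (by omega) (by omega)
    rw [← hb] at h4 h5
    obtain ⟨y, hy⟩ := h4
    -- the next position in the own group
    have h6 : 6 ∣ y + D.E * (D.G b).Iu D.A t j + 1 := by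
      have h7 : 6 ^ t * (y + D.E * (D.G b).Iu D.A t j + 1) = (D.G b).Q D.A (t + 1) j := by
        rw [Grp.Q_succ, hy]
        show _ = 6 ^ t * y + 6 ^ t + D.E * ((D.G b).Iu D.A t j * 6 ^ t)
        ring
      rw [← h7, pow_succ] at h5
      exact Nat.dvd_of_mul_dvd_mul_left (pow_pos (by omega) t) h5
    rw [hy, ← h2] at hq
    -- the integer quotient
    obtain ⟨z, hz⟩ : ∃ z : ℤ, z = (y : ℤ) + 5 + 6 ^ (D.K - 1 - t) * D.h a -
      6 ^ (D.K - 1 - t) * D.h b - 31 * 6 ^ (lam b - 1 - t) := ⟨_, rfl⟩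
    have e1 : 6 ^ t = 6 ^ (t - 1) * 6 := by rw [← pow_succ]; congr 1; omega
    have e2 : 6 ^ (D.K - 1) = 6 ^ (t - 1) * 6 * 6 ^ (D.K - 1 - t) := by
      rw [← e1, ← pow_add]; congr 1; omega
    have e3 : 6 ^ (lam b - 1) = 6 ^ (t - 1) * 6 * 6 ^ (lam b - 1 - t) := by
      rw [← e1, ← pow_add]; congr 1; omega
    have hQz : ((D.G a).Q D.A t j : ℤ) = 6 ^ (t - 1) * (1 + 6 * z) := by
      rw [e1, e2, e3] at hq
      have hq' : (((D.G a).Q D.A t j + 6 ^ (t - 1) * 6 * 6 ^ (D.K - 1 - t) * D.h b +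
          31 * (6 ^ (t - 1) * 6 * 6 ^ (lam b - 1 - t)) : ℕ) : ℤ) =
          ((6 ^ (t - 1) * 6 * y + 6 ^ (t - 1) * 6 * 6 ^ (D.K - 1 - t) * D.h a +
            31 * 6 ^ (t - 1) : ℕ) : ℤ) := by exact_mod_cast hq
      push_cast at hq'
      rw [hz]
      linear_combination hq'
    have hz0 : 0 ≤ z := by
      by_contra hneg
      have h8 : (1 : ℤ) + 6 * z < 0 := by omega
      have h9 : (0 : ℤ) < 6 ^ (t - 1) := by positivity
      have h10 : ((D.G a).Q D.A t j : ℤ) < 0 := by rw [hQz]; exact mul_neg_of_pos_of_neg h9 h8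
      have : (0 : ℤ) ≤ (D.G a).Q D.A t j := by positivity
      omega
    obtain ⟨w, rfl⟩ := Int.eq_ofNat_of_zero_le hz0
    refine ⟨w, by exact_mod_cast hQz, ?_⟩
    intro i hi
    obtain ⟨r, hr3, hr⟩ := F.child_mod (i := i) hi
    have h9 := F.Iu_diff (a := a) (b := b) (by omega) (by omega) j
    rw [← h2] at h9
    obtain ⟨n1, hn1⟩ := F.nc_dvd (a := a) (j := j) ha (by omega)
    obtain ⟨n2, hn2⟩ := F.six_dvd_N
    obtain ⟨mz, hmz⟩ := F.mt_mod
    generalize (∑ i ∈ range j, if a < D.cl i then 1 else 0) = S at h9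
    have hS : (6 : ℤ) ∣ ((D.G a).Iu D.A t j : ℤ) - (D.G b).Iu D.A t j := by
      have h9' : (((D.G a).Iu D.A t j + S : ℕ) : ℤ) =
        (((D.G b).Iu D.A t j + nc D a j + D.mt * S : ℕ) : ℤ) := by
        rw [h9]
      push_cast at h9'
      refine ⟨6 * n2 * n1 + (6 * mz + 1) * S, ?_⟩
      have h10 : (nc D a j : ℤ) = 36 * n2 * n1 := by
        rw [hn1, hn2]; push_cast; ring
      have h11 : (D.mt : ℤ) = 36 * mz + 7 := by rw [hmz]; push_cast; ring
      rw [h10, h11] at h9'
      linear_combination h9'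
    have hzz : (6 : ℤ) ∣ (w : ℤ) - y + 1 := by
      have g1 : (6 : ℤ) ∣ (6 : ℤ) ^ (D.K - 1 - t) := dvd_pow_self _ (by omega)
      have g2 : (6 : ℤ) ∣ (6 : ℤ) ^ (lam b - 1 - t) := dvd_pow_self _ (by omega)
      have : (w : ℤ) - y + 1 = 6 + 6 ^ (D.K - 1 - t) * D.h a -
        6 ^ (D.K - 1 - t) * D.h b - 31 * 6 ^ (lam b - 1 - t) := by
        have hz' : (w : ℤ) = (y : ℤ) + 5 + 6 ^ (D.K - 1 - t) * D.h a -
          6 ^ (D.K - 1 - t) * D.h b - 31 * 6 ^ (lam b - 1 - t) := hz
        rw [hz']; ring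
      rw [this]
      exact Dvd.dvd.sub (Dvd.dvd.sub (Dvd.dvd.add dvd_rfl (Dvd.dvd.mul_right g1 _))
        (Dvd.dvd.mul_right g1 _)) (Dvd.dvd.mul_left g2 _)
    have hmain : (6 : ℤ) ∣ ((w + D.δ i + D.E * ((D.G a).Iu D.A t j + i) + (2 + r) : ℕ) : ℤ) := by
      have g1 : (6 : ℤ) ∣ ((y + D.E * (D.G b).Iu D.A t j + 1 : ℕ) : ℤ) := by exact_mod_cast h6
      have g2 : (6 : ℤ) ∣ ((D.δ i + D.E * i + r : ℕ) : ℤ) := by exact_mod_cast hr
      have e : ((w + D.δ i + D.E * ((D.G a).Iu D.A t j + i) + (2 + r) : ℕ) : ℤ) =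
          ((y + D.E * (D.G b).Iu D.A t j + 1 : ℕ) : ℤ) + ((D.δ i + D.E * i + r : ℕ) : ℤ) +
          D.E * (((D.G a).Iu D.A t j : ℤ) - (D.G b).Iu D.A t j) + ((w : ℤ) - y + 1) := by
        push_cast; ring
      rw [e]
      exact Dvd.dvd.add (Dvd.dvd.add (Dvd.dvd.add g1 g2) (Dvd.dvd.mul_left hS _)) hzz
    have hmain' : 6 ∣ w + D.δ i + D.E * ((D.G a).Iu D.A t j + i) + (2 + r) := by
      exact_mod_cast hmain
    exact Pat.dead_of (c := 2 + r) (by omega) (show 2 + r < 6 by omega) hmain'
  · -- four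
    intro j _
    have := F.plan.life_ge j
    show 4 ≤ (if D.cl j = a then D.life j else if D.cl j < a then lam (D.cl j) else lam a)
    unfold lam at *
    split_ifs <;> omega
  · -- small
    intro j _ hcl
    have hcl' : a < D.cl j := by
      have : decide (a < D.cl j) = true := hcl
      simpa using this
    have : (D.G a).dt j = lam a := by
      show (if D.cl j = a then _ else if D.cl j < a then _ else _) = _
      rw [if_neg (by omega), if_neg (by omega)]
    rw [this]
    omega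

/-- The position of a real block at the last stage. -/
theorem X_real (F : D.Full) {r : ℕ} (hr : r < D.T.length) :
    (D.G (clT D.T r)).X D.A (D.K - 1) (D.N * r + D.s) =
      D.c (tgT D.T r) + 2 * D.R' * D.E * cnt D.T (clT D.T r) r :=
  Grp.X_last _ _ _ _ (show 0 < 6 by norm_num) (by have := F.K8; omega) (F.total hr)

/-- Which blocks remain at the last stage. -/
theorem AS_last (F : D.Full) {a j : ℕ} (ha : a < D.M) :
    (D.G a).AS D.A D.K j =
      if D.cl j = a ∧ D.life j = D.K then [(D.G a).X D.A (D.K - 1) j] else [] := by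
  have hK := F.K8
  have h1 := F.plan.life_le j
  have h2 := F.cl_le j
  have h3 := F.plan.life_ge j
  by_cases hcl : D.cl j = a
  · have hdt : (D.G a).dt j = D.life j := by
      show (if D.cl j = a then _ else _) = _
      rw [if_pos hcl]
    have hmul : ¬ (D.G a).mul j = true := by
      show ¬ decide (a < D.cl j) = true
      rw [decide_eq_true_eq]; omega
    by_cases hl : D.life j = D.K
    · rw [if_pos ⟨hcl, hl⟩]
      unfold Grp.AS
      rw [if_pos (by omega)]
    · rw [if_neg (by rintro ⟨_, h⟩; exact hl h)]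
      unfold Grp.AS
      rw [if_neg (by omega), if_neg (by rintro ⟨_, h⟩; exact hmul h)]
  · have hdt : (D.G a).dt j ≤ lam D.M := by
      show (if D.cl j = a then _ else if D.cl j < a then _ else _) ≤ _
      rw [if_neg hcl]
      unfold lam
      split_ifs <;> omega
    rw [if_neg (by rintro ⟨h, _⟩; exact hcl h)]
    unfold Grp.AS
    rw [if_neg (by omega), if_neg (by rintro ⟨h, _⟩; omega)]

/-- The final positions. -/
theorem final (F : D.Full) {a : ℕ} (ha : a < D.M) : ∀ r, r ≤ D.T.length →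
    (List.range (D.N * r)).flatMap ((D.G a).AS D.A D.K) =
      ixs (2 * D.R' * D.E) 0 (((D.T.take r).filter (fun p => decide (p.2 = a))).map
        (fun p => D.c p.1)) := by
  intro r
  induction r with
  | zero => intro _; simp
  | succ r ih =>
    intro hr
    have hr' : r < D.T.length := by omega
    rw [Nat.mul_succ, List.range_add, List.flatMap_append, ih (by omega),
      List.take_succ_eq_append_getElem hr', List.filter_append, List.map_append, ixs_append,
      List.flatMap_map]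
    congr 1
    have hcT : clT D.T r = D.T[r].2 := by unfold clT; rw [List.getD_eq_getElem _ _ hr']
    have htT : tgT D.T r = D.T[r].1 := by unfold tgT; rw [List.getD_eq_getElem _ _ hr']
    by_cases h1 : clT D.T r = a
    · have e1 : (List.range D.N).flatMap (fun i => (D.G a).AS D.A D.K (D.N * r + i)) =
          (List.range D.N).flatMap (fun i => if i = D.s then
            [(D.G a).X D.A (D.K - 1) (D.N * r + D.s)] else []) := by
        apply List.flatMap_congr
        intro i hi
        rw [List.mem_range] at hi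
        rw [F.AS_last ha, F.cl_batch hr' hi]
        have hjN : D.N * r + i < D.N * D.T.length := by
          calc D.N * r + i < D.N * r + D.N := by omega
            _ = D.N * (r + 1) := by ring
            _ ≤ _ := Nat.mul_le_mul_left _ hr
        by_cases his : i = D.s
        · rw [if_pos his, if_pos, his]
          refine ⟨h1, (F.plan.life_eq _).2 ⟨hjN, ?_⟩⟩
          rw [Nat.mul_add_mod, Nat.mod_eq_of_lt hi, his]
        · rw [if_neg his, if_neg]
          rintro ⟨_, h2⟩
          have := ((F.plan.life_eq _).1 h2).2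
          rw [Nat.mul_add_mod, Nat.mod_eq_of_lt hi] at this
          exact his this
      rw [e1, Pool.Agent.H97.Tag.Full.flatMap_single, if_pos F.plan.hs]
      have e2 : List.filter (fun p : ℕ × ℕ => decide (p.2 = a)) [D.T[r]] = [D.T[r]] := by
        rw [hcT] at h1
        simp [h1]
      rw [e2]
      simp only [List.map_cons, List.map_nil, ixs_cons, ixs_nil, List.length_map, Nat.zero_add]
      have h2 := F.X_real hr'
      rw [h1] at h2
      rw [h2, htT]
      rfl
    · have e1 : (List.range D.N).flatMap (fun i => (D.G a).AS D.A D.K (D.N * r + i)) = [] := by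
        rw [List.flatMap_eq_nil_iff]
        intro i hi
        rw [List.mem_range] at hi
        rw [F.AS_last ha, F.cl_batch hr' hi, if_neg (by rintro ⟨h, _⟩; exact h1 h)]
      rw [e1]
      have e2 : List.filter (fun p : ℕ × ℕ => decide (p.2 = a)) [D.T[r]] = [] := by
        rw [hcT] at h1
        simp [h1]
      rw [e2]
      simp

theorem final' (F : D.Full) {a : ℕ} (ha : a < D.M) :
    (List.range D.m).flatMap ((D.G a).AS D.A D.K) =
      ixs (2 * D.R' * D.E) 0 ((D.T.filter (fun p => decide (p.2 = a))).map (fun p => D.c p.1)) := by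
  have h1 := F.final ha D.T.length le_rfl
  rw [List.take_length] at h1
  have hm : D.m = D.N * D.T.length + Wf 6 (lam D.M + 1) := rfl
  rw [hm, List.range_add, List.flatMap_append, h1, List.flatMap_map]
  have e1 : (List.range (Wf 6 (lam D.M + 1))).flatMap
      (fun i => (D.G a).AS D.A D.K (D.N * D.T.length + i)) = [] := by
    rw [List.flatMap_eq_nil_iff]
    intro i _
    rw [F.AS_last ha, F.cl_last, if_neg (by rintro ⟨h, _⟩; omega)]
  rw [e1, List.append_nil]

/-- The length shift. -/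
def B (D : Dt) : ℕ := D.E * (D.R' + 1 + D.mI)

/-- The total of the lengths. -/
theorem Sm_total (F : D.Full) {a : ℕ} (ha : a < D.M) (hpos : 0 < cnt D.T a D.T.length) :
    B D + D.E * (D.G a).pw D.A D.K D.m = 6 ^ (D.K - 1) * (2 * D.R' * D.E * cnt D.T a D.T.length) := by
  have h1 := F.plan.pw_total D.A rfl rfl (fun j => D.b a + D.δ (j + 1) + D.E) a ha hpos
  have h2 : (D.G a).pw D.A D.K D.m + (6 - 1) * Wf 6 (lam D.M + 1) ^ 3 + (1 + D.mI) =
      2 * D.R' * 6 ^ (D.K - 1) * cnt D.T a D.T.length := h1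
  have h3 := F.hR
  have e : 6 ^ (D.K - 1) * (2 * D.R' * D.E * cnt D.T a D.T.length) =
      D.E * (2 * D.R' * 6 ^ (D.K - 1) * cnt D.T a D.T.length) := by ring
  rw [e, ← h2]
  unfold B
  rw [h3]
  ring

/-- The lengths. -/
theorem Sm_dvd (F : D.Full) {a : ℕ} (ha : a < D.M) (hpos : 0 < cnt D.T a D.T.length)
    {t : ℕ} (ht : t < D.K) : 6 ^ t ∣ (D.G a).Sm D.A (B D) t := by
  obtain ⟨z, hz⟩ := Grp.pw_trunc (G := D.G a) (A := D.A) D.K D.m ht.le
  have h1 := F.Sm_total ha hpos
  have h2 : (D.G a).Sm D.A (B D) t + 6 ^ t * (D.E * z) =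
      6 ^ (D.K - 1) * (2 * D.R' * D.E * cnt D.T a D.T.length) := by
    rw [← h1, hz]
    show B D + D.E * ∑ u ∈ range t, (D.G a).Iu D.A u D.m * 6 ^ u + 6 ^ t * (D.E * z) =
      B D + D.E * (∑ u ∈ range t, (D.G a).Iu D.A u D.m * 6 ^ u + 6 ^ t * z)
    ring
  have h3 : 6 ^ t ∣ (D.G a).Sm D.A (B D) t + 6 ^ t * (D.E * z) := by
    rw [h2]
    exact Dvd.dvd.mul_right (pow_dvd_pow _ (by omega)) _
  exact (Nat.dvd_add_left (Dvd.intro _ rfl)).1 h3

theorem Ls_last (F : D.Full) {a : ℕ} (ha : a < D.M) (hpos : 0 < cnt D.T a D.T.length) :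
    (D.G a).Ls D.A (B D) D.K = 2 * D.R' * D.E * cnt D.T a D.T.length := by
  have h1 := F.Sm_total ha hpos
  have h2 : (D.G a).Sm D.A (B D) D.K = 6 ^ (D.K - 1) * (2 * D.R' * D.E * cnt D.T a D.T.length) := by
    rw [← h1, ← Grp.pw_eq]
    rfl
  unfold Grp.Ls
  rw [h2]
  exact Nat.mul_div_cancel_left _ (pow_pos (by norm_num) _)

/-! ### The start -/

theorem condI (F : D.Full) : D.GI.Cond D.A D.K := by
  refine ⟨?_, ?_, ?_, ?_, ?_⟩
  · intro j hj t h1 h2 h3
    exact F.ownI_persist hj h2 h3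
  · intro j hj _ t h1 h2 h3
    have h4 : D.lifeI j = t := h2.symm
    have := F.ownI_die hj (by omega)
    rw [h4] at this
    exact this
  · intro j _ h
    exact absurd h (by simp [Dt.GI, igrp])
  · intro j _
    have := F.plan.lifeI_ge j
    show 4 ≤ D.lifeI j
    unfold lam at this
    omega
  · intro j _ h
    exact absurd h (by simp [Dt.GI, igrp])

theorem XI_real (F : D.Full) {r : ℕ} (hr : r < D.L) :
    D.GI.X D.A (D.K - 1) (D.N * r + D.sI) = D.c (D.tgI r) + 2 * D.R' * D.E * r :=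
  Grp.X_last _ _ _ _ (show 0 < 6 by norm_num) (by have := F.K8; omega) (F.totalI hr)

theorem ASI_last (F : D.Full) (j : ℕ) :
    D.GI.AS D.A D.K j = if D.lifeI j = D.K then [D.GI.X D.A (D.K - 1) j] else [] := by
  have h1 := F.plan.lifeI_le j
  have hdt : D.GI.dt j = D.lifeI j := rfl
  unfold Grp.AS
  rw [hdt]
  by_cases h : D.lifeI j = D.K
  · rw [if_pos h, if_pos (by omega)]
  · rw [if_neg h, if_neg (by omega), if_neg (by rintro ⟨_, h⟩; simp [Dt.GI, igrp] at h)]

theorem finalI (F : D.Full) : ∀ r, r ≤ D.L →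
    (List.range (D.N * r)).flatMap (D.GI.AS D.A D.K) =
      ixs (2 * D.R' * D.E) 0 ((List.range r).map (fun r => D.c (D.tgI r))) := by
  intro r
  induction r with
  | zero => intro _; simp
  | succ r ih =>
    intro hr
    have hr' : r < D.L := by omega
    rw [Nat.mul_succ, List.range_add, List.flatMap_append, ih (by omega), List.range_succ,
      List.map_append, ixs_append, List.flatMap_map]
    congr 1
    have e1 : (List.range D.N).flatMap (fun i => D.GI.AS D.A D.K (D.N * r + i)) =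
        (List.range D.N).flatMap (fun i => if i = D.sI then
          [D.GI.X D.A (D.K - 1) (D.N * r + D.sI)] else []) := by
      apply List.flatMap_congr
      intro i hi
      rw [List.mem_range] at hi
      rw [F.ASI_last]
      have hjN : D.N * r + i < D.N * D.L := by
        calc D.N * r + i < D.N * r + D.N := by omega
          _ = D.N * (r + 1) := by ring
          _ ≤ _ := Nat.mul_le_mul_left _ hr
      by_cases his : i = D.sI
      · rw [if_pos his, if_pos, his]
        refine (F.plan.lifeI_eq _).2 ⟨hjN, ?_⟩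
        rw [Nat.mul_add_mod, Nat.mod_eq_of_lt hi, his]
      · rw [if_neg his, if_neg]
        intro h2
        have := ((F.plan.lifeI_eq _).1 h2).2
        rw [Nat.mul_add_mod, Nat.mod_eq_of_lt hi] at this
        exact his this
    rw [e1, Pool.Agent.H97.Tag.Full.flatMap_single, if_pos F.plan.hsI]
    simp only [List.map_cons, List.map_nil, ixs_cons, ixs_nil, List.length_map, Nat.zero_add,
      List.length_range]
    rw [F.XI_real hr']

theorem finalI' (F : D.Full) :
    (List.range D.mI).flatMap (D.GI.AS D.A D.K) =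
      ixs (2 * D.R' * D.E) 0 ((List.range D.L).map (fun r => D.c (D.tgI r))) := by
  have h1 := F.finalI D.L le_rfl
  have hm : D.mI = D.N * D.L + (6 ^ (lam D.M + 1) - 1) := rfl
  rw [hm, List.range_add, List.flatMap_append, h1, List.flatMap_map]
  have e1 : (List.range (6 ^ (lam D.M + 1) - 1)).flatMap
      (fun i => D.GI.AS D.A D.K (D.N * D.L + i)) = [] := by
    rw [List.flatMap_eq_nil_iff]
    intro i _
    rw [F.ASI_last, if_neg]
    intro h
    have := ((F.plan.lifeI_eq _).1 h).1
    omega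
  rw [e1, List.append_nil]

theorem SmI_total (F : D.Full) :
    D.E * D.m + D.E * D.GI.pw D.A D.K D.mI = 6 ^ (D.K - 1) * (2 * D.R' * D.E * D.L) := by
  have h1 := F.plan.pwI_total D.A rfl
    (fun i => D.δ (D.m + 1 + i) + (5 * D.m - 1) * D.ε) F.hL
  have h2 : D.GI.pw D.A D.K D.mI + D.m = 2 * D.R' * 6 ^ (D.K - 1) * D.L := h1
  have e : 6 ^ (D.K - 1) * (2 * D.R' * D.E * D.L) =
      D.E * (2 * D.R' * 6 ^ (D.K - 1) * D.L) := by ring
  rw [e, ← h2]
  ring

theorem SmI_dvd (F : D.Full) {t : ℕ} (ht : t < D.K) : 6 ^ t ∣ D.GI.Sm D.A (D.E * D.m) t := by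
  obtain ⟨z, hz⟩ := Grp.pw_trunc (G := D.GI) (A := D.A) D.K D.mI ht.le
  have h1 := F.SmI_total
  have h2 : D.GI.Sm D.A (D.E * D.m) t + 6 ^ t * (D.E * z) =
      6 ^ (D.K - 1) * (2 * D.R' * D.E * D.L) := by
    rw [← h1, hz]
    show D.E * D.m + D.E * ∑ u ∈ range t, D.GI.Iu D.A u D.mI * 6 ^ u + 6 ^ t * (D.E * z) =
      D.E * D.m + D.E * (∑ u ∈ range t, D.GI.Iu D.A u D.mI * 6 ^ u + 6 ^ t * z)
    ring
  have h3 : 6 ^ t ∣ D.GI.Sm D.A (D.E * D.m) t + 6 ^ t * (D.E * z) := by
    rw [h2]
    exact Dvd.dvd.mul_right (pow_dvd_pow _ (by omega)) _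
  exact (Nat.dvd_add_left (Dvd.intro _ rfl)).1 h3

theorem LsI_last (F : D.Full) : D.GI.Ls D.A (D.E * D.m) D.K = 2 * D.R' * D.E * D.L := by
  have h1 := F.SmI_total
  have h2 : D.GI.Sm D.A (D.E * D.m) D.K = 6 ^ (D.K - 1) * (2 * D.R' * D.E * D.L) := by
    rw [← h1, ← Grp.pw_eq]
    rfl
  unfold Grp.Ls
  rw [h2]
  exact Nat.mul_div_cancel_left _ (pow_pos (by norm_num) _)

end Dt.Full

end Pool.Agent.H97.Pcp
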