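import Pool.Agent.H97.Pcp.Grp
import Pool.Agent.H97.Tag.Plan

/-!
# Weights of the blocks
-/

set_option autoImplicit false

namespace Pool.Agent.H97.Pcp

open Finset Pool.Agent.H97.Tag

namespace Grp

variable (G : Grp) (A : Pat)

/-- The weight of the block `i`. -/
def wt (K i : ℕ) : ℕ := ∑ u ∈ range K, G.rdn A i u * A.ν ^ u

/-- The weight of the blocks before `j`. -/
def pw (K j : ℕ) : ℕ := ∑ i ∈ range j, G.wt A K i

variable {G A}

theorem sum_Iu (j t : ℕ) :
    ∑ u ∈ range t, G.Iu A u j * A.ν ^ u = ∑ i ∈ range j, ∑ u ∈ range t, G.rdn A i u * A.ν ^ u := by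
  unfold Iu
  rw [Finset.sum_comm]
  apply Finset.sum_congr rfl
  intro u _
  rw [Finset.sum_mul]

theorem pw_eq (K j : ℕ) : ∑ u ∈ range K, G.Iu A u j * A.ν ^ u = G.pw A K j := sum_Iu j K

/-- The truncated sum agrees with the full one modulo `ν ^ t`. -/
theorem pw_trunc (K j : ℕ) {t : ℕ} (ht : t ≤ K) :
    ∃ z, G.pw A K j = ∑ u ∈ range t, G.Iu A u j * A.ν ^ u + A.ν ^ t * z := by
  rw [← pw_eq]
  obtain ⟨k, hk⟩ := Nat.exists_eq_add_of_le ht
  rw [hk, Finset.sum_range_add]
  refine ⟨∑ x ∈ range k, G.Iu A (t + x) j * A.ν ^ x, ?_⟩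
  rw [Finset.mul_sum]
  congr 1
  apply Finset.sum_congr rfl
  intro x _
  rw [pow_add]
  ring

theorem wt_plain {K i : ℕ} (h : G.mul i = false) (hK : G.dt i ≤ K) :
    G.wt A K i = Wf A.ν (G.dt i) := by
  rw [← sum_lt_pow A.ν _ _ hK]
  unfold wt
  apply Finset.sum_congr rfl
  intro u _
  unfold rdn
  congr 1
  rw [h]
  split_ifs with h1 h2
  · rfl
  · exact absurd h2.2 (by simp)
  · rfl

theorem wt_mult {K i : ℕ} (h : G.mul i = true) (hK : G.dt i < K) :
    G.wt A K i = Wf A.ν (G.dt i) + A.mt * A.ν ^ G.dt i := by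
  rw [← sum_lt_pow A.ν _ _ hK.le]
  have : A.mt * A.ν ^ G.dt i =
      ∑ u ∈ range K, (if u = G.dt i then A.mt else 0) * A.ν ^ u := by
    rw [Finset.sum_eq_single (G.dt i)]
    · simp
    · intro u _ hu
      rw [if_neg hu, Nat.zero_mul]
    · intro hu
      rw [Finset.mem_range] at hu
      exact absurd hK hu
  rw [this, ← Finset.sum_add_distrib]
  unfold wt
  apply Finset.sum_congr rfl
  intro u _
  unfold rdn
  rw [← Nat.add_mul]
  congr 1
  by_cases h1 : u < G.dt i
  · rw [if_pos h1, if_pos h1, if_neg (by omega)]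
  · rw [if_neg h1, if_neg h1]
    by_cases h2 : u = G.dt i
    · rw [if_pos ⟨h2, h⟩, if_pos h2, Nat.zero_add]
    · rw [if_neg (by rintro ⟨h3, _⟩; exact h2 h3), if_neg h2]

end Grp

/-- The group of the letter `a`: blocks with classes `cl` and lives `life`. -/
def lgrp (m : ℕ) (cl life : ℕ → ℕ) (d : ℕ → ℕ) (a : ℕ) : Grp where
  m := m
  d := d
  dt := fun j => if cl j = a then life j else if cl j < a then lam (cl j) else lam a
  mul := fun j => decide (a < cl j)

/-- The group of the start: no block multiplies. -/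
def igrp (m : ℕ) (life : ℕ → ℕ) (d : ℕ → ℕ) : Grp where
  m := m
  d := d
  dt := life
  mul := fun _ => false

/-- The weight of a block of its own class. -/
theorem wt_own {A : Pat} {m : ℕ} {cl life d : ℕ → ℕ} {K a i : ℕ} (h : cl i = a)
    (hK : life i ≤ K) : (lgrp m cl life d a).wt A K i = Wf A.ν (life i) := by
  have e : (lgrp m cl life d a).dt i = life i := by
    show (if cl i = a then life i else _) = life i
    rw [if_pos h]
  rw [Grp.wt_plain, e]
  · show decide (a < cl i) = false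
    rw [decide_eq_false_iff_not]
    omega
  · rw [e]; exact hK

/-- The weight of a foreign block. -/
theorem wt_foreign {A : Pat} {m : ℕ} {cl life d : ℕ → ℕ} {K a i : ℕ} (h : cl i ≠ a)
    (h1 : lam a < K) (h2 : lam (cl i) ≤ K ∨ a < cl i) :
    (lgrp m cl life d a).wt A K i = fwn A.ν A.mt (cl i) a := by
  unfold fwn
  by_cases hlt : cl i < a
  · have e : (lgrp m cl life d a).dt i = lam (cl i) := by
      show (if cl i = a then life i else if cl i < a then lam (cl i) else lam a) = lam (cl i)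
      rw [if_neg h, if_pos hlt]
    rw [if_pos hlt, Grp.wt_plain, e]
    · show decide (a < cl i) = false
      rw [decide_eq_false_iff_not]
      omega
    · rw [e]; omega
  · have e : (lgrp m cl life d a).dt i = lam a := by
      show (if cl i = a then life i else if cl i < a then lam (cl i) else lam a) = lam a
      rw [if_neg h, if_neg hlt]
    rw [if_neg hlt, Grp.wt_mult, e]
    · show decide (a < cl i) = true
      rw [decide_eq_true_iff]
      omega
    · rw [e]; exact h1

theorem wt_init {A : Pat} {m : ℕ} {life d : ℕ → ℕ} {K i : ℕ} (hK : life i ≤ K) :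
    (igrp m life d).wt A K i = Wf A.ν (life i) := Grp.wt_plain rfl hK

/-- The lives of the blocks of a batch. -/
theorem batch' {ν θ J K s n2 pre own Y1 Y2 : ℕ} (hK : K = θ + 2 + J)
    (hY1 : pre = s * Wf ν (θ + 1) + ν ^ (θ + 1) * Y1) (hsJ : ν * J ≤ s)
    (h1 : Y1 ≤ (s - ν * J) * Wf ν J)
    (hY2 : own = Wf ν K + pre + n2 * Wf ν (θ + 1) + ν ^ (θ + 1) * Y2) (hnJ : ν * J ≤ n2)
    (h2 : Y2 ≤ (n2 - ν * J) * Wf ν J) :
    ∃ f : ℕ → ℕ, (∀ i, θ + 1 ≤ f i) ∧ (∀ i, i ≠ s → f i < K) ∧ f s = K ∧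
      ∑ i ∈ range s, Wf ν (f i) = pre ∧ ∑ i ∈ range (s + 1 + n2), Wf ν (f i) = own := by
  obtain ⟨f1, hf1, hf1s⟩ := rep J s Y1 hsJ h1
  obtain ⟨f2, hf2, hf2s⟩ := rep J n2 Y2 hnJ h2
  have key : ∀ (n Y : ℕ) (f : ℕ → ℕ), ∑ i ∈ range n, Wf ν (f i) = Y →
      ∑ i ∈ range n, Wf ν (θ + 1 + f i) = n * Wf ν (θ + 1) + ν ^ (θ + 1) * Y := by
    intro n Y f h
    simp only [Wf_add]
    rw [Finset.sum_add_distrib, ← Finset.mul_sum, h]
    simp
  refine ⟨fun i => if i < s then θ + 1 + f1 i else if i = s then K else θ + 1 + f2 (i - s - 1),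
    ?_, ?_, ?_, ?_, ?_⟩
  · intro i
    dsimp only
    split_ifs <;> omega
  · intro i hi
    have := hf1 i
    have := hf2 (i - s - 1)
    dsimp only
    split_ifs <;> omega
  · simp
  · rw [hY1, ← key s Y1 f1 hf1s]
    apply Finset.sum_congr rfl
    intro i hi
    rw [Finset.mem_range] at hi
    dsimp only
    rw [if_pos hi]
  · rw [Finset.sum_range_add, Finset.sum_range_succ]
    have a1 : ∑ i ∈ range s, Wf ν (if i < s then θ + 1 + f1 i else if i = s then K
        else θ + 1 + f2 (i - s - 1)) = pre := by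
      rw [hY1, ← key s Y1 f1 hf1s]
      apply Finset.sum_congr rfl
      intro i hi
      rw [Finset.mem_range] at hi
      rw [if_pos hi]
    have a2 : ∑ i ∈ range n2, Wf ν (if s + 1 + i < s then θ + 1 + f1 (s + 1 + i)
        else if s + 1 + i = s then K else θ + 1 + f2 (s + 1 + i - s - 1)) =
        n2 * Wf ν (θ + 1) + ν ^ (θ + 1) * Y2 := by
      rw [← key n2 Y2 f2 hf2s]
      apply Finset.sum_congr rfl
      intro i hi
      rw [if_neg (by omega), if_neg (by omega)]
      congr 2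
      congr 1
      omega
    rw [a1, a2]
    simp only [lt_irrefl, if_false, if_true]
    omega

end Pool.Agent.H97.Pcp
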